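import Pool.Agent.H66.EX.Local

set_option autoImplicit false

open MeasureTheory Set Filter Topology Metric
open scoped ContDiff ENNReal NNReal Pointwise RealInnerProductSpace

noncomputable section

namespace Pool.Agent.H66.EX

variable {n : ℕ}

/-- enlarging an open set inside `D` to a prescribed volume -/
theorem exists_open_volume (hn : 0 < n) {D Ω : Set (EuclideanSpace ℝ (Fin n))} (hDo : IsOpen D)
    {R : ℝ} (hR : 0 ≤ R) (hD : ∀ x ∈ D, ‖x‖ ≤ R) (hΩo : IsOpen Ω) (hΩD : Ω ⊆ D) {A : ℝ}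
    (hA : 0 < A) (h1 : volume Ω ≤ ENNReal.ofReal A) (h2 : ENNReal.ofReal A < volume D) :
    ∃ Ω', IsOpen Ω' ∧ Ω ⊆ Ω' ∧ Ω' ⊆ D ∧ volume Ω' = ENNReal.ofReal A := by
  have : Nonempty (Fin n) := ⟨⟨0, hn⟩⟩
  have hDfin : volume D ≠ ⊤ := by
    have : D ⊆ closedBall 0 R := fun x hx => by
      rw [mem_closedBall, dist_zero_right]; exact hD x hx
    exact ((measure_mono this).trans_lt measure_closedBall_lt_top).ne
  set vb : ℝ := volume.real (ball (0 : EuclideanSpace ℝ (Fin n)) 1) with hvb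
  have hballr : ∀ {r : ℝ}, 0 ≤ r →
      volume.real (ball (0 : EuclideanSpace ℝ (Fin n)) r) = r ^ n * vb := by
    intro r hr
    rw [measureReal_def, Measure.addHaar_ball _ _ hr, ENNReal.toReal_mul,
      ENNReal.toReal_ofReal (by positivity), hvb, measureReal_def]
    simp
  set f : ℝ → ℝ := fun t => volume.real (Ω ∪ (D ∩ ball 0 t)) with hf
  have hsub : ∀ t, Ω ∪ (D ∩ ball 0 t) ⊆ D := fun t => union_subset hΩD inter_subset_left
  have hfin : ∀ t, volume (Ω ∪ (D ∩ ball 0 t)) ≠ ⊤ := fun t =>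
    ((measure_mono (hsub t)).trans_lt hDfin.lt_top).ne
  have hmono : ∀ {s t : ℝ}, s ≤ t → f s ≤ f t := by
    intro s t hst
    rw [hf]
    apply measureReal_mono _ (hfin t)
    exact union_subset_union_right _ (inter_subset_inter_right _ (ball_subset_ball hst))
  have hlip : ∀ {s t : ℝ}, 0 ≤ s → s ≤ t → f t - f s ≤ t ^ n * vb - s ^ n * vb := by
    intro s t hs hst
    have ht : 0 ≤ t := hs.trans hst
    have e1 : Ω ∪ (D ∩ ball 0 t) ⊆ (Ω ∪ (D ∩ ball 0 s)) ∪ (ball 0 t \ ball 0 s) := by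
      rintro x (hx | hx)
      · exact Or.inl (Or.inl hx)
      · by_cases hxs : x ∈ ball (0 : EuclideanSpace ℝ (Fin n)) s
        · exact Or.inl (Or.inr ⟨hx.1, hxs⟩)
        · exact Or.inr ⟨hx.2, hxs⟩
    have hd : volume (ball (0 : EuclideanSpace ℝ (Fin n)) t \ ball 0 s) ≠ ⊤ :=
      ((measure_mono sdiff_subset).trans_lt measure_ball_lt_top).ne
    have e2 : f t ≤ f s + volume.real (ball (0 : EuclideanSpace ℝ (Fin n)) t \ ball 0 s) := by
      rw [hf]
      refine (measureReal_mono e1 (measure_union_ne_top (hfin s) hd)).trans ?_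
      exact measureReal_union_le _ _
    have e3 : volume.real (ball (0 : EuclideanSpace ℝ (Fin n)) t \ ball 0 s) =
        t ^ n * vb - s ^ n * vb := by
      rw [measureReal_sdiff (ball_subset_ball hst) measurableSet_ball, hballr ht, hballr hs]
    linarith
  have hcont : ContinuousOn f (Icc 0 (R + 1)) := by
    intro t ht
    rw [Metric.continuousWithinAt_iff']
    intro ε hε
    have hpc : Continuous fun s : ℝ => s ^ n * vb := by fun_prop
    have h3 := (Metric.continuousWithinAt_iff'.1 (hpc.continuousWithinAt (s := Icc 0 (R + 1))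
      (x := t))) ε hε
    filter_upwards [h3, self_mem_nhdsWithin] with s hs hsI
    refine lt_of_le_of_lt ?_ hs
    rw [Real.dist_eq, Real.dist_eq]
    rcases le_total s t with hst | hst
    · have e1 := hlip hsI.1 hst
      have e2 := hmono hst
      rw [abs_sub_comm, abs_of_nonneg (by linarith), abs_sub_comm,
        abs_of_nonneg (by linarith)]
      exact e1
    · have e1 := hlip ht.1 hst
      have e2 := hmono hst
      rw [abs_of_nonneg (by linarith), abs_of_nonneg (by linarith)]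
      exact e1
  have hf0 : f 0 ≤ A := by
    rw [hf]
    simp only [ball_zero, inter_empty, union_empty]
    rw [measureReal_def]
    exact ENNReal.toReal_le_of_le_ofReal hA.le h1
  have hf1 : A ≤ f (R + 1) := by
    have : Ω ∪ (D ∩ ball 0 (R + 1)) = D := by
      apply Subset.antisymm (hsub _)
      intro x hx
      right
      refine ⟨hx, ?_⟩
      rw [mem_ball, dist_zero_right]
      linarith [hD x hx]
    rw [hf]
    simp only
    rw [this, measureReal_def]
    exact (ENNReal.ofReal_le_iff_le_toReal hDfin).1 h2.le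
  obtain ⟨t, ht, htA⟩ := intermediate_value_Icc (by linarith) hcont ⟨hf0, hf1⟩
  refine ⟨Ω ∪ (D ∩ ball 0 t), hΩo.union (hDo.inter isOpen_ball), subset_union_left, hsub t, ?_⟩
  rw [← htA, hf]
  simp only
  rw [measureReal_def, ENNReal.ofReal_toReal (hfin t)]

/-- **Existence of open minimizers.** For every bounded open `D ⊆ ℝⁿ` (`1 ≤ n ≤ 3`) and almost
every volume `0 < A < |D|`, there is an open set `Ω ⊆ D` with `|Ω| = A` minimising the first
Dirichlet eigenvalue among all open subsets of `D` with volume `A`. Moreover the minimal value is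
`≤ λ₁(Ω')` for all such `Ω'`. -/
theorem exists_open_minimizer (hn : 0 < n) (hn3 : n ≤ 3) {D : Set (EuclideanSpace ℝ (Fin n))}
    (hDo : IsOpen D) (hDb : Bornology.IsBounded D) :
    ∀ᵐ A : ℝ, 0 < A → ENNReal.ofReal A < volume D →
      ∃ Ω, IsOpen Ω ∧ Ω ⊆ D ∧ volume Ω = ENNReal.ofReal A ∧
        ∀ Ω', IsOpen Ω' → Ω' ⊆ D → volume Ω' = ENNReal.ofReal A → lam1 Ω ≤ lam1 Ω' := by
  by_cases hDne : D.Nonempty
  swap
  · refine Eventually.of_forall fun A _ hA2 => ?_
    rw [not_nonempty_iff_eq_empty] at hDne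
    rw [hDne, measure_empty] at hA2
    exact absurd hA2 not_lt_zero
  obtain ⟨R, hR⟩ := hDb.exists_norm_le
  have hR0 : 0 ≤ |R| := abs_nonneg R
  have hD : ∀ x ∈ D, ‖x‖ ≤ |R| := fun x hx => (hR x hx).trans (le_abs_self R)
  filter_upwards [ae_lipschitz hDo hDne hn] with A hAl hA hAV
  obtain ⟨C, ε, hC, hε, hLip⟩ := hAl hA
  obtain ⟨p, hp, hmin⟩ := exists_relaxed hn hDo hDne hR0 hD hA
  obtain ⟨hpH, hp1, hpV⟩ := mem_Adm.1 hp
  obtain ⟨U, hU, hpU⟩ := continuity hn hn3 hDo hD hA hp hmin hC hε hLip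
  obtain ⟨q, hq, hq1, hq2⟩ := exists_HD_positivity hDo hpH hU hpU
  set Ω : Set (EuclideanSpace ℝ (Fin n)) := {x ∈ D | U x ≠ 0} with hΩdef
  have hΩmem : ∀ x, x ∈ Ω ↔ x ∈ D ∧ U x ≠ 0 := by
    intro x; rw [hΩdef, Set.mem_ofPred_eq]
  have hΩo : IsOpen Ω := by
    have : Ω = D ∩ U ⁻¹' {0}ᶜ := by
      ext x; rw [hΩmem]; rfl
    rw [this]
    exact hU.isOpen_inter_preimage hDo isOpen_compl_singleton
  have hΩD : Ω ⊆ D := fun x hx => ((hΩmem x).1 hx).1
  have hΩV : volume Ω ≤ ENNReal.ofReal A := by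
    refine le_trans (measure_mono_ae ?_) hpV
    filter_upwards [hpU] with x hx
    intro hxΩ
    have h3 := (hΩmem x).1 hxΩ
    show (p.1 : EuclideanSpace ℝ (Fin n) → ℝ) x ≠ 0
    rw [hx h3.1]
    exact h3.2
  obtain ⟨Ω', hΩ'o, hΩΩ', hΩ'D, hΩ'V⟩ := exists_open_volume hn hDo hR0 hD hΩo hΩD hA hΩV hAV
  refine ⟨Ω', hΩ'o, hΩ'D, hΩ'V, ?_⟩
  intro Ω'' h1 h2 h3
  have h4 := lamR_le_lam1 hn h1 h2 hA h3
  have h5 := lam1_HD (HD_mono hΩΩ' hq)
  rw [hq1, hp1, one_pow, mul_one] at h5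
  calc lam1 Ω' ≤ ‖q.2‖ ^ 2 := h5
    _ ≤ ‖p.2‖ ^ 2 := pow_le_pow_left₀ (norm_nonneg _) hq2 2
    _ = lamR D A := hmin
    _ ≤ lam1 Ω'' := h4

end Pool.Agent.H66.EX
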