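import Mathlib

set_option autoImplicit false

open MeasureTheory Set Filter Topology Metric
open scoped ContDiff ENNReal NNReal Pointwise

namespace Pool.Agent.H66.EX

variable {n : ℕ}

/-- `φ` is a test function on `Ω`: smooth, compactly supported, with support inside `Ω`. -/
structure IsTest (Ω : Set (EuclideanSpace ℝ (Fin n))) (φ : EuclideanSpace ℝ (Fin n) → ℝ) :
    Prop where
  smooth : ContDiff ℝ ∞ φ
  cpt : HasCompactSupport φ
  supp : tsupport φ ⊆ Ω

/-- First Dirichlet eigenvalue as the infimum of Rayleigh quotients over test functions. -/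
noncomputable def lam1 (Ω : Set (EuclideanSpace ℝ (Fin n))) : ℝ :=
  sInf {r : ℝ | ∃ φ : EuclideanSpace ℝ (Fin n) → ℝ, IsTest Ω φ ∧ ∫ x, (φ x) ^ 2 = 1 ∧
    r = ∫ x, ‖fderiv ℝ φ x‖ ^ 2}

namespace IsTest

variable {Ω Ω' : Set (EuclideanSpace ℝ (Fin n))} {φ ψ : EuclideanSpace ℝ (Fin n) → ℝ}

theorem mono (h : IsTest Ω φ) (hs : Ω ⊆ Ω') : IsTest Ω' φ := ⟨h.smooth, h.cpt, h.supp.trans hs⟩

theorem zero : IsTest Ω (fun _ => (0 : ℝ)) :=
  ⟨contDiff_const, HasCompactSupport.zero, by
    have : tsupport (fun _ : EuclideanSpace ℝ (Fin n) => (0 : ℝ)) = ∅ := by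
      rw [tsupport_eq_empty_iff]; rfl
    rw [this]; exact empty_subset _⟩

theorem add (h : IsTest Ω φ) (h' : IsTest Ω ψ) : IsTest Ω (fun x => φ x + ψ x) :=
  ⟨h.smooth.add h'.smooth, h.cpt.add h'.cpt,
    (tsupport_add φ ψ).trans (union_subset h.supp h'.supp)⟩

theorem smul (h : IsTest Ω φ) (c : ℝ) : IsTest Ω (fun x => c * φ x) :=
  ⟨contDiff_const.mul h.smooth, h.cpt.mul_left, (tsupport_mul_subset_right).trans h.supp⟩

theorem mul_smooth (h : IsTest Ω φ) (hψ : ContDiff ℝ ∞ ψ) : IsTest Ω (fun x => φ x * ψ x) :=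
  ⟨h.smooth.mul hψ, h.cpt.mul_right, (tsupport_mul_subset_left).trans h.supp⟩

theorem continuous (h : IsTest Ω φ) : Continuous φ := h.smooth.continuous

theorem differentiable (h : IsTest Ω φ) : Differentiable ℝ φ := h.smooth.differentiable (by simp)

theorem continuous_fderiv (h : IsTest Ω φ) : Continuous (fderiv ℝ φ) :=
  h.smooth.continuous_fderiv (by simp)

theorem cpt_fderiv (h : IsTest Ω φ) : HasCompactSupport (fderiv ℝ φ) := h.cpt.fderiv ℝ

theorem continuous_gradient (h : IsTest Ω φ) : Continuous (gradient φ) := by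
  unfold gradient
  exact (InnerProductSpace.toDual ℝ _).symm.continuous.comp h.continuous_fderiv

theorem norm_gradient (φ : EuclideanSpace ℝ (Fin n) → ℝ) (x : EuclideanSpace ℝ (Fin n)) :
    ‖gradient φ x‖ = ‖fderiv ℝ φ x‖ := by
  unfold gradient
  exact (InnerProductSpace.toDual ℝ _).symm.norm_map _

theorem cpt_gradient (h : IsTest Ω φ) : HasCompactSupport (gradient φ) := by
  have := h.cpt_fderiv
  exact this.comp_left (g := fun L => (InnerProductSpace.toDual ℝ _).symm L) (by simp)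

theorem memLp (h : IsTest Ω φ) : MemLp φ 2 volume :=
  h.continuous.memLp_of_hasCompactSupport h.cpt

theorem memLp_gradient (h : IsTest Ω φ) : MemLp (gradient φ) 2 volume :=
  h.continuous_gradient.memLp_of_hasCompactSupport h.cpt_gradient

theorem integrable_sq (h : IsTest Ω φ) : Integrable (fun x => (φ x) ^ 2) :=
  (h.continuous.pow 2).integrable_of_hasCompactSupport
    (h.cpt.mono (fun x hx => by
      simp only [Function.mem_support] at hx ⊢
      intro h0; exact hx (by simp [h0])))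

theorem integrable_energy (h : IsTest Ω φ) : Integrable (fun x => ‖fderiv ℝ φ x‖ ^ 2) :=
  (h.continuous_fderiv.norm.pow 2).integrable_of_hasCompactSupport
    (h.cpt_fderiv.mono (fun x hx => by
      simp only [Function.mem_support] at hx ⊢
      intro h0; exact hx (by simp [h0])))

end IsTest

/-- Translation estimate. -/
theorem lintegral_translate_le {φ : EuclideanSpace ℝ (Fin n) → ℝ} (hφ : ContDiff ℝ ∞ φ)
    (h : EuclideanSpace ℝ (Fin n)) :
    ∫⁻ x, ENNReal.ofReal ((φ (x + h) - φ x) ^ 2) ≤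
      ENNReal.ofReal (‖h‖ ^ 2) * ∫⁻ x, ENNReal.ofReal (‖fderiv ℝ φ x‖ ^ 2) := by
  have hdiff : Differentiable ℝ φ := hφ.differentiable (by simp)
  have hcf : Continuous (fderiv ℝ φ) := hφ.continuous_fderiv (by simp)
  have hpt : ∀ x, ENNReal.ofReal ((φ (x + h) - φ x) ^ 2) ≤
      ∫⁻ t in Ioc (0 : ℝ) 1, ENNReal.ofReal (‖h‖ ^ 2 * ‖fderiv ℝ φ (x + t • h)‖ ^ 2) := by
    intro x
    have hc1 : Continuous fun t : ℝ => fderiv ℝ φ (x + t • h) h := by
      exact (hcf.comp (by fun_prop)).clm_apply continuous_const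
    have h1 : φ (x + h) - φ x = ∫ t in (0 : ℝ)..1, fderiv ℝ φ (x + t • h) h := by
      have := intervalIntegral.integral_eq_sub_of_hasDerivAt (a := (0 : ℝ)) (b := 1)
        (f := fun t : ℝ => φ (x + t • h)) (f' := fun t => fderiv ℝ φ (x + t • h) h) ?_ ?_
      · rw [this]; simp
      · intro t _
        have hd : HasDerivAt (fun t : ℝ => x + t • h) h t := by
          simpa using ((hasDerivAt_id t).smul_const h).const_add x
        exact (hdiff _).hasFDerivAt.comp_hasDerivAt t hd
      · exact hc1.intervalIntegrable _ _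
    have h2 : (φ (x + h) - φ x) ^ 2 ≤ ∫ t in (0 : ℝ)..1, (fderiv ℝ φ (x + t • h) h) ^ 2 := by
      rw [h1]
      rw [intervalIntegral.integral_of_le zero_le_one, intervalIntegral.integral_of_le zero_le_one]
      have hprob : IsProbabilityMeasure (volume.restrict (Ioc (0 : ℝ) 1)) := by
        constructor; simp
      have := (even_two.convexOn_pow (𝕜 := ℝ)).map_integral_le
        (μ := volume.restrict (Ioc (0 : ℝ) 1))
        (f := fun t : ℝ => fderiv ℝ φ (x + t • h) h) (by fun_prop) isClosed_univ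
        (by simp) ?_ ?_
      · exact this
      · exact (hc1.continuousOn.integrableOn_Icc).mono_set Ioc_subset_Icc_self
      · exact (((hc1.pow 2).continuousOn.integrableOn_Icc)).mono_set Ioc_subset_Icc_self
    have hc2 : Continuous fun t : ℝ => ‖h‖ ^ 2 * ‖fderiv ℝ φ (x + t • h)‖ ^ 2 := by
      have : Continuous fun t : ℝ => fderiv ℝ φ (x + t • h) := hcf.comp (by fun_prop)
      exact continuous_const.mul (this.norm.pow 2)
    have h3 : (φ (x + h) - φ x) ^ 2 ≤
        ∫ t in (0 : ℝ)..1, ‖h‖ ^ 2 * ‖fderiv ℝ φ (x + t • h)‖ ^ 2 := by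
      refine h2.trans ?_
      apply intervalIntegral.integral_mono_on zero_le_one
      · exact (hc1.pow 2).intervalIntegrable _ _
      · exact hc2.intervalIntegrable _ _
      · intro t _
        have : |fderiv ℝ φ (x + t • h) h| ≤ ‖fderiv ℝ φ (x + t • h)‖ * ‖h‖ :=
          (fderiv ℝ φ (x + t • h)).le_opNorm h
        calc (fderiv ℝ φ (x + t • h) h) ^ 2 = |fderiv ℝ φ (x + t • h) h| ^ 2 := (sq_abs _).symm
          _ ≤ (‖fderiv ℝ φ (x + t • h)‖ * ‖h‖) ^ 2 := by gcongr
          _ = _ := by ring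
    rw [intervalIntegral.integral_of_le zero_le_one] at h3
    refine (ENNReal.ofReal_le_ofReal h3).trans ?_
    rw [ofReal_integral_eq_lintegral_ofReal]
    · exact (hc2.continuousOn.integrableOn_Icc).mono_set Ioc_subset_Icc_self
    · exact Filter.Eventually.of_forall fun t => by positivity
  calc ∫⁻ x, ENNReal.ofReal ((φ (x + h) - φ x) ^ 2)
      ≤ ∫⁻ x, ∫⁻ t in Ioc (0 : ℝ) 1,
          ENNReal.ofReal (‖h‖ ^ 2 * ‖fderiv ℝ φ (x + t • h)‖ ^ 2) := lintegral_mono hpt
    _ = ∫⁻ t in Ioc (0 : ℝ) 1, ∫⁻ x,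
          ENNReal.ofReal (‖h‖ ^ 2 * ‖fderiv ℝ φ (x + t • h)‖ ^ 2) := by
        apply lintegral_lintegral_swap
        apply Measurable.aemeasurable
        have : Continuous fun p : EuclideanSpace ℝ (Fin n) × ℝ =>
            ‖h‖ ^ 2 * ‖fderiv ℝ φ (p.1 + p.2 • h)‖ ^ 2 := by
          have : Continuous fun p : EuclideanSpace ℝ (Fin n) × ℝ =>
            fderiv ℝ φ (p.1 + p.2 • h) := hcf.comp (by fun_prop)
          exact continuous_const.mul (this.norm.pow 2)
        exact ENNReal.measurable_ofReal.comp this.measurable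
    _ = ∫⁻ _t in Ioc (0 : ℝ) 1, ∫⁻ x,
          ENNReal.ofReal (‖h‖ ^ 2 * ‖fderiv ℝ φ x‖ ^ 2) := by
        congr 1
        ext t
        exact lintegral_add_right_eq_self
          (fun x => ENNReal.ofReal (‖h‖ ^ 2 * ‖fderiv ℝ φ x‖ ^ 2)) (t • h)
    _ = ∫⁻ x, ENNReal.ofReal (‖h‖ ^ 2 * ‖fderiv ℝ φ x‖ ^ 2) := by
        simp
    _ = ENNReal.ofReal (‖h‖ ^ 2) * ∫⁻ x, ENNReal.ofReal (‖fderiv ℝ φ x‖ ^ 2) := by
        rw [← lintegral_const_mul']
        · congr 1; ext x
          rw [ENNReal.ofReal_mul (by positivity)]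
        · exact ENNReal.ofReal_ne_top

theorem integral_translate_le {Ω : Set (EuclideanSpace ℝ (Fin n))}
    {φ : EuclideanSpace ℝ (Fin n) → ℝ} (hφ : IsTest Ω φ)
    (h : EuclideanSpace ℝ (Fin n)) :
    ∫ x, (φ (x + h) - φ x) ^ 2 ≤ ‖h‖ ^ 2 * ∫ x, ‖fderiv ℝ φ x‖ ^ 2 := by
  have hi1 : Integrable (fun x => (φ (x + h) - φ x) ^ 2) := by
    have hs : HasCompactSupport (fun x => φ (x + h)) := by
      exact hφ.cpt.comp_homeomorph (Homeomorph.addRight h)
    have hc : Continuous fun x => φ (x + h) := hφ.continuous.comp (by fun_prop)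
    have : HasCompactSupport (fun x => φ (x + h) - φ x) := hs.sub hφ.cpt
    exact ((hc.sub hφ.continuous).pow 2).integrable_of_hasCompactSupport
      (this.mono (fun x hx => by
        simp only [Function.mem_support] at hx ⊢
        intro h0; apply hx
        show (φ (x + h) - φ x) ^ 2 = 0
        rw [h0]; simp))
  have hi2 := hφ.integrable_energy
  have := lintegral_translate_le hφ.smooth h
  rw [← ofReal_integral_eq_lintegral_ofReal hi1 (Eventually.of_forall fun x => by positivity),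
    ← ofReal_integral_eq_lintegral_ofReal hi2 (Eventually.of_forall fun x => by positivity),
    ← ENNReal.ofReal_mul (by positivity)] at this
  exact (ENNReal.ofReal_le_ofReal_iff (by positivity)).1 this

end Pool.Agent.H66.EX
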