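import Pool.Agent.H66.EX.Perturb

set_option autoImplicit false

open MeasureTheory Set Filter Topology Metric
open scoped ContDiff ENNReal NNReal Pointwise RealInnerProductSpace

noncomputable section

namespace Pool.Agent.H66.EX

variable {n : ℕ}

/-- the smoothed function -/
def FF (u : EuclideanSpace ℝ (Fin n) → ℝ) (x : EuclideanSpace ℝ (Fin n)) (r : ℝ) : ℝ :=
  ∫ z, kr x r z * u z

/-- total mass of the kernel -/
def c0 (n : ℕ) : ℝ := ∫ y : EuclideanSpace ℝ (Fin n), qf (‖y‖ ^ 2)

theorem kr_continuous (x : EuclideanSpace ℝ (Fin n)) (r : ℝ) : Continuous (kr x r) := by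
  unfold kr
  exact continuous_const.mul (contDiff_qfh x r).continuous

theorem kr_zero (x : EuclideanSpace ℝ (Fin n)) {r : ℝ} (hr : 0 < r)
    {z : EuclideanSpace ℝ (Fin n)} (hz : r ≤ ‖z - x‖) : kr x r z = 0 := by
  unfold kr; rw [qf_zero (one_le_hs hr hz)]; ring

theorem c0_pos (hn : 0 < n) : 0 < c0 n := by
  obtain ⟨t, ht, htq⟩ := exists_qf_pos
  unfold c0
  have hcont : Continuous fun y : EuclideanSpace ℝ (Fin n) => qf (‖y‖ ^ 2) :=
    qf_contDiff.continuous.comp (by fun_prop)
  apply hcont.integral_pos_of_hasCompactSupport_nonneg_nonzero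
    (x := EuclideanSpace.single ⟨0, hn⟩ (Real.sqrt t))
  · apply (isCompact_closedBall (0 : EuclideanSpace ℝ (Fin n)) 1).of_isClosed_subset
      (isClosed_tsupport _)
    apply tsupport_subset_of_zero
    intro z hz
    apply qf_zero
    rw [sub_zero] at hz
    nlinarith
  · intro y; exact qf_nonneg _
  · rw [PiLp.norm_single, Real.norm_of_nonneg (Real.sqrt_nonneg _), Real.sq_sqrt ht.1.le]
    exact htq.ne'

theorem integral_kr (x : EuclideanSpace ℝ (Fin n)) {r : ℝ} (hr : 0 < r) :
    ∫ z, kr x r z = c0 n := by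
  unfold kr
  have h1 : ∀ z, (r ^ n)⁻¹ * qf (hs x r z) =
      (r ^ n)⁻¹ * (fun y : EuclideanSpace ℝ (Fin n) => qf (‖y‖ ^ 2)) (r⁻¹ • (z - x)) := by
    intro z
    unfold hs
    simp only
    rw [norm_smul, mul_pow, norm_inv, Real.norm_of_nonneg hr.le, inv_pow, div_eq_inv_mul]
  simp only [h1]
  rw [integral_const_mul,
    integral_sub_right_eq_self (fun z => (fun y : EuclideanSpace ℝ (Fin n) => qf (‖y‖ ^ 2))
      (r⁻¹ • z)) x]
  rw [Measure.integral_comp_smul_of_nonneg volume
    (fun y : EuclideanSpace ℝ (Fin n) => qf (‖y‖ ^ 2)) r⁻¹ (hR := by positivity)]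
  simp only [finrank_euclideanSpace, Fintype.card_fin, smul_eq_mul]
  unfold c0
  have h2 : (r ^ n)⁻¹ * ((r⁻¹ ^ n)⁻¹ : ℝ) = 1 := by
    rw [inv_pow, inv_inv, inv_mul_cancel₀]
    positivity
  rw [← mul_assoc, h2, one_mul]

/-- differentiation in the radius -/
theorem hasDerivAt_FF {u : EuclideanSpace ℝ (Fin n) → ℝ} (hu : Integrable u)
    (x : EuclideanSpace ℝ (Fin n)) {r : ℝ} (hr : 0 < r) :
    HasDerivAt (FF u x) ((r ^ n)⁻¹ * r * ∫ z, divW x r z * u z) r := by
  obtain ⟨M, hM, hMb⟩ := exists_bound qf_contDiff.continuous (fun s hs => qf_zero hs)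
  have hdq : Continuous (deriv qf) := (contDiff_infty_iff_deriv.1 qf_contDiff).2.continuous
  obtain ⟨M', hM', hMb'⟩ := exists_bound (f := fun t => t * deriv qf t)
    (continuous_id.mul hdq) (fun s hs => by simp only [qf_deriv_zero hs, mul_zero])
  set B : ℝ := ((r / 2) ^ n)⁻¹ * (2 * r) * ((1 / (r / 2) ^ 2) * (n * M + 2 * M')) with hB
  have hsn : Ioo (r / 2) (2 * r) ∈ 𝓝 r := Ioo_mem_nhds (by linarith) (by linarith)
  have h := hasDerivAt_integral_of_dominated_loc_of_deriv_le (μ := volume)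
    (F := fun r z => kr x r z * u z)
    (F' := fun r z => ((r ^ n)⁻¹ * r * divW x r z) * u z) (bound := fun z => B * |u z|)
    hsn ?_ ?_ ?_ ?_ ?_ ?_
  · have h2 := h.2
    have h3 : ∫ z, ((r ^ n)⁻¹ * r * divW x r z) * u z = (r ^ n)⁻¹ * r * ∫ z, divW x r z * u z := by
      rw [← integral_const_mul]
      congr 1; ext z; ring
    rw [h3] at h2
    exact h2
  · exact Eventually.of_forall fun r' =>
      ((kr_continuous x r').aestronglyMeasurable.mul hu.aestronglyMeasurable)
  · have hb : ∀ z, ‖kr x r z‖ ≤ (r ^ n)⁻¹ * M := by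
      intro z
      unfold kr
      rw [norm_mul, Real.norm_of_nonneg (by positivity), Real.norm_eq_abs]
      exact mul_le_mul_of_nonneg_left (hMb _ (hs_nonneg _ _ _)) (by positivity)
    exact hu.bdd_mul (kr_continuous x r).aestronglyMeasurable (Eventually.of_forall hb)
  · exact ((continuous_const.mul (divW_continuous x r)).aestronglyMeasurable.mul
      hu.aestronglyMeasurable)
  · refine Eventually.of_forall fun z r' hr' => ?_
    have hr'0 : 0 < r' := by linarith [hr'.1]
    rw [norm_mul, Real.norm_eq_abs (u z)]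
    apply mul_le_mul_of_nonneg_right _ (abs_nonneg _)
    rw [norm_mul, norm_mul, Real.norm_of_nonneg (by positivity), Real.norm_of_nonneg hr'0.le]
    have h1 : ((r' ^ n)⁻¹ : ℝ) ≤ ((r / 2) ^ n)⁻¹ := by
      gcongr
      exact hr'.1.le
    have h2 : ‖divW x r' z‖ ≤ (1 / (r / 2) ^ 2) * (n * M + 2 * M') := by
      unfold divW
      rw [norm_mul, norm_neg, Real.norm_of_nonneg (by positivity)]
      have e1 : (1 : ℝ) / r' ^ 2 ≤ 1 / (r / 2) ^ 2 := by
        gcongr
        exact hr'.1.le
      have e2 : ‖(n : ℝ) * qf (hs x r' z) + 2 * hs x r' z * deriv qf (hs x r' z)‖ ≤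
          n * M + 2 * M' := by
        refine (norm_add_le _ _).trans ?_
        rw [norm_mul, Real.norm_of_nonneg (Nat.cast_nonneg n), Real.norm_eq_abs]
        have e3 : ‖2 * hs x r' z * deriv qf (hs x r' z)‖ =
            2 * |hs x r' z * deriv qf (hs x r' z)| := by
          rw [mul_assoc, norm_mul, Real.norm_of_nonneg (by norm_num), Real.norm_eq_abs]
        rw [e3]
        have e4 := hMb _ (hs_nonneg x r' z)
        have e5 := hMb' _ (hs_nonneg x r' z)
        have e6 : (n : ℝ) * |qf (hs x r' z)| ≤ n * M :=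
          mul_le_mul_of_nonneg_left e4 (Nat.cast_nonneg n)
        linarith
      exact mul_le_mul e1 e2 (norm_nonneg _) (by positivity)
    rw [hB]
    have h3 : r' ≤ 2 * r := hr'.2.le
    gcongr
  · exact (hu.abs).const_mul B
  · refine Eventually.of_forall fun z r' hr' => ?_
    have hr'0 : 0 < r' := by linarith [hr'.1]
    exact (hasDerivAt_kr x hr'0 z).mul_const (u z)

/-- continuity in the centre -/
theorem continuous_FF {u : EuclideanSpace ℝ (Fin n) → ℝ} (hu : Integrable u)
    {r : ℝ} (hr : 0 < r) : Continuous fun x => FF u x r := by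
  obtain ⟨M, hM, hMb⟩ := exists_bound qf_contDiff.continuous (fun s hs => qf_zero hs)
  unfold FF
  apply continuous_of_dominated (bound := fun z => ((r ^ n)⁻¹ * M) * |u z|)
  · exact fun x => ((kr_continuous x r).aestronglyMeasurable.mul hu.aestronglyMeasurable)
  · intro x
    refine Eventually.of_forall fun z => ?_
    rw [norm_mul, Real.norm_eq_abs (u z)]
    apply mul_le_mul_of_nonneg_right _ (abs_nonneg _)
    unfold kr
    rw [norm_mul, Real.norm_of_nonneg (by positivity), Real.norm_eq_abs]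
    exact mul_le_mul_of_nonneg_left (hMb _ (hs_nonneg _ _ _)) (by positivity)
  · exact hu.abs.const_mul _
  · refine Eventually.of_forall fun z => ?_
    unfold kr hs
    have : Continuous fun x : EuclideanSpace ℝ (Fin n) => qf (‖z - x‖ ^ 2 / r ^ 2) :=
      qf_contDiff.continuous.comp (by fun_prop)
    fun_prop

/-- a.e. convergence -/
theorem tendsto_FF_ae (hn : 0 < n) {u : EuclideanSpace ℝ (Fin n) → ℝ} (hu : Integrable u) :
    ∀ᵐ x, Tendsto (FF u x) (𝓝[>] 0) (𝓝 (c0 n * u x)) := by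
  have : Nonempty (Fin n) := ⟨⟨0, hn⟩⟩
  obtain ⟨M, hM, hMb⟩ := exists_bound qf_contDiff.continuous (fun s hs => qf_zero hs)
  have hleb := IsUnifLocDoublingMeasure.ae_tendsto_average_norm_sub
    (μ := (volume : Measure (EuclideanSpace ℝ (Fin n)))) hu.locallyIntegrable 1
  set vb : ℝ := volume.real (ball (0 : EuclideanSpace ℝ (Fin n)) 1) with hvb
  have hvb0 : 0 < vb := by
    rw [hvb, measureReal_def]
    exact ENNReal.toReal_pos (measure_ball_pos _ _ one_pos).ne' measure_ball_lt_top.ne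
  have hvolr : ∀ (x : EuclideanSpace ℝ (Fin n)) {r : ℝ}, 0 < r →
      volume.real (closedBall x r) = vb * r ^ n := by
    intro x r hr
    rw [measureReal_def, Measure.addHaar_closedBall _ _ hr.le, ENNReal.toReal_mul,
      ENNReal.toReal_ofReal (by positivity), hvb, measureReal_def]
    simp [mul_comm]
  filter_upwards [hleb] with x hx
  have h1 := hx (fun _ : ℝ => x) (fun r : ℝ => r) (l := 𝓝[>] 0) tendsto_id
    (by
      filter_upwards [self_mem_nhdsWithin] with r hr
      exact mem_closedBall_self (by rw [one_mul]; exact (le_of_lt hr)))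
  rw [tendsto_iff_norm_sub_tendsto_zero]
  have h2 : Tendsto (fun r : ℝ => M * vb * ⨍ y in closedBall x r, ‖u y - u x‖) (𝓝[>] 0)
      (𝓝 0) := by
    have := h1.const_mul (M * vb)
    rwa [mul_zero] at this
  refine squeeze_zero' (Eventually.of_forall fun r => norm_nonneg _) ?_ h2
  filter_upwards [self_mem_nhdsWithin] with r hr
  have hr0 : (0 : ℝ) < r := hr
  have hkb : ∀ z, |kr x r z| ≤ (r ^ n)⁻¹ * M := by
    intro z
    unfold kr
    rw [abs_mul, abs_of_nonneg (by positivity)]
    exact mul_le_mul_of_nonneg_left (hMb _ (hs_nonneg _ _ _)) (by positivity)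
  have hkc : HasCompactSupport (kr x r) :=
    (isCompact_closedBall x r).of_isClosed_subset (isClosed_tsupport _)
      (tsupport_subset_of_zero fun _ hz => kr_zero x hr0 hz)
  have hki : Integrable (kr x r) := (kr_continuous x r).integrable_of_hasCompactSupport hkc
  have hku : Integrable (fun z => kr x r z * u z) :=
    hu.bdd_mul (kr_continuous x r).aestronglyMeasurable (Eventually.of_forall hkb)
  have e1 : FF u x r - c0 n * u x = ∫ z, kr x r z * (u z - u x) := by
    unfold FF
    rw [← integral_kr x hr0, ← integral_mul_const, ← integral_sub hku (hki.mul_const _)]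
    congr 1; ext z; ring
  rw [e1]
  have hsub : IntegrableOn (fun z => ‖u z - u x‖) (closedBall x r) :=
    (hu.integrableOn.sub (integrableOn_const measure_closedBall_lt_top.ne)).norm
  calc ‖∫ z, kr x r z * (u z - u x)‖ = ‖∫ z in closedBall x r, kr x r z * (u z - u x)‖ := by
        rw [setIntegral_eq_integral_of_forall_compl_eq_zero]
        intro z hz
        rw [mem_closedBall, dist_eq_norm] at hz
        push Not at hz
        rw [kr_zero x hr0 hz.le]; simp
    _ ≤ ∫ z in closedBall x r, ((r ^ n)⁻¹ * M) * ‖u z - u x‖ := by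
        apply norm_integral_le_of_norm_le (hsub.const_mul _)
        refine Eventually.of_forall fun z => ?_
        rw [norm_mul]
        exact mul_le_mul_of_nonneg_right (hkb z) (norm_nonneg _)
    _ = M * vb * ⨍ y in closedBall x r, ‖u y - u x‖ := by
        rw [integral_const_mul, setAverage_eq, hvolr x hr0, smul_eq_mul]
        field_simp

/-- a real-variable lemma -/
theorem diff_bound {f f' : ℝ → ℝ} {K ρ : ℝ} (hK : 0 ≤ K)
    (hf : ∀ r, 0 < r → r < ρ → HasDerivAt f (f' r) r)
    (hb : ∀ r, 0 < r → r < ρ → |f' r| ≤ K / Real.sqrt r) {a b : ℝ} (ha : 0 < a) (hab : a ≤ b)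
    (hbρ : b < ρ) : |f b - f a| ≤ 2 * K * Real.sqrt b := by
  have hsub : ∀ r ∈ Icc a b, 0 < r ∧ r < ρ := fun r hr =>
    ⟨lt_of_lt_of_le ha hr.1, lt_of_le_of_lt hr.2 hbρ⟩
  have hsq : ∀ r, 0 < r → HasDerivAt (fun r => 2 * K * Real.sqrt r) (K / Real.sqrt r) r := by
    intro r hr
    have h1 := (Real.hasDerivAt_sqrt hr.ne').const_mul (2 * K)
    have h2 : K / Real.sqrt r = 2 * K * (1 / (2 * Real.sqrt r)) := by
      have : 0 < Real.sqrt r := Real.sqrt_pos.2 hr
      field_simp
    rw [h2]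
    exact h1
  have key : ∀ ε : ℝ, (ε = 1 ∨ ε = -1) → ε * f b - ε * f a ≤ 2 * K * Real.sqrt b := by
    intro ε hε
    have hmono : MonotoneOn (fun r => 2 * K * Real.sqrt r - ε * f r) (Icc a b) := by
      apply monotoneOn_of_deriv_nonneg (convex_Icc a b)
      · intro r hr
        obtain ⟨h1, h2⟩ := hsub r hr
        exact ((hsq r h1).sub ((hf r h1 h2).const_mul ε)).continuousAt.continuousWithinAt
      · intro r hr
        rw [interior_Icc] at hr
        obtain ⟨h1, h2⟩ := hsub r ⟨hr.1.le, hr.2.le⟩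
        exact ((hsq r h1).sub ((hf r h1 h2).const_mul ε)).differentiableAt.differentiableWithinAt
      · intro r hr
        rw [interior_Icc] at hr
        obtain ⟨h1, h2⟩ := hsub r ⟨hr.1.le, hr.2.le⟩
        have h7 : HasDerivAt (fun r => 2 * K * Real.sqrt r - ε * f r)
          (K / Real.sqrt r - ε * f' r) r := (hsq r h1).sub ((hf r h1 h2).const_mul ε)
        rw [h7.deriv]
        have h3 := hb r h1 h2
        have h4 := abs_le.1 h3
        rcases hε with rfl | rfl <;> linarith
    have h5 := hmono (left_mem_Icc.2 hab) (right_mem_Icc.2 hab) hab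
    simp only at h5
    have h6 : 0 ≤ 2 * K * Real.sqrt a := by positivity
    linarith
  rw [abs_le]
  constructor
  · have := key (-1) (Or.inr rfl); linarith
  · have := key 1 (Or.inl rfl); linarith

theorem integrable_of_Adm {D : Set (EuclideanSpace ℝ (Fin n))} {R : ℝ}
    (hD : ∀ x ∈ D, ‖x‖ ≤ R) {p : E2 n × G2 n} (hp : p ∈ HD D) :
    Integrable (p.1 : EuclideanSpace ℝ (Fin n) → ℝ) := by
  have h1 : IntegrableOn (p.1 : EuclideanSpace ℝ (Fin n) → ℝ) (closedBall 0 R) := by
    have h2 : MemLp (p.1 : EuclideanSpace ℝ (Fin n) → ℝ) 2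
        (volume.restrict (closedBall 0 R)) := (Lp.memLp p.1).restrict _
    have : IsFiniteMeasure (volume.restrict (closedBall (0 : EuclideanSpace ℝ (Fin n)) R)) :=
      ⟨by rw [Measure.restrict_apply_univ]; exact measure_closedBall_lt_top⟩
    exact h2.integrable (by norm_num)
  have h3 := (integrable_indicator_iff measurableSet_closedBall).2 h1
  apply h3.congr
  filter_upwards [HD_ae_zero hp] with x hx
  by_cases hxR : x ∈ closedBall (0 : EuclideanSpace ℝ (Fin n)) R
  · rw [indicator_of_mem hxR]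
  · rw [indicator_of_notMem hxR]
    symm
    apply hx
    intro hxD
    exact hxR (by rw [mem_closedBall, dist_zero_right]; exact hD x hxD)

/-- **Continuity of relaxed minimizers**, at volumes where the optimal value is Lipschitz from the
right. -/
theorem continuity (hn : 0 < n) (hn3 : n ≤ 3) {D : Set (EuclideanSpace ℝ (Fin n))}
    (hDo : IsOpen D) {R : ℝ}
    (hD : ∀ x ∈ D, ‖x‖ ≤ R) {A : ℝ}
    (hA : 0 < A)
    {p : E2 n × G2 n} (hp : p ∈ Adm D A) (hmin : ‖p.2‖ ^ 2 = lamR D A) {C ε : ℝ} (hC : 0 ≤ C)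
    (hε : 0 < ε)
    (hLip : ∀ η, 0 < η → η < ε → lamR D A - C * η ≤ lamR D (A + η)) :
    ∃ U : EuclideanSpace ℝ (Fin n) → ℝ, ContinuousOn U D ∧
      ∀ᵐ x, x ∈ D → (p.1 : EuclideanSpace ℝ (Fin n) → ℝ) x = U x := by
  obtain ⟨K, r₀, hK, hr₀, hr₀1, hW⟩ := W_bound hn hn3 hA hp hmin hC hε hLip
  obtain ⟨hpH, hp1, hpV⟩ := mem_Adm.1 hp
  set u : EuclideanSpace ℝ (Fin n) → ℝ := (p.1 : EuclideanSpace ℝ (Fin n) → ℝ) with hu
  have hui : Integrable u := integrable_of_Adm hD hpH
  have hc0 := c0_pos hn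
  -- derivative bound
  have hder : ∀ x r, 0 < r → r < r₀ → closedBall x r ⊆ D →
      |(r ^ n)⁻¹ * r * ∫ z, divW x r z * u z| ≤ K / Real.sqrt r := by
    intro x r hr hrr₀ hball
    have h1 : ∫ z, divW x r z * u z = ⟪p.1, (divW_memLp x hr).toLp (divW x r)⟫ := by
      rw [L2.inner_def]
      apply integral_congr_ae
      filter_upwards [(divW_memLp x hr).coeFn_toLp] with z hz
      rw [hz]
      simp [hu]
    rw [h1, ibp hpH x hr, abs_mul, abs_neg, abs_of_nonneg (by positivity)]
    calc (r ^ n)⁻¹ * r * |⟪p.2, (W_memLp x hr).toLp (W x r)⟫|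
        ≤ (r ^ n)⁻¹ * r * (K * (r ^ (n - 1) / Real.sqrt r)) :=
          mul_le_mul_of_nonneg_left (hW x r hr hrr₀ hball) (by positivity)
      _ = K / Real.sqrt r := by
          have hsq : 0 < Real.sqrt r := Real.sqrt_pos.2 hr
          have e1 : r ^ n = r ^ (n - 1) * r := by
            rw [← pow_succ]; congr 1; omega
          rw [e1]
          field_simp
  have hdiff : ∀ x ρ, ρ ≤ r₀ → (∀ r, r < ρ → closedBall x r ⊆ D) → ∀ a b, 0 < a → a ≤ b →
      b < ρ → |FF u x b - FF u x a| ≤ 2 * K * Real.sqrt b := by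
    intro x ρ hρ hball a b ha hab hb
    exact diff_bound hK (f' := fun r => (r ^ n)⁻¹ * r * ∫ z, divW x r z * u z)
      (fun r hr _ => hasDerivAt_FF hui x hr)
      (fun r hr hrρ => hder x r hr (hrρ.trans_le hρ) (hball r hrρ)) ha hab hb
  -- radius at x
  have hrad : ∀ x ∈ D, ∃ ρ, 0 < ρ ∧ ρ ≤ r₀ ∧ ∀ y ∈ ball x ρ, ∀ r, r < ρ → closedBall y r ⊆ D := by
    intro x hx
    obtain ⟨δ, hδ, hball⟩ := Metric.isOpen_iff.1 hDo x hx
    refine ⟨min r₀ (δ / 2), by positivity, min_le_left _ _, ?_⟩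
    intro y hy r hr z hz
    apply hball
    rw [mem_ball] at hy ⊢
    rw [mem_closedBall] at hz
    have h1 : min r₀ (δ / 2) ≤ δ / 2 := min_le_right _ _
    have := dist_triangle z y x
    linarith
  -- pointwise limits
  have hlimex : ∀ x ∈ D, ∃ L, Tendsto (FF u x) (𝓝[>] 0) (𝓝 L) := by
    intro x hx
    obtain ⟨ρ, hρ, hρr, hball⟩ := hrad x hx
    have hball' := hball x (mem_ball_self hρ)
    have hcau : Cauchy (map (FF u x) (𝓝[>] (0:ℝ))) := by
      rw [Metric.cauchy_iff]
      refine ⟨inferInstance, ?_⟩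
      intro e he
      obtain ⟨δ, hδ, hδρ, hδe⟩ : ∃ δ, 0 < δ ∧ δ ≤ ρ ∧ 2 * (2 * K * Real.sqrt δ) < e := by
        have hcont : Continuous fun δ : ℝ => 2 * (2 * K * Real.sqrt δ) := by fun_prop
        have h0 : Tendsto (fun δ : ℝ => 2 * (2 * K * Real.sqrt δ)) (𝓝[>] 0) (𝓝 0) := by
          have := hcont.tendsto 0
          simp only [Real.sqrt_zero, mul_zero] at this
          exact this.mono_left nhdsWithin_le_nhds
        have h1 := (h0.eventually (gt_mem_nhds he)).and (Ioc_mem_nhdsGT hρ)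
        obtain ⟨δ, h2, h3⟩ := h1.exists
        exact ⟨δ, h3.1, h3.2, h2⟩
      refine ⟨FF u x '' Ioo 0 δ, image_mem_map (Ioo_mem_nhdsGT hδ), ?_⟩
      rintro _ ⟨a, ha, rfl⟩ _ ⟨b, hb, rfl⟩
      set m := min a b with hm
      have hm0 : 0 < m := lt_min ha.1 hb.1
      have h1 := hdiff x ρ hρr hball' m a hm0 (min_le_left _ _) (ha.2.trans_le hδρ)
      have h2 := hdiff x ρ hρr hball' m b hm0 (min_le_right _ _) (hb.2.trans_le hδρ)
      have h3 : Real.sqrt a ≤ Real.sqrt δ := Real.sqrt_le_sqrt ha.2.le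
      have h4 : Real.sqrt b ≤ Real.sqrt δ := Real.sqrt_le_sqrt hb.2.le
      rw [Real.dist_eq]
      have h5 : |FF u x a - FF u x b| ≤ |FF u x a - FF u x m| + |FF u x b - FF u x m| := by
        have := abs_sub_le (FF u x a) (FF u x m) (FF u x b)
        rw [abs_sub_comm (FF u x m) (FF u x b)] at this
        exact this
      have h6 : 2 * K * Real.sqrt a ≤ 2 * K * Real.sqrt δ :=
        mul_le_mul_of_nonneg_left h3 (by positivity)
      have h7 : 2 * K * Real.sqrt b ≤ 2 * K * Real.sqrt δ :=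
        mul_le_mul_of_nonneg_left h4 (by positivity)
      linarith
    exact cauchy_iff_exists_le_nhds.1 hcau
  choose! V hV using hlimex
  have hVle : ∀ x ∈ D, ∀ ρ, ρ ≤ r₀ → (∀ r, r < ρ → closedBall x r ⊆ D) → ∀ b, 0 < b → b < ρ →
      |FF u x b - V x| ≤ 2 * K * Real.sqrt b := by
    intro x hx ρ hρ hball b hb hbρ
    have h1 : Tendsto (fun a => |FF u x b - FF u x a|) (𝓝[>] 0) (𝓝 |FF u x b - V x|) :=
      (tendsto_const_nhds.sub (hV x hx)).abs
    apply le_of_tendsto h1
    filter_upwards [Ioc_mem_nhdsGT hb] with a ha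
    exact hdiff x ρ hρ hball a b ha.1 ha.2 hbρ
  refine ⟨fun x => (c0 n)⁻¹ * V x, ?_, ?_⟩
  · apply ContinuousOn.mul continuousOn_const
    intro x hx
    apply ContinuousAt.continuousWithinAt
    rw [Metric.continuousAt_iff]
    intro e he
    obtain ⟨ρ, hρ, hρr, hball⟩ := hrad x hx
    -- choose radius b
    obtain ⟨b, hb, hbρ, hbe⟩ : ∃ b, 0 < b ∧ b < ρ ∧ 2 * K * Real.sqrt b < e / 3 := by
      have hcont : Continuous fun δ : ℝ => (2 * K * Real.sqrt δ) := by fun_prop
      have h0 : Tendsto (fun δ : ℝ => (2 * K * Real.sqrt δ)) (𝓝[>] 0) (𝓝 0) := by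
        have := hcont.tendsto 0
        simp only [Real.sqrt_zero, mul_zero] at this
        exact this.mono_left nhdsWithin_le_nhds
      have h1 := (h0.eventually (gt_mem_nhds (show 0 < e / 3 by positivity))).and
        (Ioo_mem_nhdsGT hρ)
      obtain ⟨δ, h2, h3⟩ := h1.exists
      exact ⟨δ, h3.1, h3.2, h2⟩
    obtain ⟨δ, hδ, hδe⟩ := (Metric.continuousAt_iff.1
      (continuous_FF hui hb).continuousAt) (e / 3) (by positivity)
    refine ⟨min δ ρ, by positivity, ?_⟩
    intro y hy
    have hyδ : dist y x < δ := hy.trans_le (min_le_left _ _)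
    have hyρ : y ∈ ball x ρ := hy.trans_le (min_le_right _ _)
    have hyD : y ∈ D := hball y hyρ (b / 2) (by linarith) (mem_closedBall_self (by linarith))
    have h1 := hVle x hx ρ hρr (hball x (mem_ball_self hρ)) b hb hbρ
    have h2 := hVle y hyD ρ hρr (hball y hyρ) b hb hbρ
    have h3 := hδe hyδ
    rw [Real.dist_eq] at h3 ⊢
    have h4 : V y - V x = -(FF u y b - V y) + (FF u y b - FF u x b) + (FF u x b - V x) := by
      ring
    rw [h4]
    have h5 := abs_add_le (-(FF u y b - V y) + (FF u y b - FF u x b)) (FF u x b - V x)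
    have h6 := abs_add_le (-(FF u y b - V y)) (FF u y b - FF u x b)
    rw [abs_neg] at h6
    linarith
  · filter_upwards [tendsto_FF_ae hn hui] with x hx hxD
    have := tendsto_nhds_unique (hV x hxD) hx
    rw [this]
    field_simp

end Pool.Agent.H66.EX
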