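import Pool.Agent.H66.EX.Relax

set_option autoImplicit false

open MeasureTheory Set Filter Topology Metric
open scoped ContDiff ENNReal NNReal Pointwise RealInnerProductSpace

noncomputable section

namespace Pool.Agent.H66.EX

variable {n : ℕ}

/-- profile -/
def Qf (s : ℝ) : ℝ := expNegInvGlue (1 - s)

/-- kernel profile -/
def qf (s : ℝ) : ℝ := -2 * deriv Qf s

theorem Qf_contDiff : ContDiff ℝ ∞ Qf :=
  expNegInvGlue.contDiff.comp (contDiff_const.sub contDiff_id)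

theorem Qf_zero {s : ℝ} (hs : 1 ≤ s) : Qf s = 0 :=
  expNegInvGlue.zero_of_nonpos (by linarith)

theorem Qf_anti : Antitone Qf := by
  intro a b hab
  exact expNegInvGlue.monotone (by linarith)

theorem Qf_nonneg (s : ℝ) : 0 ≤ Qf s := expNegInvGlue.nonneg _

theorem qf_contDiff : ContDiff ℝ ∞ qf := by
  unfold qf
  apply contDiff_const.mul
  exact (contDiff_infty_iff_deriv.1 Qf_contDiff).2

theorem qf_nonneg (s : ℝ) : 0 ≤ qf s := by
  unfold qf
  have := Qf_anti.deriv_nonpos (x := s)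
  linarith

theorem qf_zero {s : ℝ} (hs : 1 ≤ s) : qf s = 0 := by
  unfold qf
  have h1 : HasDerivWithinAt Qf (deriv Qf s) (Ici s) s :=
    ((Qf_contDiff.differentiable (by simp)) s).hasDerivAt.hasDerivWithinAt
  have h2 : HasDerivWithinAt Qf 0 (Ici s) s := by
    have : HasDerivWithinAt (fun _ : ℝ => (0 : ℝ)) 0 (Ici s) s := hasDerivWithinAt_const _ _ _
    apply this.congr
    · intro x hx; exact Qf_zero (hs.trans hx)
    · exact Qf_zero hs
  have := (uniqueDiffWithinAt_Ici s).eq_deriv _ h1 h2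
  rw [this]; ring

theorem qf_deriv_zero {s : ℝ} (hs : 1 ≤ s) : deriv qf s = 0 := by
  have h1 : HasDerivWithinAt qf (deriv qf s) (Ici s) s :=
    ((qf_contDiff.differentiable (by simp)) s).hasDerivAt.hasDerivWithinAt
  have h2 : HasDerivWithinAt qf 0 (Ici s) s := by
    have : HasDerivWithinAt (fun _ : ℝ => (0 : ℝ)) 0 (Ici s) s := hasDerivWithinAt_const _ _ _
    apply this.congr
    · intro x hx; exact qf_zero (hs.trans hx)
    · exact qf_zero hs
  exact (uniqueDiffWithinAt_Ici s).eq_deriv _ h1 h2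

theorem exists_qf_pos : ∃ t ∈ Ioo (0 : ℝ) 1, 0 < qf t := by
  obtain ⟨t, ht, hd⟩ := exists_deriv_eq_slope Qf (show (0 : ℝ) < 1 by norm_num)
    Qf_contDiff.continuous.continuousOn
    (Qf_contDiff.differentiable (by simp)).differentiableOn
  refine ⟨t, ht, ?_⟩
  unfold qf
  rw [hd, Qf_zero le_rfl]
  have : 0 < Qf 0 := expNegInvGlue.pos_of_pos (by norm_num)
  norm_num
  exact this

/-- a continuous function on `[0,∞)` vanishing on `[1,∞)` is bounded there -/
theorem exists_bound {f : ℝ → ℝ} (hf : Continuous f) (h1 : ∀ s, 1 ≤ s → f s = 0) :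
    ∃ M : ℝ, 0 < M ∧ ∀ s, 0 ≤ s → |f s| ≤ M := by
  obtain ⟨M, hM⟩ := (isCompact_Icc (a := (0 : ℝ)) (b := 1)).exists_bound_of_continuousOn
    hf.continuousOn
  refine ⟨max M 1, by positivity, ?_⟩
  intro s hs
  by_cases hs1 : s ≤ 1
  · exact (hM s ⟨hs, hs1⟩).trans (le_max_left _ _)
  · rw [h1 s (by linarith)]; simp

/-- the squared scaled distance -/
def hs (x : EuclideanSpace ℝ (Fin n)) (r : ℝ) (z : EuclideanSpace ℝ (Fin n)) : ℝ :=
  ‖z - x‖ ^ 2 / r ^ 2

theorem hs_nonneg (x : EuclideanSpace ℝ (Fin n)) (r : ℝ) (z : EuclideanSpace ℝ (Fin n)) :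
    0 ≤ hs x r z := by unfold hs; positivity

theorem hs_contDiff (x : EuclideanSpace ℝ (Fin n)) (r : ℝ) : ContDiff ℝ ∞ (hs x r) := by
  unfold hs
  exact ((contDiff_norm_sq ℝ).comp (contDiff_id.sub contDiff_const)).div_const _

theorem one_le_hs {x z : EuclideanSpace ℝ (Fin n)} {r : ℝ} (hr : 0 < r) (h : r ≤ ‖z - x‖) :
    1 ≤ hs x r z := by
  unfold hs
  rw [le_div_iff₀ (by positivity), one_mul]
  exact pow_le_pow_left₀ hr.le h 2

theorem hasFDerivAt_hs (x : EuclideanSpace ℝ (Fin n)) (r : ℝ) (z : EuclideanSpace ℝ (Fin n)) :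
    HasFDerivAt (hs x r) ((2 / r ^ 2) • innerSL ℝ (z - x)) z := by
  have h1 : HasFDerivAt (fun z : EuclideanSpace ℝ (Fin n) => z - x)
      (ContinuousLinearMap.id ℝ _) z := (hasFDerivAt_id z).sub_const x
  have h2 := h1.norm_sq
  have h3 : HasFDerivAt (fun z => (r ^ 2)⁻¹ * ‖z - x‖ ^ 2)
      ((r ^ 2)⁻¹ • (2 • (innerSL ℝ (z - x)).comp (ContinuousLinearMap.id ℝ _))) z :=
    h2.const_mul _
  have h4 : hs x r = fun z => (r ^ 2)⁻¹ * ‖z - x‖ ^ 2 := by
    ext z; unfold hs; rw [div_eq_inv_mul]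
  rw [h4]
  convert h3 using 1
  ext v
  simp only [smul_apply, innerSL_apply_apply, ContinuousLinearMap.comp_id,
    smul_eq_mul, nsmul_eq_mul, Nat.cast_ofNat]
  ring

/-- potential `Ψ_{x,r}` -/
def Psi (x : EuclideanSpace ℝ (Fin n)) (r : ℝ) (z : EuclideanSpace ℝ (Fin n)) : ℝ :=
  Qf (hs x r z)

/-- its gradient -/
def W (x : EuclideanSpace ℝ (Fin n)) (r : ℝ) (z : EuclideanSpace ℝ (Fin n)) :
    EuclideanSpace ℝ (Fin n) := (-(qf (hs x r z) / r ^ 2)) • (z - x)

/-- its Laplacian -/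
def divW (x : EuclideanSpace ℝ (Fin n)) (r : ℝ) (z : EuclideanSpace ℝ (Fin n)) : ℝ :=
  -(1 / r ^ 2) * (n * qf (hs x r z) + 2 * hs x r z * deriv qf (hs x r z))

theorem Psi_contDiff (x : EuclideanSpace ℝ (Fin n)) (r : ℝ) : ContDiff ℝ ∞ (Psi x r) :=
  Qf_contDiff.comp (hs_contDiff x r)

theorem tsupport_subset_of_zero {E : Type*} [Zero E] {f : EuclideanSpace ℝ (Fin n) → E}
    {x : EuclideanSpace ℝ (Fin n)} {r : ℝ}
    (h : ∀ z, r ≤ ‖z - x‖ → f z = 0) : tsupport f ⊆ closedBall x r := by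
  apply closure_minimal _ isClosed_closedBall
  intro z hz
  rw [mem_closedBall, dist_eq_norm]
  by_contra hne
  push Not at hne
  exact hz (h z hne.le)

theorem Psi_tsupport (x : EuclideanSpace ℝ (Fin n)) {r : ℝ} (hr : 0 < r) :
    tsupport (Psi x r) ⊆ closedBall x r :=
  tsupport_subset_of_zero fun z hz => Qf_zero (one_le_hs hr hz)

theorem Psi_isTest {D : Set (EuclideanSpace ℝ (Fin n))} {x : EuclideanSpace ℝ (Fin n)} {r : ℝ}
    (hr : 0 < r) (hD : closedBall x r ⊆ D) : IsTest D (Psi x r) :=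
  ⟨Psi_contDiff x r, (isCompact_closedBall x r).of_isClosed_subset (isClosed_tsupport _)
    (Psi_tsupport x hr), (Psi_tsupport x hr).trans hD⟩

theorem hasFDerivAt_Psi (x : EuclideanSpace ℝ (Fin n)) (r : ℝ)
    (z : EuclideanSpace ℝ (Fin n)) :
    HasFDerivAt (Psi x r) (innerSL ℝ (W x r z)) z := by
  have h1 : HasDerivAt Qf (deriv Qf (hs x r z)) (hs x r z) :=
    ((Qf_contDiff.differentiable (by simp)) _).hasDerivAt
  have h2 := h1.comp_hasFDerivAt z (hasFDerivAt_hs x r z)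
  have h3 : deriv Qf (hs x r z) • (2 / r ^ 2) • innerSL ℝ (z - x) = innerSL ℝ (W x r z) := by
    unfold W qf
    rw [map_smul, smul_smul]
    congr 1
    ring
  rw [h3] at h2
  exact h2

theorem gradient_Psi (x : EuclideanSpace ℝ (Fin n)) (r : ℝ) :
    gradient (Psi x r) = W x r := by
  ext1 z
  unfold gradient
  rw [(hasFDerivAt_Psi x r z).fderiv]
  rw [LinearIsometryEquiv.symm_apply_eq]
  ext v
  simp [InnerProductSpace.toDual_apply_apply]

theorem W_norm_le {M : ℝ} (hM : ∀ s, 0 ≤ s → |qf s| ≤ M) (x : EuclideanSpace ℝ (Fin n))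
    {r : ℝ} (hr : 0 < r) (z : EuclideanSpace ℝ (Fin n)) :
    ‖W x r z‖ ≤ M / r := by
  have hM0 : 0 ≤ M := (abs_nonneg _).trans (hM 0 le_rfl)
  by_cases hz : r ≤ ‖z - x‖
  · unfold W
    rw [qf_zero (one_le_hs hr hz)]
    simp; positivity
  · push Not at hz
    unfold W
    rw [norm_smul, norm_neg, norm_div, Real.norm_eq_abs, Real.norm_of_nonneg (by positivity)]
    calc |qf (hs x r z)| / r ^ 2 * ‖z - x‖ ≤ M / r ^ 2 * r := by
          gcongr
          exact hM _ (hs_nonneg _ _ _)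
      _ = M / r := by field_simp

/-- the mollifying kernel -/
def kr (x : EuclideanSpace ℝ (Fin n)) (r : ℝ) (z : EuclideanSpace ℝ (Fin n)) : ℝ :=
  (r ^ n)⁻¹ * qf (hs x r z)

theorem hasDerivAt_kr (x : EuclideanSpace ℝ (Fin n)) {r : ℝ} (hr : 0 < r)
    (z : EuclideanSpace ℝ (Fin n)) :
    HasDerivAt (fun r => kr x r z) ((r ^ n)⁻¹ * r * divW x r z) r := by
  unfold kr
  have h1 : HasDerivAt (fun r : ℝ => (r ^ n)⁻¹) (-(n * r ^ (n - 1)) / (r ^ n) ^ 2) r :=
    (hasDerivAt_pow n r).inv (by positivity)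
  have h2 : HasDerivAt (fun r : ℝ => hs x r z) (-(2 * hs x r z / r)) r := by
    unfold hs
    have h3 : HasDerivAt (fun r : ℝ => r ^ 2) (2 * r) r := by
      simpa using hasDerivAt_pow 2 r
    have h4 : HasDerivAt (fun r : ℝ => ‖z - x‖ ^ 2 * (r ^ 2)⁻¹)
        (‖z - x‖ ^ 2 * (-(2 * r) / (r ^ 2) ^ 2)) r :=
      (h3.inv (by positivity)).const_mul (‖z - x‖ ^ 2)
    have h5 : (fun r : ℝ => ‖z - x‖ ^ 2 / r ^ 2) = fun r => ‖z - x‖ ^ 2 * (r ^ 2)⁻¹ := by
      ext r; rw [div_eq_mul_inv]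
    rw [h5]
    have h6 : -(2 * (‖z - x‖ ^ 2 / r ^ 2) / r) = ‖z - x‖ ^ 2 * (-(2 * r) / (r ^ 2) ^ 2) := by
      field_simp
    rw [h6]
    exact h4
  have h6 : HasDerivAt qf (deriv qf (hs x r z)) (hs x r z) :=
    ((qf_contDiff.differentiable (by simp)) _).hasDerivAt
  have h7 : HasDerivAt (fun r => qf (hs x r z))
    (deriv qf (hs x r z) * -(2 * hs x r z / r)) r :=
    HasDerivAt.comp (h₂ := qf) (h := fun r => hs x r z) r h6 h2
  have h8 : HasDerivAt (fun r => (r ^ n)⁻¹ * qf (hs x r z))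
      (-(n * r ^ (n - 1)) / (r ^ n) ^ 2 * qf (hs x r z) + (r ^ n)⁻¹ *
        (deriv qf (hs x r z) * -(2 * hs x r z / r))) r := h1.mul h7
  have h9 : (r ^ n)⁻¹ * r * divW x r z = (-(n * r ^ (n - 1)) / (r ^ n) ^ 2 * qf (hs x r z) +
      (r ^ n)⁻¹ * (deriv qf (hs x r z) * -(2 * hs x r z / r))) := by
    have hrn : (n : ℝ) * r ^ (n - 1) = n * r ^ n / r := by
      rcases n with _ | m
      · simp
      · simp only [Nat.add_sub_cancel]
        field_simp
        rw [pow_succ]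
    rw [hrn]
    unfold divW
    field_simp
    ring
  rw [h9]
  exact h8

theorem contDiff_qfh (x : EuclideanSpace ℝ (Fin n)) (r : ℝ) :
    ContDiff ℝ ∞ (fun z => qf (hs x r z)) := qf_contDiff.comp (hs_contDiff x r)

/-- components of `W` and their derivatives -/
theorem W_contDiff (x : EuclideanSpace ℝ (Fin n)) (r : ℝ) : ContDiff ℝ ∞ (W x r) := by
  unfold W
  exact (((contDiff_qfh x r).div_const _).neg).smul (contDiff_id.sub contDiff_const)

theorem W_tsupport (x : EuclideanSpace ℝ (Fin n)) {r : ℝ} (hr : 0 < r) :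
    tsupport (W x r) ⊆ closedBall x r := by
  apply tsupport_subset_of_zero
  intro z hz
  unfold W
  rw [qf_zero (one_le_hs hr hz)]; simp

theorem W_cpt (x : EuclideanSpace ℝ (Fin n)) {r : ℝ} (hr : 0 < r) :
    HasCompactSupport (W x r) :=
  (isCompact_closedBall x r).of_isClosed_subset (isClosed_tsupport _) (W_tsupport x hr)

theorem W_comp_fderiv (x : EuclideanSpace ℝ (Fin n)) (r : ℝ) (z : EuclideanSpace ℝ (Fin n))
    (i : Fin n) :
    fderiv ℝ (fun z => W x r z i) z (EuclideanSpace.single i 1) =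
      -(1 / r ^ 2) * (deriv qf (hs x r z) * (2 / r ^ 2) * (z i - x i) ^ 2 + qf (hs x r z)) := by
  have h6 : HasDerivAt qf (deriv qf (hs x r z)) (hs x r z) :=
    ((qf_contDiff.differentiable (by simp)) _).hasDerivAt
  have h7 := h6.comp_hasFDerivAt z (hasFDerivAt_hs x r z)
  have h8 : HasFDerivAt (fun z : EuclideanSpace ℝ (Fin n) => z i - x i)
      (EuclideanSpace.proj i : EuclideanSpace ℝ (Fin n) →L[ℝ] ℝ) z :=
    ((EuclideanSpace.proj i : EuclideanSpace ℝ (Fin n) →L[ℝ] ℝ).hasFDerivAt).sub_const _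
  have h9 : HasFDerivAt (fun z => -(1 / r ^ 2) * ((qf ∘ hs x r) z * (z i - x i)))
      (-(1 / r ^ 2) •
      ((qf ∘ hs x r) z • (EuclideanSpace.proj i : EuclideanSpace ℝ (Fin n) →L[ℝ] ℝ) +
        (z i - x i) • deriv qf (hs x r z) • (2 / r ^ 2) • (innerSL ℝ) (z - x))) z :=
    (h7.mul h8).const_mul (-(1 / r ^ 2))
  have h10 : (fun z => W x r z i) = fun z => -(1 / r ^ 2) * ((qf ∘ hs x r) z * (z i - x i)) := by
    ext z
    unfold W
    simp only [PiLp.smul_apply, PiLp.sub_apply, smul_eq_mul, Function.comp_apply]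
    ring
  rw [h10, h9.fderiv]
  simp only [smul_apply, add_apply,
    innerSL_apply_apply, smul_eq_mul, Function.comp_apply]
  have h11 : (EuclideanSpace.proj i : EuclideanSpace ℝ (Fin n) →L[ℝ] ℝ)
      (EuclideanSpace.single i 1) = 1 := by simp
  have h12 : ⟪z - x, EuclideanSpace.single i (1:ℝ)⟫ = z i - x i := by
    rw [EuclideanSpace.inner_single_right]; simp
  rw [h11, h12]
  ring

theorem sum_W_comp (x : EuclideanSpace ℝ (Fin n)) (r : ℝ) (z : EuclideanSpace ℝ (Fin n)) :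
    ∑ i, fderiv ℝ (fun z => W x r z i) z (EuclideanSpace.single i 1) = divW x r z := by
  simp only [W_comp_fderiv]
  rw [← Finset.mul_sum, Finset.sum_add_distrib, ← Finset.mul_sum]
  unfold divW
  have h1 : ∑ i, (z i - x i) ^ 2 = ‖z - x‖ ^ 2 := by
    rw [EuclideanSpace.norm_sq_eq]
    simp
  rw [h1]
  simp only [Finset.sum_const, Finset.card_univ, Fintype.card_fin, nsmul_eq_mul]
  unfold hs
  congr 1
  ring

end Pool.Agent.H66.EX
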