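import Pool.Agent.H66.EX.Trunc

set_option autoImplicit false

open MeasureTheory Set Filter Topology Metric
open scoped ContDiff ENNReal NNReal Pointwise RealInnerProductSpace Manifold

noncomputable section

namespace Pool.Agent.H66.EX

variable {n : ℕ}

theorem vmul_memLp {X : EuclideanSpace ℝ (Fin n) → EuclideanSpace ℝ (Fin n)}
    (hX : Continuous X) {M : ℝ} (hM : ∀ x, ‖X x‖ ≤ M) (f : E2 n) :
    MemLp (fun x => (f : EuclideanSpace ℝ (Fin n) → ℝ) x • X x) 2 volume := by
  apply (Lp.memLp f).of_le_mul (c := M) ((Lp.aestronglyMeasurable f).smul hX.aestronglyMeasurable)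
  refine Eventually.of_forall fun x => ?_
  show ‖(f : EuclideanSpace ℝ (Fin n) → ℝ) x • X x‖ ≤ _
  rw [norm_smul, mul_comm]
  exact mul_le_mul_of_nonneg_right (hM x) (norm_nonneg _)

theorem tendsto_vmul {X : EuclideanSpace ℝ (Fin n) → EuclideanSpace ℝ (Fin n)}
    (hX : Continuous X) {M : ℝ} (hM0 : 0 ≤ M) (hM : ∀ x, ‖X x‖ ≤ M) {f : ℕ → E2 n} {g : E2 n}
    (hf : Tendsto f atTop (𝓝 g)) :
    Tendsto (fun l => (vmul_memLp hX hM (f l)).toLp _) atTop
      (𝓝 ((vmul_memLp hX hM g).toLp _)) := by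
  rw [tendsto_iff_norm_sub_tendsto_zero]
  have h7 : Tendsto (fun l => M * ‖f l - g‖) atTop (𝓝 0) := by
    have := (tendsto_iff_norm_sub_tendsto_zero.1 hf).const_mul M
    rwa [mul_zero] at this
  refine squeeze_zero (fun l => norm_nonneg _) (fun l => ?_) h7
  rw [← MemLp.toLp_sub]
  apply abs_le_of_sq_le_sq' _ (by positivity) |>.2
  rw [toLp_norm_sq, mul_pow, Lp_norm_sq, ← integral_const_mul]
  apply integral_mono_ae
  · exact (((vmul_memLp hX hM (f l)).sub
      (vmul_memLp hX hM g)).integrable_norm_pow (by norm_num))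
  · exact ((Lp.memLp (f l - g)).integrable_norm_pow (by norm_num)).const_mul _
  · filter_upwards [Lp.coeFn_sub (f l) g] with x hx
    rw [hx]
    simp only [Pi.sub_apply]
    rw [← sub_smul, norm_smul, mul_pow, mul_comm]
    have := hM x
    gcongr

/-- localisation -/
theorem localize {D Ω : Set (EuclideanSpace ℝ (Fin n))} (hΩ : IsOpen Ω)
    {K : Set (EuclideanSpace ℝ (Fin n))} (hK : IsCompact K) (hKΩ : K ⊆ Ω) {p : E2 n × G2 n}
    (hp : p ∈ HD D)
    (h1 : ∀ᵐ x, x ∉ K → (p.1 : EuclideanSpace ℝ (Fin n) → ℝ) x = 0)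
    (h2 : ∀ᵐ x, x ∉ K → (p.2 : EuclideanSpace ℝ (Fin n) → EuclideanSpace ℝ (Fin n)) x = 0) :
    p ∈ HD Ω := by
  obtain ⟨K', hK', hKK', hK'Ω⟩ := exists_compact_between hK hΩ hKΩ
  obtain ⟨χ, hχ1, hχ0, hχI⟩ := exists_contMDiffMap_one_nhds_of_subset_interior
    (I := 𝓘(ℝ, EuclideanSpace ℝ (Fin n))) (n := (⊤ : ℕ∞)) hK.isClosed hKK'
  have hχs : ContDiff ℝ ∞ (χ : EuclideanSpace ℝ (Fin n) → ℝ) := χ.contMDiff.contDiff
  have hχsupp : tsupport (χ : EuclideanSpace ℝ (Fin n) → ℝ) ⊆ K' := by
    apply closure_minimal _ hK'.isClosed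
    intro x hx
    by_contra hne
    exact hx (hχ0 x hne)
  have hχt : IsTest Ω (χ : EuclideanSpace ℝ (Fin n) → ℝ) :=
    ⟨hχs, hK'.of_isClosed_subset (isClosed_tsupport _) hχsupp, hχsupp.trans hK'Ω⟩
  have hχb : ∀ x, |χ x| ≤ 1 := by
    intro x
    rw [abs_of_nonneg (hχI x).1]; exact (hχI x).2
  obtain ⟨M, hM⟩ := hχt.cpt_gradient.exists_bound_of_continuous hχt.continuous_gradient
  have hM0 : 0 ≤ M := (norm_nonneg _).trans (hM 0)
  obtain ⟨φ, hφ⟩ := exists_seq hp
  have hφ1 : Tendsto (fun m => (J D (φ m)).1) atTop (𝓝 p.1) :=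
    (continuous_fst.tendsto _).comp hφ
  have hφ2 : Tendsto (fun m => (J D (φ m)).2) atTop (𝓝 p.2) :=
    (continuous_snd.tendsto _).comp hφ
  have hψt : ∀ m, IsTest Ω (fun x => χ x * (φ m).1 x) := fun m =>
    hχt.mul_smooth (mem_testSub.1 (φ m).2).smooth
  have hgrad : ∀ m x, gradient (fun x => χ x * (φ m).1 x) x =
      χ x • gradient (φ m).1 x + (φ m).1 x • gradient χ x := by
    intro m x
    have hd : HasFDerivAt (fun x => χ x * (φ m).1 x)
        (χ x • fderiv ℝ (φ m).1 x + (φ m).1 x • fderiv ℝ χ x) x :=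
      ((hχt.differentiable x).hasFDerivAt).mul
        (((mem_testSub.1 (φ m).2).differentiable x).hasFDerivAt)
    unfold gradient
    rw [hd.fderiv]
    simp only [map_add, map_smul]
  have hχm : AEStronglyMeasurable (χ : EuclideanSpace ℝ (Fin n) → ℝ) volume :=
    hχt.continuous.aestronglyMeasurable
  have c1 := tendsto_mulLp (a := fun _ : ℕ => (χ : EuclideanSpace ℝ (Fin n) → ℝ)) (b := χ)
    (fun _ => hχm) hχm (K := 1) (fun _ => hχb) hχb
    (Eventually.of_forall fun x => tendsto_const_nhds) hφ1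
  have c2 := tendsto_mulLp (a := fun _ : ℕ => (χ : EuclideanSpace ℝ (Fin n) → ℝ)) (b := χ)
    (fun _ => hχm) hχm (K := 1) (fun _ => hχb) hχb
    (Eventually.of_forall fun x => tendsto_const_nhds) hφ2
  have c3 := tendsto_vmul hχt.continuous_gradient hM0 hM hφ1
  have c4 := c1.prodMk_nhds (c2.add c3)
  -- identify the limit
  have hlim : (((mul_memLp hχm hχb p.1).toLp (fun x => χ x • (p.1 : _ → ℝ) x)),
      (mul_memLp hχm hχb p.2).toLp (fun x => χ x • (p.2 : _ → EuclideanSpace ℝ (Fin n)) x) +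
      (vmul_memLp hχt.continuous_gradient hM p.1).toLp _) = p := by
    have hK1 : ∀ x ∈ K, χ x = 1 := fun x hx => hχ1.self_of_nhdsSet x hx
    have hK2 : ∀ x ∈ K, gradient χ x = 0 := by
      intro x hx
      have h3 : (χ : EuclideanSpace ℝ (Fin n) → ℝ) =ᶠ[𝓝 x] fun _ => (1 : ℝ) :=
        (eventually_nhdsSet_iff_forall.1 hχ1) x hx
      unfold gradient
      rw [h3.fderiv_eq]
      simp
    apply Prod.ext
    · simp only
      ext1
      filter_upwards [(mul_memLp hχm hχb p.1).coeFn_toLp, h1] with x hx hx1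
      rw [hx]
      by_cases hxK : x ∈ K
      · rw [hK1 x hxK, one_smul]
      · rw [hx1 hxK, smul_zero]
    · simp only
      ext1
      filter_upwards [(mul_memLp hχm hχb p.2).coeFn_toLp,
        (vmul_memLp hχt.continuous_gradient hM p.1).coeFn_toLp, h1, h2,
        Lp.coeFn_add ((mul_memLp hχm hχb p.2).toLp _)
          ((vmul_memLp hχt.continuous_gradient hM p.1).toLp _)] with x hx1 hx2 hx3 hx4 hx5
      rw [hx5, Pi.add_apply, hx1, hx2]
      by_cases hxK : x ∈ K
      · rw [hK1 x hxK, one_smul, hK2 x hxK, smul_zero, add_zero]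
      · rw [hx4 hxK, smul_zero, hx3 hxK, zero_smul, add_zero]
  rw [hlim] at c4
  apply (isClosed_HD Ω).mem_of_tendsto c4
  refine Eventually.of_forall fun m => ?_
  have hJ : (((mul_memLp hχm hχb (J D (φ m)).1).toLp
      (fun x => χ x • ((J D (φ m)).1 : _ → ℝ) x)),
      (mul_memLp hχm hχb (J D (φ m)).2).toLp
        (fun x => χ x • ((J D (φ m)).2 : _ → EuclideanSpace ℝ (Fin n)) x) +
      (vmul_memLp hχt.continuous_gradient hM (J D (φ m)).1).toLp _) =
      J Ω ⟨fun x => χ x * (φ m).1 x, mem_testSub.2 (hψt m)⟩ := by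
    apply Prod.ext
    · show _ = MemLp.toLp (fun x => χ x * (φ m).1 x) (hψt m).memLp
      simp only
      apply MemLp.toLp_congr
      filter_upwards [J_fst_coe (φ m)] with x hx
      rw [hx]; rfl
    · show _ = MemLp.toLp (gradient (fun x => χ x * (φ m).1 x)) (hψt m).memLp_gradient
      simp only
      rw [← MemLp.toLp_add]
      apply MemLp.toLp_congr
      filter_upwards [J_fst_coe (φ m), J_snd_coe (φ m)] with x hx1 hx2
      simp only [Pi.add_apply]
      rw [hx1, hx2, hgrad m x]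
  rw [hJ]
  exact J_mem _

/-- the positivity set of a continuous minimizer carries the same energy. -/
theorem exists_HD_positivity {D : Set (EuclideanSpace ℝ (Fin n))}
    (hDo : IsOpen D) {p : E2 n × G2 n} (hp : p ∈ HD D) {U : EuclideanSpace ℝ (Fin n) → ℝ}
    (hU : ContinuousOn U D)
    (hpU : ∀ᵐ x, x ∈ D → (p.1 : EuclideanSpace ℝ (Fin n) → ℝ) x = U x) :
    ∃ q ∈ HD {x ∈ D | U x ≠ 0}, q.1 = p.1 ∧ ‖q.2‖ ≤ ‖p.2‖ := by
  obtain ⟨C, hC0, hC1, hC2⟩ := exists_cut_deriv_bound
  set Ω : Set (EuclideanSpace ℝ (Fin n)) := {x ∈ D | U x ≠ 0} with hΩdef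
  have hΩmem : ∀ x, x ∈ Ω ↔ x ∈ D ∧ U x ≠ 0 := by
    intro x; rw [hΩdef, Set.mem_ofPred_eq]
  have hΩo : IsOpen Ω := by
    have : Ω = D ∩ U ⁻¹' {0}ᶜ := by
      ext x; rw [hΩmem]; rfl
    rw [this]
    exact hU.isOpen_inter_preimage hDo isOpen_compl_singleton
  -- good sequence
  obtain ⟨φ, hφ, hφae⟩ : ∃ φ : ℕ → testSub D, Tendsto (fun m => J D (φ m)) atTop (𝓝 p) ∧
      ∀ᵐ x, Tendsto (fun l => ((J D (φ l)).1 : EuclideanSpace ℝ (Fin n) → ℝ) x) atTop
        (𝓝 ((p.1 : EuclideanSpace ℝ (Fin n) → ℝ) x)) := by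
    obtain ⟨φ, hφ⟩ := exists_seq hp
    have h1 : Tendsto (fun m => (J D (φ m)).1) atTop (𝓝 p.1) :=
      (continuous_fst.tendsto _).comp hφ
    obtain ⟨ns, hns, hns2⟩ := (tendstoInMeasure_of_tendsto_Lp h1).exists_seq_tendsto_ae
    exact ⟨fun m => φ (ns m), hφ.comp hns.tendsto_atTop, hns2⟩
  have hpc : ∀ q : E2 n × G2 n, ∀ᵐ x, Tendsto
      (fun _ : ℕ => (q.1 : EuclideanSpace ℝ (Fin n) → ℝ) x) atTop
      (𝓝 ((q.1 : EuclideanSpace ℝ (Fin n) → ℝ) x)) :=
    fun q => Eventually.of_forall fun x => tendsto_const_nhds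
  -- step 1
  have step : ∀ {k : ℝ} (hk : 0 < k), PG hC1 hk p p ∈ HD Ω := by
    intro k hk
    have s2 : ∀ m, PG hC1 hk (J D (φ m)) p ∈ HD D := by
      intro m
      have h1 := tendsto_PG hC1 hk (p := fun _ => J D (φ m)) (q := fun l => J D (φ l))
        tendsto_const_nhds hφ (hpc _) hφae
      apply (isClosed_HD D).mem_of_tendsto h1
      refine Eventually.of_forall fun l => ?_
      rw [PG_J]
      exact J_mem _
    have s3 : ∀ m, PG hC1 hk (J D (φ m)) p ∈ HD Ω := by
      intro m
      have hφm := mem_testSub.1 (φ m).2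
      set K : Set (EuclideanSpace ℝ (Fin n)) :=
        tsupport (φ m).1 ∩ U ⁻¹' {t | 1 / k ≤ |t|} with hKdef
      have hKmem : ∀ x, x ∈ K ↔ x ∈ tsupport (φ m).1 ∧ 1 / k ≤ |U x| := by
        intro x; rw [hKdef, mem_inter_iff, mem_preimage, Set.mem_ofPred_eq]
      have hKc : IsCompact K := by
        apply hφm.cpt.isCompact.of_isClosed_subset _ inter_subset_left
        apply (hU.mono hφm.supp).preimage_isClosed_of_isClosed (isClosed_tsupport _)
        exact isClosed_le continuous_const continuous_abs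
      have hKΩ : K ⊆ Ω := by
        intro x hx
        rw [hKmem] at hx
        rw [hΩmem]
        refine ⟨hφm.supp hx.1, ?_⟩
        intro h0
        rw [h0, abs_zero] at hx
        have : 0 < 1 / k := by positivity
        linarith [hx.2]
      -- vanishing of coefficients off K
      have hoff : ∀ᵐ x, x ∉ K → ((φ m).1 x = 0 ∧ gradient (φ m).1 x = 0) ∨
          (|k * (p.1 : EuclideanSpace ℝ (Fin n) → ℝ) x| < 1) := by
        filter_upwards [hpU] with x hx hxK
        by_cases hxs : x ∈ tsupport (φ m).1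
        · right
          rw [hx (hφm.supp hxs)]
          rw [hKmem] at hxK
          push Not at hxK
          have h3 := hxK hxs
          rw [abs_mul, abs_of_pos hk]
          calc k * |U x| < k * (1 / k) := by gcongr
            _ = 1 := by field_simp
        · left
          refine ⟨image_eq_zero_of_notMem_tsupport hxs, ?_⟩
          have h3 : fderiv ℝ (φ m).1 x = 0 := by
            have := support_fderiv_subset ℝ (f := (φ m).1)
            by_contra hne
            exact hxs (this hne)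
          unfold gradient
          rw [h3]; simp
      apply localize hΩo hKc hKΩ (s2 m)
      · unfold PG
        simp only
        filter_upwards [MemLp.coeFn_toLp (mul_memLp (comp_aesm (continuous_sk k)
          (Lp.aestronglyMeasurable (J D (φ m)).1) (Lp.aestronglyMeasurable p.1))
          (fun _ => sk_abs_le k _ _) (J D (φ m)).1), hoff, J_fst_coe (φ m)] with x hx hx2 hx3 hxK
        rw [hx, hx3]
        rcases hx2 hxK with h | h
        · rw [h.1, smul_zero]
        · unfold sk
          rw [cut_zero h.le, mul_zero, zero_smul]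
      · unfold PG
        simp only
        filter_upwards [MemLp.coeFn_toLp (mul_memLp (comp_aesm (continuous_A1 k)
          (Lp.aestronglyMeasurable (J D (φ m)).1) (Lp.aestronglyMeasurable p.1))
          (fun _ => A1_abs_le k _ _) (J D (φ m)).2),
          MemLp.coeFn_toLp (mul_memLp (comp_aesm (continuous_B1 k)
          (Lp.aestronglyMeasurable (J D (φ m)).1) (Lp.aestronglyMeasurable p.1))
          (fun _ => B1_abs_le hC1 hk _ _) p.2),
          Lp.coeFn_add (MemLp.toLp _ (mul_memLp (comp_aesm (continuous_A1 k)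
          (Lp.aestronglyMeasurable (J D (φ m)).1) (Lp.aestronglyMeasurable p.1))
          (fun _ => A1_abs_le k _ _) (J D (φ m)).2))
          (MemLp.toLp _ (mul_memLp (comp_aesm (continuous_B1 k)
          (Lp.aestronglyMeasurable (J D (φ m)).1) (Lp.aestronglyMeasurable p.1))
          (fun _ => B1_abs_le hC1 hk _ _) p.2)),
          hoff, J_fst_coe (φ m), J_snd_coe (φ m)] with x hx1 hx1' hx1'' hx2 hx3 hx4 hxK
        rw [hx1'', Pi.add_apply, hx1, hx1', hx3, hx4]
        rcases hx2 hxK with h | h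
        · rw [h.2, smul_zero, h.1]
          unfold B1
          simp
        · unfold A1 B1
          rw [cut_zero h.le, cut_deriv_zero_of_lt h]
          simp
    have h1 := tendsto_PG hC1 hk (p := fun m => J D (φ m)) (q := fun _ => p)
        hφ tendsto_const_nhds hφae (hpc _)
    exact (isClosed_HD Ω).mem_of_tendsto h1 (Eventually.of_forall s3)
  -- step 2 : k → ∞
  classical
  set b : EuclideanSpace ℝ (Fin n) → ℝ := fun x =>
    if (p.1 : EuclideanSpace ℝ (Fin n) → ℝ) x = 0 then 0 else 1 with hb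
  have hbK : ∀ x, |b x| ≤ 1 := by
    intro x; rw [hb]; simp only; split_ifs <;> simp
  have hbK' : ∀ x, |b x| ≤ 1 + C := fun x => (hbK x).trans (by linarith)
  have hbm : AEStronglyMeasurable b volume := by
    apply Measurable.aestronglyMeasurable
    apply Measurable.ite _ measurable_const measurable_const
    exact (Lp.stronglyMeasurable p.1).measurable (measurableSet_singleton (0:ℝ))
  have hkl : ∀ l : ℕ, (0 : ℝ) < (l : ℝ) + 1 := fun l => by positivity
  have hktend : Tendsto (fun l : ℕ => (l : ℝ) + 1) atTop atTop :=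
    tendsto_natCast_atTop_atTop.atTop_add tendsto_const_nhds
  -- pointwise limits
  have hpt : ∀ a : ℝ, a ≠ 0 → (Tendsto (fun l : ℕ => sk ((l : ℝ) + 1) a a) atTop (𝓝 1)) ∧
      (Tendsto (fun l : ℕ => A1 ((l : ℝ) + 1) a a + B1 ((l : ℝ) + 1) a a) atTop (𝓝 1)) := by
    intro a ha
    have h1 : Tendsto (fun l : ℕ => a / ((l : ℝ) + 1)) atTop (𝓝 0) :=
      hktend.const_div_atTop a
    have h2 : ∀ᶠ l : ℕ in atTop, 2 < |((l : ℝ) + 1) * a| := by
      have : Tendsto (fun l : ℕ => ((l : ℝ) + 1) * |a|) atTop atTop :=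
        hktend.atTop_mul_const (abs_pos.2 ha)
      filter_upwards [this.eventually_gt_atTop 2] with l hl
      rw [abs_mul, abs_of_pos (hkl l)]; exact hl
    constructor
    · have h3 : Tendsto (fun l : ℕ => Real.sinc (a / ((l : ℝ) + 1))) atTop (𝓝 1) := by
        have := (Real.continuous_sinc.tendsto 0).comp h1
        rwa [Real.sinc_zero] at this
      refine h3.congr' ?_
      filter_upwards [h2] with l hl
      unfold sk
      rw [cut_one hl.le, mul_one]
    · have h3 : Tendsto (fun l : ℕ => Real.cos (a / ((l : ℝ) + 1))) atTop (𝓝 1) := by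
        have := (Real.continuous_cos.tendsto 0).comp h1
        rwa [Real.cos_zero] at this
      refine h3.congr' ?_
      filter_upwards [h2] with l hl
      unfold A1 B1
      rw [cut_one hl.le, mul_one, cut_deriv_zero_of_gt hl]
      ring
  have hB1 : ∀ k : ℝ, 0 < k → ∀ a, |B1 k a a| ≤ C := by
    intro k hk a
    unfold B1
    have h1 : |k * Real.sin (a / k)| ≤ |a| := by
      rw [abs_mul, abs_of_pos hk]
      have h2 : |Real.sin (a / k)| ≤ |a / k| := Real.abs_sin_le_abs
      calc k * |Real.sin (a / k)| ≤ k * |a / k| := by gcongr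
        _ = |a| := by rw [abs_div, abs_of_pos hk]; field_simp
    rw [abs_mul]
    calc |k * Real.sin (a / k)| * |k * deriv cut (k * a)| ≤ |a| * |k * deriv cut (k * a)| := by
          gcongr
      _ = |(k * a) * deriv cut (k * a)| := by rw [← abs_mul]; congr 1; ring
      _ ≤ C := hC2 _
  have hm : ∀ F : ℝ × ℝ → ℝ, Continuous F →
      AEStronglyMeasurable (fun x => F ((p.1 : EuclideanSpace ℝ (Fin n) → ℝ) x,
        (p.1 : EuclideanSpace ℝ (Fin n) → ℝ) x)) volume := fun F hF =>
    comp_aesm hF (Lp.aestronglyMeasurable p.1) (Lp.aestronglyMeasurable p.1)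
  have d1 := tendsto_mulLp (μ := (volume : Measure (EuclideanSpace ℝ (Fin n))))
    (a := fun (l : ℕ) x => sk ((l : ℝ) + 1) ((p.1 : EuclideanSpace ℝ (Fin n) → ℝ) x)
      ((p.1 : EuclideanSpace ℝ (Fin n) → ℝ) x)) (b := b)
    (fun l => hm _ (continuous_sk _)) hbm
    (K := 1) (fun l x => sk_abs_le _ _ _) hbK
    (by
      refine Eventually.of_forall fun x => ?_
      by_cases h0 : (p.1 : EuclideanSpace ℝ (Fin n) → ℝ) x = 0
      · have e1 : b x = 0 := by rw [hb]; simp [h0]
        rw [e1, h0]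
        have e2 : ∀ k : ℝ, sk k 0 0 = 0 := fun k => by
          unfold sk; rw [mul_zero, cut_zero (by simp), mul_zero]
        simp only [e2]
        exact tendsto_const_nhds
      · have e1 : b x = 1 := by rw [hb]; simp [h0]
        rw [e1]
        exact (hpt _ h0).1) (tendsto_const_nhds (x := p.1))
  have hAB : ∀ (l : ℕ) (a : ℝ), |A1 ((l : ℝ) + 1) a a + B1 ((l : ℝ) + 1) a a| ≤ 1 + C := by
    intro l a
    have e1 := A1_abs_le ((l : ℝ) + 1) a a
    have e2 := hB1 _ (hkl l) a
    have e3 := abs_add_le (A1 ((l : ℝ) + 1) a a) (B1 ((l : ℝ) + 1) a a)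
    linarith
  have d2 := tendsto_mulLp (μ := (volume : Measure (EuclideanSpace ℝ (Fin n))))
    (a := fun (l : ℕ) x => A1 ((l : ℝ) + 1) ((p.1 : EuclideanSpace ℝ (Fin n) → ℝ) x)
      ((p.1 : EuclideanSpace ℝ (Fin n) → ℝ) x) +
      B1 ((l : ℝ) + 1) ((p.1 : EuclideanSpace ℝ (Fin n) → ℝ) x)
      ((p.1 : EuclideanSpace ℝ (Fin n) → ℝ) x)) (b := b)
    (fun l => (hm _ (continuous_A1 _)).add (hm _ (continuous_B1 _))) hbm
    (K := 1 + C) (fun l x => hAB l _) hbK'
    (by
      refine Eventually.of_forall fun x => ?_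
      by_cases h0 : (p.1 : EuclideanSpace ℝ (Fin n) → ℝ) x = 0
      · have e1 : b x = 0 := by rw [hb]; simp [h0]
        rw [e1, h0]
        have e2 : ∀ k : ℝ, A1 k 0 0 + B1 k 0 0 = 0 := fun k => by
          unfold A1 B1; rw [mul_zero, cut_zero (by simp)]; simp
        simp only [e2]
        exact tendsto_const_nhds
      · have e1 : b x = 1 := by rw [hb]; simp [h0]
        rw [e1]
        exact (hpt _ h0).2) (tendsto_const_nhds (x := p.2))
  have d3 := d1.prodMk_nhds d2
  refine ⟨_, (isClosed_HD Ω).mem_of_tendsto d3 (Eventually.of_forall fun l => ?_), ?_, ?_⟩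
  · have h1 := step (hkl l)
    have h2 : PG hC1 (hkl l) p p = ((mul_memLp (hm _ (continuous_sk ((l : ℝ) + 1)))
        (fun x => sk_abs_le _ _ _) p.1).toLp _,
        (mul_memLp ((hm _ (continuous_A1 ((l : ℝ) + 1))).add (hm _ (continuous_B1 _)))
          (fun x => hAB l _) p.2).toLp _) := by
      unfold PG
      apply Prod.ext
      · rfl
      · simp only
        rw [← MemLp.toLp_add]
        apply MemLp.toLp_congr
        refine Eventually.of_forall fun x => ?_
        simp only [Pi.add_apply]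
        rw [add_smul]
    rw [h2] at h1
    exact h1
  · simp only
    ext1
    filter_upwards [(mul_memLp hbm hbK p.1).coeFn_toLp] with x hx
    rw [hx, hb]
    simp only
    split_ifs with h0
    · rw [h0, smul_zero]
    · rw [one_smul]
  · simp only
    apply abs_le_of_sq_le_sq' _ (norm_nonneg _) |>.2
    rw [toLp_norm_sq, Lp_norm_sq]
    apply integral_mono
    · exact ((mul_memLp hbm hbK' p.2).integrable_norm_pow (by norm_num))
    · exact ((Lp.memLp p.2).integrable_norm_pow (by norm_num))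
    · intro x
      simp only
      rw [norm_smul, mul_pow, Real.norm_eq_abs]
      have h1 := hbK x
      have h2 : |b x| ^ 2 ≤ 1 := by
        calc |b x| ^ 2 ≤ 1 ^ 2 := pow_le_pow_left₀ (abs_nonneg _) h1 2
          _ = 1 := by norm_num
      have h3 : 0 ≤ ‖(p.2 : EuclideanSpace ℝ (Fin n) → EuclideanSpace ℝ (Fin n)) x‖ ^ 2 := by
        positivity
      nlinarith

end Pool.Agent.H66.EX
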