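import Pool.Agent.H66.EX.Cont

set_option autoImplicit false

open MeasureTheory Set Filter Topology Metric
open scoped ContDiff ENNReal NNReal Pointwise RealInnerProductSpace

noncomputable section

namespace Pool.Agent.H66.EX

variable {n : ℕ}

section mulLp

variable {α E : Type*} [MeasurableSpace α] {μ : Measure α} [NormedAddCommGroup E]
    [InnerProductSpace ℝ E]

theorem mul_memLp {a : α → ℝ} (ha : AEStronglyMeasurable a μ) {K : ℝ} (hK : ∀ x, |a x| ≤ K)
    (f : Lp E 2 μ) : MemLp (fun x => a x • f x) 2 μ := by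
  apply (Lp.memLp f).of_le_mul (c := K) (ha.smul (Lp.aestronglyMeasurable f))
  refine Eventually.of_forall fun x => ?_
  show ‖a x • (f : α → E) x‖ ≤ _
  rw [norm_smul, Real.norm_eq_abs]
  exact mul_le_mul_of_nonneg_right (hK x) (norm_nonneg _)

/-- convergence of products -/
theorem tendsto_mulLp {a : ℕ → α → ℝ} {b : α → ℝ} (ha : ∀ l, AEStronglyMeasurable (a l) μ)
    (hb : AEStronglyMeasurable b μ) {K : ℝ} (haK : ∀ l x, |a l x| ≤ K) (hbK : ∀ x, |b x| ≤ K)
    (hab : ∀ᵐ x ∂μ, Tendsto (fun l => a l x) atTop (𝓝 (b x))) {f : ℕ → Lp E 2 μ} {g : Lp E 2 μ}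
    (hf : Tendsto f atTop (𝓝 g)) :
    Tendsto (fun l => (mul_memLp (ha l) (haK l) (f l)).toLp (fun x => a l x • f l x)) atTop
      (𝓝 ((mul_memLp hb hbK g).toLp (fun x => b x • g x))) := by
  by_cases hα : Nonempty α
  swap
  · have : IsEmpty α := not_nonempty_iff.1 hα
    have h0 : ∀ q : Lp E 2 μ, q = 0 := fun q => by
      ext1
      exact Eventually.of_forall fun x => (this.false x).elim
    simp only [h0 (MemLp.toLp _ _)]
    exact tendsto_const_nhds
  obtain ⟨x0⟩ := hα
  have hK0 : 0 ≤ K := (abs_nonneg _).trans (hbK x0)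
  -- intermediate
  set c : ℕ → Lp E 2 μ := fun l => (mul_memLp (ha l) (haK l) g).toLp (fun x => a l x • g x)
    with hc
  have h1 : Tendsto c atTop (𝓝 ((mul_memLp hb hbK g).toLp (fun x => b x • g x))) := by
    rw [tendsto_iff_norm_sub_tendsto_zero]
    have h2 : Tendsto (fun l => ‖c l - (mul_memLp hb hbK g).toLp (fun x => b x • g x)‖ ^ 2) atTop
        (𝓝 0) := by
      have h3 : ∀ l, ‖c l - (mul_memLp hb hbK g).toLp (fun x => b x • g x)‖ ^ 2 =
          ∫ x, |a l x - b x| ^ 2 * ‖g x‖ ^ 2 ∂μ := by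
        intro l
        rw [hc]
        simp only
        rw [← MemLp.toLp_sub, toLp_norm_sq]
        congr 1; ext x
        simp only [Pi.sub_apply]
        rw [← sub_smul, norm_smul, mul_pow, Real.norm_eq_abs]
      simp only [h3]
      have h4 : Tendsto (fun l => ∫ x, |a l x - b x| ^ 2 * ‖g x‖ ^ 2 ∂μ) atTop
          (𝓝 (∫ _x, (0 : ℝ) ∂μ)) := by
        apply tendsto_integral_of_dominated_convergence (fun x => (2 * K) ^ 2 * ‖g x‖ ^ 2)
        · intro l
          exact (((ha l).sub hb).norm.pow 2).mul ((Lp.aestronglyMeasurable g).norm.pow 2)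
        · exact ((Lp.memLp g).integrable_norm_pow (by norm_num)).const_mul _
        · intro l
          refine Eventually.of_forall fun x => ?_
          rw [norm_mul, norm_pow, norm_pow, norm_norm, Real.norm_eq_abs, abs_abs]
          have : |a l x - b x| ≤ 2 * K := by
            have e1 := abs_sub (a l x) (b x)
            have e2 := haK l x
            have e3 := hbK x
            linarith
          gcongr
        · filter_upwards [hab] with x hx
          have e1 : Tendsto (fun l => |a l x - b x| ^ 2 * ‖g x‖ ^ 2) atTop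
              (𝓝 (|b x - b x| ^ 2 * ‖g x‖ ^ 2)) :=
            (((hx.sub_const (b x)).abs).pow 2).mul_const _
          simpa using e1
      simpa using h4
    have h5 := (Real.continuous_sqrt.tendsto _).comp h2
    rw [Real.sqrt_zero] at h5
    refine h5.congr fun l => ?_
    show Real.sqrt (‖_‖ ^ 2) = _
    exact Real.sqrt_sq (norm_nonneg _)
  have h6 : Tendsto (fun l => (mul_memLp (ha l) (haK l) (f l)).toLp (fun x => a l x • f l x) - c l)
      atTop (𝓝 0) := by
    rw [tendsto_zero_iff_norm_tendsto_zero]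
    have h7 : Tendsto (fun l => K * ‖f l - g‖) atTop (𝓝 0) := by
      have := (tendsto_iff_norm_sub_tendsto_zero.1 hf).const_mul K
      rwa [mul_zero] at this
    refine squeeze_zero (fun l => norm_nonneg _) (fun l => ?_) h7
    rw [hc]
    simp only
    rw [← MemLp.toLp_sub]
    apply abs_le_of_sq_le_sq' _ (by positivity) |>.2
    rw [toLp_norm_sq, mul_pow, Lp_norm_sq, ← integral_const_mul]
    apply integral_mono_ae
    · exact (((mul_memLp (ha l) (haK l) (f l)).sub
        (mul_memLp (ha l) (haK l) g)).integrable_norm_pow (by norm_num))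
    · exact ((Lp.memLp (f l - g)).integrable_norm_pow (by norm_num)).const_mul _
    · filter_upwards [Lp.coeFn_sub (f l) g] with x hx
      rw [hx]
      simp only [Pi.sub_apply]
      rw [← smul_sub, norm_smul, mul_pow, Real.norm_eq_abs]
      have := haK l x
      gcongr
  have h8 := h6.add h1
  rw [zero_add] at h8
  refine h8.congr fun l => ?_
  simp

end mulLp

/-- `lam1` inequality for elements of `H¹₀`. -/
theorem lam1_test {Ω : Set (EuclideanSpace ℝ (Fin n))} {φ : EuclideanSpace ℝ (Fin n) → ℝ}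
    (hφ : IsTest Ω φ) : lam1 Ω * ∫ x, (φ x) ^ 2 ≤ ∫ x, ‖fderiv ℝ φ x‖ ^ 2 := by
  set S := ∫ x, (φ x) ^ 2 with hS
  have hS0 : 0 ≤ S := integral_nonneg fun x => by positivity
  rcases hS0.eq_or_lt with h0 | hpos
  · rw [← h0, mul_zero]; exact integral_nonneg fun x => by positivity
  set c : ℝ := (Real.sqrt S)⁻¹ with hc
  have hc2 : c ^ 2 * S = 1 := by
    rw [hc, inv_pow, Real.sq_sqrt hS0, inv_mul_cancel₀ hpos.ne']
  have h1 : lam1 Ω ≤ c ^ 2 * ∫ x, ‖fderiv ℝ φ x‖ ^ 2 := by
    unfold lam1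
    apply csInf_le
    · refine ⟨0, ?_⟩
      rintro r hr
      rw [Set.mem_ofPred_eq] at hr
      obtain ⟨ψ, _, _, rfl⟩ := hr
      exact integral_nonneg fun x => by positivity
    · rw [Set.mem_ofPred_eq]
      refine ⟨fun x => c * φ x, hφ.smul c, ?_, ?_⟩
      · simp only [mul_pow]
        rw [integral_const_mul, ← hS, hc2]
      · rw [← integral_const_mul]
        congr 1; ext x
        rw [fderiv_const_mul (hφ.differentiable x), norm_smul, mul_pow, Real.norm_eq_abs, sq_abs]
  calc lam1 Ω * S ≤ (c ^ 2 * ∫ x, ‖fderiv ℝ φ x‖ ^ 2) * S := by gcongr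
    _ = (c ^ 2 * S) * ∫ x, ‖fderiv ℝ φ x‖ ^ 2 := by ring
    _ = _ := by rw [hc2, one_mul]

theorem lam1_HD {Ω : Set (EuclideanSpace ℝ (Fin n))} {q : E2 n × G2 n} (hq : q ∈ HD Ω) :
    lam1 Ω * ‖q.1‖ ^ 2 ≤ ‖q.2‖ ^ 2 := by
  obtain ⟨φ, hφ⟩ := exists_seq hq
  have h1 : Tendsto (fun m => lam1 Ω * ‖(J Ω (φ m)).1‖ ^ 2) atTop
      (𝓝 (lam1 Ω * ‖q.1‖ ^ 2)) :=
    ((((continuous_fst.tendsto _).comp hφ).norm).pow 2).const_mul _
  have h2 : Tendsto (fun m => ‖(J Ω (φ m)).2‖ ^ 2) atTop (𝓝 (‖q.2‖ ^ 2)) :=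
    (((continuous_snd.tendsto _).comp hφ).norm).pow 2
  refine le_of_tendsto_of_tendsto' h1 h2 fun m => ?_
  rw [norm_J_fst, norm_J_snd]
  exact lam1_test (mem_testSub.1 (φ m).2)

theorem HD_mono {Ω Ω' : Set (EuclideanSpace ℝ (Fin n))} (h : Ω ⊆ Ω') : HD Ω ≤ HD Ω' := by
  intro q hq
  obtain ⟨φ, hφ⟩ := exists_seq hq
  apply (isClosed_HD Ω').mem_of_tendsto hφ
  refine Eventually.of_forall fun m => ?_
  let ψ : testSub Ω' := ⟨(φ m).1, mem_testSub.2 ((mem_testSub.1 (φ m).2).mono h)⟩
  exact J_mem ψ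

/-- the relaxed value is a lower bound -/
theorem lamR_le_lam1 (hn : 0 < n) {D Ω : Set (EuclideanSpace ℝ (Fin n))} (hΩo : IsOpen Ω)
    (hΩD : Ω ⊆ D) {A : ℝ} (hA : 0 < A) (hV : volume Ω = ENNReal.ofReal A) :
    lamR D A ≤ lam1 Ω := by
  have hne : Ω.Nonempty := by
    apply nonempty_of_measure_ne_zero (μ := volume)
    rw [hV]; simp; exact hA
  unfold lam1
  apply le_csInf
  · obtain ⟨φ, hφ, _, x, hx⟩ := exists_test hΩo hne hA hn
    have hpos : 0 < ∫ x, (φ x) ^ 2 := by
      have h3 := (hφ.continuous.pow 2).integral_pos_of_hasCompactSupport_nonneg_nonzero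
        (μ := volume) (hφ.cpt.mono (fun x hx => by
          simp only [Function.mem_support] at hx ⊢
          intro h0; exact hx (by simp [h0]))) (fun y => by
            show 0 ≤ (φ y) ^ 2
            positivity) (x := x) (by
            show (φ x) ^ 2 ≠ 0
            positivity)
      exact h3
    set S := ∫ x, (φ x) ^ 2 with hS
    set c : ℝ := (Real.sqrt S)⁻¹ with hc
    refine ⟨_, fun x => c * φ x, hφ.smul c, ?_, rfl⟩
    simp only [mul_pow]
    rw [integral_const_mul, ← hS, hc, inv_pow, Real.sq_sqrt hpos.le, inv_mul_cancel₀ hpos.ne']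
  · rintro r hr
    rw [Set.mem_ofPred_eq] at hr
    obtain ⟨φ, hφ, hφ1, rfl⟩ := hr
    let ψ : testSub D := ⟨φ, mem_testSub.2 (hφ.mono hΩD)⟩
    have h1 : J D ψ ∈ Adm D A := by
      rw [mem_Adm]
      refine ⟨J_mem ψ, ?_, ?_⟩
      · have := norm_J_fst ψ
        have e : (ψ.1 : _ → ℝ) = φ := rfl
        rw [e, hφ1] at this
        have h0 := norm_nonneg (J D ψ).1
        nlinarith
      · rw [← hV]
        apply measure_mono_ae
        filter_upwards [J_fst_coe ψ] with x hx
        intro hne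
        change ((J D ψ).1 : EuclideanSpace ℝ (Fin n) → ℝ) x ≠ 0 at hne
        rw [hx] at hne
        exact hφ.supp (subset_tsupport _ hne)
    have h2 := lamR_le h1
    rw [norm_J_snd] at h2
    exact h2

end Pool.Agent.H66.EX
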