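import Pool.Agent.H66.EX.Kernel

set_option autoImplicit false

open MeasureTheory Set Filter Topology Metric
open scoped ContDiff ENNReal NNReal Pointwise RealInnerProductSpace

noncomputable section

namespace Pool.Agent.H66.EX

variable {n : ℕ}

theorem W_memLp (x : EuclideanSpace ℝ (Fin n)) {r : ℝ} (hr : 0 < r) :
    MemLp (W x r) 2 volume :=
  (W_contDiff x r).continuous.memLp_of_hasCompactSupport (W_cpt x hr)

theorem divW_zero (x : EuclideanSpace ℝ (Fin n)) {r : ℝ} (hr : 0 < r)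
    {z : EuclideanSpace ℝ (Fin n)} (hz : r ≤ ‖z - x‖) : divW x r z = 0 := by
  unfold divW
  rw [qf_zero (one_le_hs hr hz), qf_deriv_zero (one_le_hs hr hz)]
  ring

theorem divW_continuous (x : EuclideanSpace ℝ (Fin n)) (r : ℝ) : Continuous (divW x r) := by
  unfold divW
  have h1 : Continuous (hs x r) := (hs_contDiff x r).continuous
  have h2 : Continuous qf := qf_contDiff.continuous
  have h3 : Continuous (deriv qf) := (contDiff_infty_iff_deriv.1 qf_contDiff).2.continuous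
  have h4 : Continuous fun z => deriv qf (hs x r z) := h3.comp h1
  have h5 : Continuous fun z => qf (hs x r z) := h2.comp h1
  fun_prop

theorem divW_cpt (x : EuclideanSpace ℝ (Fin n)) {r : ℝ} (hr : 0 < r) :
    HasCompactSupport (divW x r) :=
  (isCompact_closedBall x r).of_isClosed_subset (isClosed_tsupport _)
    (tsupport_subset_of_zero fun _ hz => divW_zero x hr hz)

theorem divW_memLp (x : EuclideanSpace ℝ (Fin n)) {r : ℝ} (hr : 0 < r) :
    MemLp (divW x r) 2 volume :=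
  (divW_continuous x r).memLp_of_hasCompactSupport (divW_cpt x hr)

theorem gradient_apply (φ : EuclideanSpace ℝ (Fin n) → ℝ) (z : EuclideanSpace ℝ (Fin n))
    (i : Fin n) : gradient φ z i = fderiv ℝ φ z (EuclideanSpace.single i 1) := by
  have h1 : ⟪gradient φ z, EuclideanSpace.single i (1 : ℝ)⟫ =
      fderiv ℝ φ z (EuclideanSpace.single i 1) := by
    unfold gradient
    rw [InnerProductSpace.toDual_symm_apply]
  rw [← h1, EuclideanSpace.inner_single_right]; simp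

/-- integration by parts for test functions -/
theorem ibp_test {D : Set (EuclideanSpace ℝ (Fin n))} {φ : EuclideanSpace ℝ (Fin n) → ℝ}
    (hφ : IsTest D φ) (x : EuclideanSpace ℝ (Fin n)) {r : ℝ} (hr : 0 < r) :
    ∫ z, φ z * divW x r z = - ∫ z, ⟪gradient φ z, W x r z⟫ := by
  have hWc : Continuous (W x r) := (W_contDiff x r).continuous
  have hWi : ∀ i, ContDiff ℝ ∞ (fun z => W x r z i) := fun i =>
    (EuclideanSpace.proj i : EuclideanSpace ℝ (Fin n) →L[ℝ] ℝ).contDiff.comp (W_contDiff x r)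
  have hWcpt : ∀ i, HasCompactSupport (fun z => W x r z i) := fun i =>
    (W_cpt x hr).mono (fun z hz => by
      simp only [Function.mem_support] at hz ⊢
      intro h0; apply hz; rw [h0]; rfl)
  have hi1 : ∀ i, Integrable
      (fun z => φ z * fderiv ℝ (fun z => W x r z i) z (EuclideanSpace.single i 1)) := by
    intro i
    apply Continuous.integrable_of_hasCompactSupport
    · exact hφ.continuous.mul
        (((hWi i).continuous_fderiv (by simp)).clm_apply continuous_const)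
    · exact hφ.cpt.mul_right
  have hi2 : ∀ i, Integrable
      (fun z => fderiv ℝ φ z (EuclideanSpace.single i 1) * W x r z i) := by
    intro i
    apply Continuous.integrable_of_hasCompactSupport
    · exact (hφ.continuous_fderiv.clm_apply continuous_const).mul (hWi i).continuous
    · exact (hWcpt i).mul_left
  have hi3 : ∀ i, Integrable (fun z => φ z * W x r z i) := by
    intro i
    apply Continuous.integrable_of_hasCompactSupport
    · exact hφ.continuous.mul (hWi i).continuous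
    · exact hφ.cpt.mul_right
  have h1 : ∀ i, ∫ z, φ z * fderiv ℝ (fun z => W x r z i) z (EuclideanSpace.single i 1) =
      - ∫ z, fderiv ℝ φ z (EuclideanSpace.single i 1) * W x r z i := by
    intro i
    exact integral_mul_fderiv_eq_neg_fderiv_mul_of_integrable (hi2 i) (hi1 i) (hi3 i)
      (fun z _ => hφ.differentiable z)
      (fun z _ => ((hWi i).differentiable (by simp)) z)
  have h2 : ∀ z, φ z * divW x r z =
      ∑ i, φ z * fderiv ℝ (fun z => W x r z i) z (EuclideanSpace.single i 1) := by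
    intro z
    rw [← Finset.mul_sum, sum_W_comp]
  have h3 : ∀ z, ⟪gradient φ z, W x r z⟫ =
      ∑ i, fderiv ℝ φ z (EuclideanSpace.single i 1) * W x r z i := by
    intro z
    rw [PiLp.inner_apply]
    apply Finset.sum_congr rfl
    intro i _
    rw [gradient_apply]
    simp [mul_comm]
  simp only [h2, h3]
  rw [integral_finsetSum _ (fun i _ => hi1 i), integral_finsetSum _ (fun i _ => hi2 i)]
  rw [← Finset.sum_neg_distrib]
  exact Finset.sum_congr rfl fun i _ => h1 i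

/-- integration by parts in `H¹₀(D)` -/
theorem ibp {D : Set (EuclideanSpace ℝ (Fin n))} {q : E2 n × G2 n}
    (hq : q ∈ HD D) (x : EuclideanSpace ℝ (Fin n)) {r : ℝ} (hr : 0 < r) :
    ⟪q.1, (divW_memLp x hr).toLp (divW x r)⟫ = - ⟪q.2, (W_memLp x hr).toLp (W x r)⟫ := by
  obtain ⟨φ, hφ⟩ := exists_seq hq
  have h1 : Tendsto (fun m => ⟪(J D (φ m)).1, (divW_memLp x hr).toLp (divW x r)⟫) atTop
      (𝓝 ⟪q.1, (divW_memLp x hr).toLp (divW x r)⟫) :=
    ((continuous_fst.tendsto _).comp hφ).inner tendsto_const_nhds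
  have h2 : Tendsto (fun m => -⟪(J D (φ m)).2, (W_memLp x hr).toLp (W x r)⟫) atTop
      (𝓝 (-⟪q.2, (W_memLp x hr).toLp (W x r)⟫)) :=
    (((continuous_snd.tendsto _).comp hφ).inner tendsto_const_nhds).neg
  refine tendsto_nhds_unique h1 (h2.congr fun m => ?_)
  rw [L2.inner_def, L2.inner_def]
  have h3 := ibp_test (mem_testSub.1 (φ m).2) x hr
  have h4 : ∫ z, ⟪((J D (φ m)).1 : _ → ℝ) z, ((divW_memLp x hr).toLp (divW x r) : _ → ℝ) z⟫ =
      ∫ z, (φ m).1 z * divW x r z := by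
    apply integral_congr_ae
    filter_upwards [J_fst_coe (φ m), (divW_memLp x hr).coeFn_toLp] with z hz hz2
    rw [hz, hz2]
    simp [mul_comm]
  have h5 : ∫ z, ⟪((J D (φ m)).2 : _ → EuclideanSpace ℝ (Fin n)) z,
      ((W_memLp x hr).toLp (W x r) : _ → EuclideanSpace ℝ (Fin n)) z⟫ =
      ∫ z, ⟪gradient (φ m).1 z, W x r z⟫ := by
    apply integral_congr_ae
    filter_upwards [J_snd_coe (φ m), (W_memLp x hr).coeFn_toLp] with z hz hz2
    rw [hz, hz2]
  rw [h4, h5, h3]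

theorem real_aux1 {a b t : ℝ} (h : a ≤ 1 + |t| * b) (ha0 : 0 ≤ a) :
    a ^ 2 ≤ 2 + 2 * t ^ 2 * b ^ 2 := by
  have e2 := pow_le_pow_left₀ ha0 h 2
  have e3 : (|t| * b) ^ 2 = t ^ 2 * b ^ 2 := by rw [mul_pow, sq_abs]
  nlinarith [sq_nonneg (1 - |t| * b)]

theorem real_aux2 {l C' t I I' N N' S : ℝ} (hl : 0 ≤ l) (hC : 0 ≤ C')
    (h3 : S = 1 + 2 * t * I + t ^ 2 * N) (hN : 0 ≤ N)
    (h5 : S ≤ 2 + 2 * t ^ 2 * N)
    (h6 : (l - C') * S ≤ l + 2 * t * I' + t ^ 2 * N') :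
    0 ≤ 2 * t * (I' - l * I) + t ^ 2 * N' + C' * (2 + 2 * t ^ 2 * N) := by
  have h7 : C' * S ≤ C' * (2 + 2 * t ^ 2 * N) := mul_le_mul_of_nonneg_left h5 hC
  have h8 : 0 ≤ l * (t ^ 2 * N) := mul_nonneg hl (by positivity)
  have h9 : l * S = l * (1 + 2 * t * I + t ^ 2 * N) := by rw [h3]
  nlinarith

/-- the perturbation inequality -/
theorem perturb {D : Set (EuclideanSpace ℝ (Fin n))} {A : ℝ} (hA : 0 < A)
    {p : E2 n × G2 n} (hp : p ∈ Adm D A) (hmin : ‖p.2‖ ^ 2 = lamR D A) {C ε : ℝ} (hC : 0 ≤ C)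
    (hLip : ∀ η, 0 < η → η < ε → lamR D A - C * η ≤ lamR D (A + η))
    (P : testSub D) {η : ℝ} (hη : 0 < η) (hηε : η < ε)
    (hV : volume {x | P.1 x ≠ 0} ≤ ENNReal.ofReal η) (s : ℝ) :
    2 * s * |⟪p.2, (J D P).2⟫ - lamR D A * ⟪p.1, (J D P).1⟫| ≤
      s ^ 2 * ‖(J D P).2‖ ^ 2 + C * η * (2 + 2 * s ^ 2 * ‖(J D P).1‖ ^ 2) := by
  obtain ⟨hpH, hp1, hpV⟩ := mem_Adm.1 hp
  have key : ∀ t : ℝ, 0 ≤ 2 * t * (⟪p.2, (J D P).2⟫ - lamR D A * ⟪p.1, (J D P).1⟫) +
      t ^ 2 * ‖(J D P).2‖ ^ 2 + C * η * (2 + 2 * t ^ 2 * ‖(J D P).1‖ ^ 2) := by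
    intro t
    have hw : p + t • J D P ∈ HD D :=
      Submodule.add_mem _ hpH (Submodule.smul_mem _ _ (J_mem P))
    have hwV : volume {x | ((p + t • J D P).1 : EuclideanSpace ℝ (Fin n) → ℝ) x ≠ 0} ≤
        ENNReal.ofReal (A + η) := by
      rw [ENNReal.ofReal_add hA.le hη.le]
      refine le_trans ?_ (add_le_add hpV hV)
      refine le_trans (measure_mono_ae ?_) (measure_union_le _ _)
      have h1 : ((p + t • J D P).1 : EuclideanSpace ℝ (Fin n) → ℝ) =ᵐ[volume]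
          (p.1 : _ → ℝ) + (t • (J D P).1 : Lp ℝ 2 volume) := Lp.coeFn_add _ _
      have h2 : ((t • (J D P).1 : Lp ℝ 2 volume) : EuclideanSpace ℝ (Fin n) → ℝ) =ᵐ[volume]
          t • ((J D P).1 : _ → ℝ) := Lp.coeFn_smul _ _
      filter_upwards [h1, h2, J_fst_coe P] with z hz1 hz2 hz3
      intro hne
      change ((p + t • J D P).1 : EuclideanSpace ℝ (Fin n) → ℝ) z ≠ 0 at hne
      show z ∈ {x | (p.1 : EuclideanSpace ℝ (Fin n) → ℝ) x ≠ 0} ∪ {x | P.1 x ≠ 0}
      rw [mem_union, Set.mem_ofPred_eq, Set.mem_ofPred_eq]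
      by_contra hcon
      push Not at hcon
      apply hne
      rw [hz1, Pi.add_apply, hz2, Pi.smul_apply, hz3, hcon.1, hcon.2]
      simp
    have h1 := lamR_mul_le hw hwV
    have h2 := hLip η hη hηε
    have h3 : ‖(p + t • J D P).1‖ ^ 2 =
        1 + 2 * t * ⟪p.1, (J D P).1⟫ + t ^ 2 * ‖(J D P).1‖ ^ 2 := by
      show ‖p.1 + t • (J D P).1‖ ^ 2 = _
      rw [norm_add_sq_real, hp1, inner_smul_right, norm_smul, mul_pow, Real.norm_eq_abs, sq_abs]
      ring
    have h4 : ‖(p + t • J D P).2‖ ^ 2 =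
        lamR D A + 2 * t * ⟪p.2, (J D P).2⟫ + t ^ 2 * ‖(J D P).2‖ ^ 2 := by
      show ‖p.2 + t • (J D P).2‖ ^ 2 = _
      rw [norm_add_sq_real, hmin, inner_smul_right, norm_smul, mul_pow, Real.norm_eq_abs, sq_abs]
      ring
    have h5 : ‖(p + t • J D P).1‖ ^ 2 ≤ 2 + 2 * t ^ 2 * ‖(J D P).1‖ ^ 2 := by
      have e1 : ‖(p + t • J D P).1‖ ≤ 1 + |t| * ‖(J D P).1‖ := by
        calc ‖(p + t • J D P).1‖ = ‖p.1 + t • (J D P).1‖ := rfl
          _ ≤ ‖p.1‖ + ‖t • (J D P).1‖ := norm_add_le _ _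
          _ = _ := by rw [hp1, norm_smul, Real.norm_eq_abs]
      exact real_aux1 e1 (norm_nonneg _)
    have h6 : (lamR D A - C * η) * ‖(p + t • J D P).1‖ ^ 2 ≤ ‖(p + t • J D P).2‖ ^ 2 :=
      (mul_le_mul_of_nonneg_right h2 (by positivity)).trans h1
    rw [h4] at h6
    exact real_aux2 (lamR_nonneg D A) (by positivity) h3 (by positivity) h5 h6
  have h1 := key s
  have h2 := key (-s)
  rcases abs_cases (⟪p.2, (J D P).2⟫ - lamR D A * ⟪p.1, (J D P).1⟫) with h | h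
  · rw [h.1]
    have e : (-s) ^ 2 = s ^ 2 := by ring
    rw [e] at h2
    linarith
  · rw [h.1]
    linarith

/-- key bound for the gradient term -/
theorem W_bound (hn : 0 < n) (hn3 : n ≤ 3) {D : Set (EuclideanSpace ℝ (Fin n))} {A : ℝ}
    (hA : 0 < A)
    {p : E2 n × G2 n} (hp : p ∈ Adm D A) (hmin : ‖p.2‖ ^ 2 = lamR D A) {C ε : ℝ} (hC : 0 ≤ C)
    (hε : 0 < ε)
    (hLip : ∀ η, 0 < η → η < ε → lamR D A - C * η ≤ lamR D (A + η)) :
    ∃ K r₀ : ℝ, 0 ≤ K ∧ 0 < r₀ ∧ r₀ ≤ 1 ∧ ∀ (x : EuclideanSpace ℝ (Fin n)) (r : ℝ)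
      (hr : 0 < r), r < r₀ → closedBall x r ⊆ D →
      |⟪p.2, (W_memLp x hr).toLp (W x r)⟫| ≤ K * (r ^ (n - 1) / Real.sqrt r) := by
  have : Nonempty (Fin n) := ⟨⟨0, hn⟩⟩
  obtain ⟨hpH, hp1, hpV⟩ := mem_Adm.1 hp
  obtain ⟨M1, hM1, hM1b⟩ := exists_bound Qf_contDiff.continuous (fun s hs => Qf_zero hs)
  obtain ⟨M2, hM2, hM2b⟩ := exists_bound qf_contDiff.continuous (fun s hs => qf_zero hs)
  set M := max M1 M2 with hMdef
  have hM : 0 < M := lt_max_of_lt_left hM1
  have hMb1 : ∀ s, 0 ≤ s → |Qf s| ≤ M := fun s hs => (hM1b s hs).trans (le_max_left _ _)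
  have hMb2 : ∀ s, 0 ≤ s → |qf s| ≤ M := fun s hs => (hM2b s hs).trans (le_max_right _ _)
  set vb : ℝ := volume.real (ball (0 : EuclideanSpace ℝ (Fin n)) 1) with hvb
  have hvb0 : 0 < vb := by
    rw [hvb, measureReal_def]
    exact ENNReal.toReal_pos (measure_ball_pos _ _ one_pos).ne' measure_ball_lt_top.ne
  have hvol : ∀ (x : EuclideanSpace ℝ (Fin n)) {r : ℝ}, 0 < r →
      volume (closedBall x r) = ENNReal.ofReal (vb * r ^ n) := by
    intro x r hr
    rw [Measure.addHaar_closedBall _ _ hr.le, mul_comm vb, ENNReal.ofReal_mul (by positivity), hvb,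
      measureReal_def, ENNReal.ofReal_toReal measure_ball_lt_top.ne]
    simp
  have hvolr : ∀ (x : EuclideanSpace ℝ (Fin n)) {r : ℝ}, 0 < r →
      volume.real (closedBall x r) = vb * r ^ n := by
    intro x r hr
    rw [measureReal_def, hvol x hr, ENNReal.toReal_ofReal (by positivity)]
  obtain ⟨r₀, hr₀, hr₀1, hr₀ε⟩ : ∃ r₀ : ℝ, 0 < r₀ ∧ r₀ ≤ 1 ∧ vb * r₀ < ε := by
    refine ⟨min 1 (ε / (2 * vb)), by positivity, min_le_left _ _, ?_⟩
    calc vb * min 1 (ε / (2 * vb)) ≤ vb * (ε / (2 * vb)) := by gcongr; exact min_le_right _ _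
      _ = ε / 2 := by field_simp
      _ < ε := by linarith
  set lam := lamR D A with hlam
  have hlam0 : 0 ≤ lam := lamR_nonneg D A
  set K : ℝ := vb / 2 * (M ^ 2 + C * (2 + 2 * (M ^ 2 * vb))) + lam * (M * Real.sqrt vb) with hK
  refine ⟨K, r₀, by positivity, hr₀, hr₀1, ?_⟩
  intro x r hr hrr₀ hball
  have hr1 : r ≤ 1 := (hrr₀.le).trans hr₀1
  have hrn1 : r ^ n ≤ 1 := pow_le_one₀ hr.le hr1
  have hrn0 : 0 < r ^ n := by positivity
  have hrnr : r ^ n ≤ r := by
    calc r ^ n ≤ r ^ 1 := pow_le_pow_of_le_one hr.le hr1 hn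
      _ = r := pow_one r
  -- the test function
  let P : testSub D := ⟨Psi x r, mem_testSub.2 (Psi_isTest hr hball)⟩
  have hPW : (J D P).2 = (W_memLp x hr).toLp (W x r) := by
    show MemLp.toLp (gradient (Psi x r)) (Psi_isTest hr hball).memLp_gradient = _
    apply MemLp.toLp_congr
    rw [gradient_Psi]
  have hη : 0 < vb * r ^ n := by positivity
  have hηε : vb * r ^ n < ε := by
    calc vb * r ^ n ≤ vb * r := by gcongr
      _ ≤ vb * r₀ := by gcongr
      _ < ε := hr₀ε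
  have hV : volume {z | P.1 z ≠ 0} ≤ ENNReal.ofReal (vb * r ^ n) := by
    rw [← hvol x hr]
    apply measure_mono
    exact (subset_tsupport _).trans (Psi_tsupport x hr)
  have hT := perturb hA hp hmin hC hLip P hη hηε hV r
  rw [← hlam] at hT
  have hnP1 : ‖(J D P).1‖ ^ 2 ≤ M ^ 2 * (vb * r ^ n) := by
    rw [norm_J_fst]
    show ∫ z, (Psi x r z) ^ 2 ≤ _
    have e1 : ∫ z, (Psi x r z) ^ 2 = ∫ z in closedBall x r, (Psi x r z) ^ 2 := by
      rw [setIntegral_eq_integral_of_forall_compl_eq_zero]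
      intro z hz
      rw [mem_closedBall, dist_eq_norm] at hz
      push Not at hz
      unfold Psi; rw [Qf_zero (one_le_hs hr hz.le)]; simp
    rw [e1]
    have e2 : ∫ z in closedBall x r, (Psi x r z) ^ 2 ≤ ∫ z in closedBall x r, M ^ 2 := by
      apply setIntegral_mono_on
      · exact (Psi_isTest hr hball).integrable_sq.integrableOn
      · exact integrableOn_const measure_closedBall_lt_top.ne
      · exact measurableSet_closedBall
      · intro z _
        have := hMb1 _ (hs_nonneg x r z)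
        rw [← sq_abs]
        exact pow_le_pow_left₀ (abs_nonneg _) this 2
    refine e2.trans ?_
    rw [setIntegral_const, hvolr x hr, smul_eq_mul]
    apply le_of_eq; ring
  have hnP2 : ‖(J D P).2‖ ^ 2 ≤ (M / r) ^ 2 * (vb * r ^ n) := by
    rw [hPW, toLp_norm_sq]
    have e1 : ∫ z, ‖W x r z‖ ^ 2 = ∫ z in closedBall x r, ‖W x r z‖ ^ 2 := by
      rw [setIntegral_eq_integral_of_forall_compl_eq_zero]
      intro z hz
      rw [mem_closedBall, dist_eq_norm] at hz
      push Not at hz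
      unfold W; rw [qf_zero (one_le_hs hr hz.le)]; simp
    rw [e1]
    have e2 : ∫ z in closedBall x r, ‖W x r z‖ ^ 2 ≤
        ∫ z in closedBall x r, (M / r) ^ 2 := by
      apply setIntegral_mono_on
      · exact ((W_memLp x hr).integrable_norm_pow (by norm_num)).integrableOn
      · exact integrableOn_const measure_closedBall_lt_top.ne
      · exact measurableSet_closedBall
      · intro z _
        exact pow_le_pow_left₀ (norm_nonneg _) (W_norm_le hMb2 x hr z) 2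
    refine e2.trans ?_
    rw [setIntegral_const, hvolr x hr, smul_eq_mul]
    apply le_of_eq; ring
  -- combine
  have hsq : 0 < Real.sqrt r := Real.sqrt_pos.2 hr
  have hsq1 : Real.sqrt r ≤ 1 := Real.sqrt_le_one.2 hr1
  have hT2 : |⟪p.2, (J D P).2⟫ - lam * ⟪p.1, (J D P).1⟫| ≤
      vb / 2 * (M ^ 2 + C * (2 + 2 * (M ^ 2 * vb))) * r ^ (n - 1) := by
    have e1 : r ^ n = r ^ (n - 1) * r := by
      rw [← pow_succ]; congr 1; omega
    have e2 : r ^ 2 * ‖(J D P).2‖ ^ 2 ≤ M ^ 2 * (vb * r ^ n) := by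
      calc r ^ 2 * ‖(J D P).2‖ ^ 2 ≤ r ^ 2 * ((M / r) ^ 2 * (vb * r ^ n)) := by gcongr
        _ = _ := by field_simp
    have e3 : r ^ 2 * ‖(J D P).1‖ ^ 2 ≤ M ^ 2 * vb := by
      calc r ^ 2 * ‖(J D P).1‖ ^ 2 ≤ 1 ^ 2 * (M ^ 2 * (vb * 1)) := by gcongr; exact hnP1.trans (by gcongr)
        _ = _ := by ring
    have e4 : C * (vb * r ^ n) * (2 + 2 * r ^ 2 * ‖(J D P).1‖ ^ 2) ≤
        C * (vb * r ^ n) * (2 + 2 * (M ^ 2 * vb)) := by
      apply mul_le_mul_of_nonneg_left _ (by positivity)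
      nlinarith
    have e5 : 2 * r * |⟪p.2, (J D P).2⟫ - lam * ⟪p.1, (J D P).1⟫| ≤
        2 * r * (vb / 2 * (M ^ 2 + C * (2 + 2 * (M ^ 2 * vb))) * r ^ (n - 1)) := by
      refine hT.trans ((add_le_add e2 e4).trans (le_of_eq ?_))
      rw [e1]; ring
    exact le_of_mul_le_mul_left e5 (by positivity)
  have h3 : |⟪p.1, (J D P).1⟫| ≤ M * Real.sqrt vb * (Real.sqrt r) ^ n := by
    have e1 : |⟪p.1, (J D P).1⟫| ≤ ‖p.1‖ * ‖(J D P).1‖ := abs_real_inner_le_norm _ _
    rw [hp1, one_mul] at e1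
    refine e1.trans ?_
    apply le_of_sq_le_sq _ (by positivity)
    refine hnP1.trans (le_of_eq ?_)
    rw [mul_pow, mul_pow, Real.sq_sqrt hvb0.le, ← pow_mul, mul_comm n 2, pow_mul,
      Real.sq_sqrt hr.le]
    ring
  have h4 : (Real.sqrt r) ^ n ≤ r ^ (n - 1) / Real.sqrt r := by
    rw [le_div_iff₀ hsq]
    have e1 : r ^ (n - 1) = (Real.sqrt r) ^ (2 * (n - 1)) := by
      rw [pow_mul, Real.sq_sqrt hr.le]
    rw [e1, ← pow_succ]
    exact pow_le_pow_of_le_one hsq.le hsq1 (by omega)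
  have h5 : r ^ (n - 1) ≤ r ^ (n - 1) / Real.sqrt r := by
    rw [le_div_iff₀ hsq]
    have : 0 ≤ r ^ (n - 1) := by positivity
    nlinarith
  rw [← hPW]
  generalize ⟪p.2, (J D P).2⟫ = a at hT2 ⊢
  generalize ⟪p.1, (J D P).1⟫ = b at hT2 h3 ⊢
  have h6 : |a| ≤ |a - lam * b| + lam * |b| := by
    have e1 : a = (a - lam * b) + lam * b := by ring
    have e2 := abs_add_le (a - lam * b) (lam * b)
    rw [abs_mul, abs_of_nonneg hlam0] at e2
    rw [← e1] at e2
    exact e2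
  refine h6.trans ?_
  have h7 : vb / 2 * (M ^ 2 + C * (2 + 2 * (M ^ 2 * vb))) * r ^ (n - 1) ≤
      vb / 2 * (M ^ 2 + C * (2 + 2 * (M ^ 2 * vb))) * (r ^ (n - 1) / Real.sqrt r) :=
    mul_le_mul_of_nonneg_left h5 (by positivity)
  have h8 : lam * |b| ≤ lam * (M * Real.sqrt vb * (r ^ (n - 1) / Real.sqrt r)) := by
    apply mul_le_mul_of_nonneg_left _ hlam0
    refine h3.trans ?_
    exact mul_le_mul_of_nonneg_left h4 (by positivity)
  calc _ ≤ vb / 2 * (M ^ 2 + C * (2 + 2 * (M ^ 2 * vb))) * (r ^ (n - 1) / Real.sqrt r) +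
      lam * (M * Real.sqrt vb * (r ^ (n - 1) / Real.sqrt r)) :=
        add_le_add (hT2.trans h7) h8
    _ = K * (r ^ (n - 1) / Real.sqrt r) := by rw [hK]; ring

end Pool.Agent.H66.EX
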