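import Pool.Agent.H66.EX.Weak

set_option autoImplicit false

open MeasureTheory Set Filter Topology Metric
open scoped ContDiff ENNReal NNReal Pointwise RealInnerProductSpace

noncomputable section

namespace Pool.Agent.H66.EX

variable {n : ℕ}

/-- relaxed admissible functions -/
def Adm (D : Set (EuclideanSpace ℝ (Fin n))) (A : ℝ) : Set (E2 n × G2 n) :=
  {p | p ∈ HD D ∧ ‖p.1‖ = 1 ∧
    volume {x | (p.1 : EuclideanSpace ℝ (Fin n) → ℝ) x ≠ 0} ≤ ENNReal.ofReal A}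

theorem mem_Adm {D : Set (EuclideanSpace ℝ (Fin n))} {A : ℝ} {p : E2 n × G2 n} :
    p ∈ Adm D A ↔ p ∈ HD D ∧ ‖p.1‖ = 1 ∧
    volume {x | (p.1 : EuclideanSpace ℝ (Fin n) → ℝ) x ≠ 0} ≤ ENNReal.ofReal A := by
  unfold Adm; rw [Set.mem_ofPred_eq]

/-- relaxed optimal value -/
def lamR (D : Set (EuclideanSpace ℝ (Fin n))) (A : ℝ) : ℝ :=
  sInf ((fun p : E2 n × G2 n => ‖p.2‖ ^ 2) '' Adm D A)

theorem lamR_bdd (D : Set (EuclideanSpace ℝ (Fin n))) (A : ℝ) :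
    BddBelow ((fun p : E2 n × G2 n => ‖p.2‖ ^ 2) '' Adm D A) :=
  ⟨0, by rintro _ ⟨p, _, rfl⟩; positivity⟩

theorem lamR_nonneg (D : Set (EuclideanSpace ℝ (Fin n))) (A : ℝ) : 0 ≤ lamR D A := by
  apply Real.sInf_nonneg
  rintro _ ⟨p, _, rfl⟩; positivity

theorem lamR_le {D : Set (EuclideanSpace ℝ (Fin n))} {A : ℝ} {p : E2 n × G2 n}
    (hp : p ∈ Adm D A) : lamR D A ≤ ‖p.2‖ ^ 2 := csInf_le (lamR_bdd D A) ⟨p, hp, rfl⟩

/-- scaling: the inequality for arbitrary elements -/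
theorem lamR_mul_le {D : Set (EuclideanSpace ℝ (Fin n))} {A : ℝ} {p : E2 n × G2 n}
    (hp : p ∈ HD D)
    (hV : volume {x | (p.1 : EuclideanSpace ℝ (Fin n) → ℝ) x ≠ 0} ≤ ENNReal.ofReal A) :
    lamR D A * ‖p.1‖ ^ 2 ≤ ‖p.2‖ ^ 2 := by
  by_cases h0 : ‖p.1‖ = 0
  · rw [h0]; simp
  have hpos : 0 < ‖p.1‖ := lt_of_le_of_ne (norm_nonneg _) (Ne.symm h0)
  set c : ℝ := ‖p.1‖⁻¹ with hc
  have hmem : c • p ∈ Adm D A := by
    rw [mem_Adm]
    refine ⟨Submodule.smul_mem _ _ hp, ?_, ?_⟩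
    · show ‖c • p.1‖ = 1
      rw [norm_smul, hc, norm_inv, norm_norm, inv_mul_cancel₀ h0]
    · refine le_trans (measure_mono_ae ?_) hV
      have : ((c • p).1 : EuclideanSpace ℝ (Fin n) → ℝ) =ᵐ[volume] c • (p.1 : _ → ℝ) :=
        Lp.coeFn_smul _ _
      filter_upwards [this] with x hx
      intro hne
      change ((c • p).1 : EuclideanSpace ℝ (Fin n) → ℝ) x ≠ 0 at hne
      show (p.1 : EuclideanSpace ℝ (Fin n) → ℝ) x ≠ 0
      intro h0
      apply hne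
      rw [hx, Pi.smul_apply, h0, smul_zero]
  have h1 := lamR_le hmem
  have h2 : ‖(c • p).2‖ ^ 2 = c ^ 2 * ‖p.2‖ ^ 2 := by
    show ‖c • p.2‖ ^ 2 = _
    rw [norm_smul, mul_pow, Real.norm_eq_abs, sq_abs]
  rw [h2] at h1
  have h3 : c ^ 2 * ‖p.1‖ ^ 2 = 1 := by
    rw [← mul_pow, hc, inv_mul_cancel₀ h0, one_pow]
  calc lamR D A * ‖p.1‖ ^ 2 ≤ (c ^ 2 * ‖p.2‖ ^ 2) * ‖p.1‖ ^ 2 := by gcongr
    _ = (c ^ 2 * ‖p.1‖ ^ 2) * ‖p.2‖ ^ 2 := by ring
    _ = _ := by rw [h3, one_mul]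

/-- existence of nonzero test functions with small support -/
theorem exists_test {D : Set (EuclideanSpace ℝ (Fin n))} (hDo : IsOpen D) (hDne : D.Nonempty)
    {A : ℝ} (hA : 0 < A) (hn : 0 < n) : ∃ φ : EuclideanSpace ℝ (Fin n) → ℝ, IsTest D φ ∧
      volume (tsupport φ) ≤ ENNReal.ofReal A ∧ ∃ x, φ x ≠ 0 := by
  have : Nonempty (Fin n) := ⟨⟨0, hn⟩⟩
  obtain ⟨x0, hx0⟩ := hDne
  obtain ⟨r, hr, hball⟩ := Metric.isOpen_iff.1 hDo x0 hx0
  -- choose a radius with small volume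
  have hlim : Tendsto (fun s : ℝ => volume (closedBall x0 s)) (𝓝[>] 0) (𝓝 0) := by
    have h1 : ∀ s : ℝ, 0 < s → volume (closedBall x0 s) =
        ENNReal.ofReal (s ^ n) * volume (ball (0 : EuclideanSpace ℝ (Fin n)) 1) := by
      intro s hs
      rw [Measure.addHaar_closedBall _ _ hs.le]
      simp
    have h2 : Tendsto (fun s : ℝ => ENNReal.ofReal (s ^ n) *
        volume (ball (0 : EuclideanSpace ℝ (Fin n)) 1)) (𝓝[>] 0) (𝓝 0) := by
      have h3 : Tendsto (fun s : ℝ => ENNReal.ofReal (s ^ n)) (𝓝[>] 0) (𝓝 0) := by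
        have : Continuous fun s : ℝ => ENNReal.ofReal (s ^ n) :=
          ENNReal.continuous_ofReal.comp (continuous_pow n)
        have h4 := this.tendsto 0
        rw [zero_pow (by omega), ENNReal.ofReal_zero] at h4
        exact h4.mono_left nhdsWithin_le_nhds
      have h5 := ENNReal.Tendsto.mul_const (b := volume (ball (0 : EuclideanSpace ℝ (Fin n)) 1))
        h3 (Or.inr measure_ball_lt_top.ne)
      rwa [zero_mul] at h5
    refine h2.congr' ?_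
    filter_upwards [self_mem_nhdsWithin] with s hs
    exact (h1 s hs).symm
  have hA' : (0 : ℝ≥0∞) < ENNReal.ofReal A := by simpa using hA
  have hev := (hlim.eventually (gt_mem_nhds hA')).and
    ((Ioo_mem_nhdsGT hr : Ioo 0 r ∈ 𝓝[>] (0:ℝ)))
  obtain ⟨s, hs1, hs2⟩ := hev.exists
  let f : ContDiffBump x0 := ⟨s / 2, s, by linarith [hs2.1], by linarith [hs2.1]⟩
  refine ⟨f, ⟨f.contDiff, f.hasCompactSupport, ?_⟩, ?_, x0, ?_⟩
  · rw [f.tsupport_eq]
    exact (closedBall_subset_ball hs2.2).trans hball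
  · rw [f.tsupport_eq]; exact hs1.le
  · have := f.one_of_mem_closedBall (mem_closedBall_self f.rIn_pos.le)
    rw [this]; norm_num

theorem Adm_nonempty {D : Set (EuclideanSpace ℝ (Fin n))} (hDo : IsOpen D) (hDne : D.Nonempty)
    {A : ℝ} (hA : 0 < A) (hn : 0 < n) : (Adm D A).Nonempty := by
  obtain ⟨φ, hφ, hV, x, hx⟩ := exists_test hDo hDne hA hn
  let φ' : testSub D := ⟨φ, mem_testSub.2 hφ⟩
  have hne : ‖(J D φ').1‖ ≠ 0 := by
    intro h0
    have h1 := norm_J_fst φ'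
    rw [h0] at h1
    have h2 : ∫ x, (φ x) ^ 2 = 0 := by
      have : (φ'.1) = φ := rfl
      rw [this] at h1; linarith
    have h3 := (hφ.continuous.pow 2).integral_pos_of_hasCompactSupport_nonneg_nonzero
      (μ := volume) (hφ.cpt.mono (fun x hx => by
        simp only [Function.mem_support] at hx ⊢
        intro h0; exact hx (by simp [h0]))) (fun y => by
          show 0 ≤ (φ y) ^ 2
          positivity) (x := x) (by
          show (φ x) ^ 2 ≠ 0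
          positivity)
    have h4 : ∫ x, (φ ^ 2) x = ∫ x, (φ x) ^ 2 := rfl
    rw [h4, h2] at h3
    exact lt_irrefl _ h3
  set c : ℝ := ‖(J D φ').1‖⁻¹ with hc
  refine ⟨c • J D φ', ?_⟩
  rw [mem_Adm]
  refine ⟨Submodule.smul_mem _ _ (J_mem φ'), ?_, ?_⟩
  · show ‖c • (J D φ').1‖ = 1
    rw [norm_smul, hc, norm_inv, norm_norm, inv_mul_cancel₀ hne]
  · refine le_trans (measure_mono_ae ?_) hV
    have h1 : ((c • J D φ').1 : EuclideanSpace ℝ (Fin n) → ℝ) =ᵐ[volume]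
      c • ((J D φ').1 : _ → ℝ) := Lp.coeFn_smul _ _
    filter_upwards [h1, J_fst_coe φ'] with y hy hy2
    intro hne
    change ((c • J D φ').1 : EuclideanSpace ℝ (Fin n) → ℝ) y ≠ 0 at hne
    apply subset_tsupport
    rw [Function.mem_support]
    intro h0
    apply hne
    rw [hy, Pi.smul_apply, hy2]
    show c • φ y = 0
    rw [h0, smul_zero]

/-- compactness for bounded sequences in `H¹₀(D)`. -/
theorem compactness (hn : 0 < n) {D : Set (EuclideanSpace ℝ (Fin n))} {R : ℝ} (hR : 0 ≤ R)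
    (hD : ∀ x ∈ D, ‖x‖ ≤ R) {p : ℕ → E2 n × G2 n} (hp : ∀ m, p m ∈ HD D) {L : ℝ}
    (hL : Tendsto (fun m => ‖(p m).2‖) atTop (𝓝 L)) :
    ∃ q ∈ HD D, ‖q.2‖ ≤ L ∧ ∃ σ : ℕ → ℕ, StrictMono σ ∧
      Tendsto (fun m => (p (σ m)).1) atTop (𝓝 q.1) := by
  obtain ⟨C, hC⟩ := hL.bddAbove_range
  have hC' : ∀ m, ‖(p m).2‖ ≤ C := fun m => hC ⟨m, rfl⟩
  obtain ⟨K, hK, hKp⟩ := rellich hn hR hD C
  obtain ⟨u, _, σ, hσ, hu⟩ := hK.tendsto_subseq (x := fun m => (p m).1)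
    (fun m => hKp _ (hp m) (hC' m))
  obtain ⟨g, hg, hgL⟩ := exists_weak_limit (isClosed_HD D) (HD D).convex
    (fun m => p (σ m)) (fun m => hp _) hu (hL.comp hσ.tendsto_atTop)
  exact ⟨(u, g), hg, hgL, σ, hσ, hu⟩

/-- existence of a relaxed minimizer -/
theorem exists_relaxed (hn : 0 < n) {D : Set (EuclideanSpace ℝ (Fin n))} (hDo : IsOpen D)
    (hDne : D.Nonempty) {R : ℝ} (hR : 0 ≤ R)
    (hD : ∀ x ∈ D, ‖x‖ ≤ R) {A : ℝ} (hA : 0 < A) :
    ∃ p ∈ Adm D A, ‖p.2‖ ^ 2 = lamR D A := by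
  have hne := Adm_nonempty hDo hDne hA hn
  have hmin : ∀ m : ℕ, ∃ p ∈ Adm D A, ‖p.2‖ ^ 2 < lamR D A + 1 / ((m : ℝ) + 1) := by
    intro m
    have h1 : sInf ((fun p : E2 n × G2 n => ‖p.2‖ ^ 2) '' Adm D A) <
        lamR D A + 1 / ((m : ℝ) + 1) := by
      have : (0 : ℝ) < 1 / ((m : ℝ) + 1) := by positivity
      show lamR D A < _
      linarith
    obtain ⟨_, ⟨q, hq, rfl⟩, hq2⟩ := (csInf_lt_iff (lamR_bdd D A) (hne.image _)).1 h1
    exact ⟨q, hq, hq2⟩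
  choose p hp hp2 using hmin
  have hlim : Tendsto (fun m => ‖(p m).2‖ ^ 2) atTop (𝓝 (lamR D A)) := by
    have h1 : Tendsto (fun m : ℕ => lamR D A + 1 / ((m : ℝ) + 1)) atTop
        (𝓝 (lamR D A + 0)) := tendsto_one_div_add_atTop_nhds_zero_nat.const_add _
    rw [add_zero] at h1
    exact tendsto_of_tendsto_of_tendsto_of_le_of_le tendsto_const_nhds h1
      (fun m => lamR_le (hp m)) (fun m => (hp2 m).le)
  have hlim2 : Tendsto (fun m => ‖(p m).2‖) atTop (𝓝 (Real.sqrt (lamR D A))) := by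
    have := (Real.continuous_sqrt.tendsto _).comp hlim
    refine this.congr fun m => ?_
    show Real.sqrt (‖(p m).2‖ ^ 2) = _
    exact Real.sqrt_sq (norm_nonneg _)
  obtain ⟨q, hq, hqL, σ, hσ, hconv⟩ := compactness hn hR hD
    (fun m => (mem_Adm.1 (hp m)).1) hlim2
  have hqA : q ∈ Adm D A := by
    rw [mem_Adm]
    refine ⟨hq, ?_, ?_⟩
    · have h1 := hconv.norm
      have h2 : ∀ m, ‖(p (σ m)).1‖ = 1 := fun m => (mem_Adm.1 (hp _)).2.1
      simp only [h2] at h1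
      exact (tendsto_nhds_unique h1 tendsto_const_nhds)
    · exact volume_ne_zero_le hconv (fun m => (mem_Adm.1 (hp _)).2.2)
  refine ⟨q, hqA, le_antisymm ?_ (lamR_le hqA)⟩
  calc ‖q.2‖ ^ 2 ≤ (Real.sqrt (lamR D A)) ^ 2 := pow_le_pow_left₀ (norm_nonneg _) hqL 2
    _ = lamR D A := Real.sq_sqrt (lamR_nonneg D A)

theorem lamR_anti {D : Set (EuclideanSpace ℝ (Fin n))} (hDo : IsOpen D)
    (hDne : D.Nonempty) (hn : 0 < n) : AntitoneOn (lamR D) (Ioi 0) := by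
  intro A hA B _ hAB
  apply csInf_le_csInf (lamR_bdd D B) ((Adm_nonempty hDo hDne hA hn).image _)
  apply image_mono
  intro p hp
  rw [mem_Adm] at hp ⊢
  exact ⟨hp.1, hp.2.1, hp.2.2.trans (ENNReal.ofReal_le_ofReal hAB)⟩

/-- at almost every `A` the relaxed value is Lipschitz from the right. -/
theorem ae_lipschitz {D : Set (EuclideanSpace ℝ (Fin n))} (hDo : IsOpen D)
    (hDne : D.Nonempty) (hn : 0 < n) :
    ∀ᵐ A : ℝ, 0 < A → ∃ C ε : ℝ, 0 ≤ C ∧ 0 < ε ∧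
      ∀ η, 0 < η → η < ε → lamR D A - C * η ≤ lamR D (A + η) := by
  have h1 := (lamR_anti hDo hDne hn).neg.ae_differentiableWithinAt measurableSet_Ioi
  rw [ae_restrict_iff' measurableSet_Ioi] at h1
  filter_upwards [h1] with A hA hA0
  have h2 := hA hA0
  have h3 : DifferentiableAt ℝ (fun x => - lamR D x) A :=
    h2.differentiableAt (Ioi_mem_nhds hA0)
  have h4 : DifferentiableAt ℝ (lamR D) A := by
    have := h3.neg
    simpa using this
  obtain ⟨d, hd⟩ : ∃ d, HasDerivAt (lamR D) d A := ⟨_, h4.hasDerivAt⟩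
  have h5 := hd.isBigO_sub
  obtain ⟨C, hC⟩ := h5.bound
  rw [Metric.eventually_nhds_iff] at hC
  obtain ⟨ε, hε, hC⟩ := hC
  refine ⟨|C|, ε, abs_nonneg _, hε, ?_⟩
  intro η hη hηε
  have h6 := hC (y := A + η) (by
    rw [Real.dist_eq]; simp only [add_sub_cancel_left]; rwa [abs_of_pos hη])
  rw [Real.norm_eq_abs, Real.norm_eq_abs, add_sub_cancel_left, abs_of_pos hη] at h6
  have h7 := neg_abs_le (lamR D (A + η) - lamR D A)
  have h8 : C * η ≤ |C| * η := by gcongr; exact le_abs_self C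
  linarith

end Pool.Agent.H66.EX
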