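import Pool.Agent.H66.EX.Space

set_option autoImplicit false

open MeasureTheory Set Filter Topology Metric
open scoped ContDiff ENNReal NNReal Pointwise RealInnerProductSpace

noncomputable section

namespace Pool.Agent.H66.EX

variable {n : ℕ}

/-- cubic cell of side `δ` with index `k` -/
def cell (δ : ℝ) (k : Fin n → ℤ) : Set (EuclideanSpace ℝ (Fin n)) :=
  {x | ∀ i, δ * (k i : ℝ) ≤ x i ∧ x i < δ * (k i + 1 : ℝ)}

def box (δ : ℝ) : Set (EuclideanSpace ℝ (Fin n)) := {x | ∀ i, -δ < x i ∧ x i < δ}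

theorem mem_cell {δ : ℝ} {k : Fin n → ℤ} {x : EuclideanSpace ℝ (Fin n)} :
    x ∈ cell δ k ↔ ∀ i, δ * (k i : ℝ) ≤ x i ∧ x i < δ * (k i + 1 : ℝ) := by
  unfold cell; rw [Set.mem_ofPred_eq]

theorem mem_box {δ : ℝ} {x : EuclideanSpace ℝ (Fin n)} :
    x ∈ box δ ↔ ∀ i, -δ < x i ∧ x i < δ := by
  unfold box; rw [Set.mem_ofPred_eq]

theorem cell_eq (δ : ℝ) (k : Fin n → ℤ) : cell δ k =
    (fun x : EuclideanSpace ℝ (Fin n) => x.ofLp) ⁻¹'
      (Set.pi univ fun i => Ico (δ * (k i : ℝ)) (δ * (k i + 1 : ℝ))) := by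
  ext x; rw [mem_cell]; simp [Set.mem_pi]

theorem box_eq (δ : ℝ) : (box δ : Set (EuclideanSpace ℝ (Fin n))) =
    (fun x : EuclideanSpace ℝ (Fin n) => x.ofLp) ⁻¹' (Set.pi univ fun _ => Ioo (-δ) δ) := by
  ext x; rw [mem_box]; simp [Set.mem_pi]

theorem measurableSet_cell (δ : ℝ) (k : Fin n → ℤ) : MeasurableSet (cell δ k) := by
  rw [cell_eq]
  exact (PiLp.volume_preserving_ofLp (Fin n)).measurable
    (MeasurableSet.univ_pi fun i => measurableSet_Ico)

theorem measurableSet_box (δ : ℝ) : MeasurableSet (box δ : Set (EuclideanSpace ℝ (Fin n))) := by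
  rw [box_eq]
  exact (PiLp.volume_preserving_ofLp (Fin n)).measurable
    (MeasurableSet.univ_pi fun i => measurableSet_Ioo)

theorem volume_cell {δ : ℝ} (hδ : 0 < δ) (k : Fin n → ℤ) :
    volume (cell δ k) = ENNReal.ofReal (δ ^ n) := by
  rw [cell_eq, (PiLp.volume_preserving_ofLp (Fin n)).measure_preimage
    (MeasurableSet.univ_pi fun i => measurableSet_Ico).nullMeasurableSet, volume_pi_pi]
  simp only [Real.volume_Ico]
  have : ∀ i : Fin n, δ * (k i + 1 : ℝ) - δ * (k i : ℝ) = δ := fun i => by ring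
  simp only [this, Finset.prod_const, Finset.card_univ, Fintype.card_fin]
  rw [← ENNReal.ofReal_pow hδ.le]

theorem volume_box {δ : ℝ} (hδ : 0 < δ) :
    volume (box δ : Set (EuclideanSpace ℝ (Fin n))) = ENNReal.ofReal ((2 * δ) ^ n) := by
  rw [box_eq, (PiLp.volume_preserving_ofLp (Fin n)).measure_preimage
    (MeasurableSet.univ_pi fun i => measurableSet_Ioo).nullMeasurableSet, volume_pi_pi]
  simp only [Real.volume_Ioo, Finset.prod_const, Finset.card_univ, Fintype.card_fin]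
  rw [← ENNReal.ofReal_pow (by linarith)]
  congr 2; ring

theorem mem_cell_floor {δ : ℝ} (hδ : 0 < δ) (x : EuclideanSpace ℝ (Fin n)) :
    x ∈ cell δ (fun i => ⌊x i / δ⌋) := by
  rw [mem_cell]
  intro i
  constructor
  · have := Int.floor_le (x i / δ)
    calc δ * (⌊x i / δ⌋ : ℝ) ≤ δ * (x i / δ) := by gcongr
      _ = x i := by field_simp
  · have := Int.lt_floor_add_one (x i / δ)
    calc x i = δ * (x i / δ) := by field_simp
      _ < δ * (⌊x i / δ⌋ + 1 : ℝ) := by gcongr

theorem cell_disjoint {δ : ℝ} (hδ : 0 < δ) {k l : Fin n → ℤ} {x : EuclideanSpace ℝ (Fin n)}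
    (hk : x ∈ cell δ k) (hl : x ∈ cell δ l) : k = l := by
  rw [mem_cell] at hk hl
  ext i
  obtain ⟨h1, h2⟩ := hk i
  obtain ⟨h3, h4⟩ := hl i
  have h5 : (k i : ℝ) < l i + 1 := by
    by_contra h; push Not at h
    have := mul_le_mul_of_nonneg_left h hδ.le
    linarith
  have h6 : (l i : ℝ) < k i + 1 := by
    by_contra h; push Not at h
    have := mul_le_mul_of_nonneg_left h hδ.le
    linarith
  have h7 : k i < l i + 1 := by exact_mod_cast h5
  have h8 : l i < k i + 1 := by exact_mod_cast h6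
  omega

theorem norm_sq_le_of_mem_box {δ : ℝ} {h : EuclideanSpace ℝ (Fin n)} (hh : h ∈ box δ) :
    ‖h‖ ^ 2 ≤ n * δ ^ 2 := by
  rw [mem_box] at hh
  rw [EuclideanSpace.norm_sq_eq]
  calc ∑ i, ‖h i‖ ^ 2 ≤ ∑ _i : Fin n, δ ^ 2 := by
        apply Finset.sum_le_sum
        intro i _
        rw [Real.norm_eq_abs, sq_abs]
        exact sq_le_sq' (hh i).1.le (hh i).2.le
    _ = n * δ ^ 2 := by simp

/-- Jensen on a cell -/
theorem sq_sub_average_le {δ : ℝ} (hδ : 0 < δ) {k : Fin n → ℤ}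
    {φ : EuclideanSpace ℝ (Fin n) → ℝ} (hφ : Continuous φ) (hc : HasCompactSupport φ)
    {x : EuclideanSpace ℝ (Fin n)} (hx : x ∈ cell δ k) :
    ENNReal.ofReal ((φ x - ⨍ y in cell δ k, φ y) ^ 2) ≤
      (volume (cell δ k))⁻¹ * ∫⁻ h in box δ, ENNReal.ofReal ((φ (x + h) - φ x) ^ 2) := by
  have hv0 : volume (cell δ k) ≠ 0 := by
    rw [volume_cell hδ]; simp; positivity
  have hvt : volume (cell δ k) ≠ ⊤ := by
    rw [volume_cell hδ]; exact ENNReal.ofReal_ne_top
  have hint : Integrable φ := hφ.integrable_of_hasCompactSupport hc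
  have hint2 : Integrable (fun y => (φ y) ^ 2) :=
    (hφ.pow 2).integrable_of_hasCompactSupport (hc.mono (fun x hx => by
      simp only [Function.mem_support] at hx ⊢
      intro h0; exact hx (by simp [h0])))
  have hconst : IntegrableOn (fun _ : EuclideanSpace ℝ (Fin n) => (φ x) ^ 2) (cell δ k) :=
    integrableOn_const hvt
  have hconst1 : IntegrableOn (fun _ : EuclideanSpace ℝ (Fin n) => (φ x)) (cell δ k) :=
    integrableOn_const hvt
  have hi1 : IntegrableOn (fun y => φ x - φ y) (cell δ k) :=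
    hconst1.sub hint.integrableOn
  have hi2 : IntegrableOn (fun y => (φ x - φ y) ^ 2) (cell δ k) := by
    have : (fun y => (φ x - φ y) ^ 2) =
        fun y => (φ x) ^ 2 - 2 * φ x * φ y + (φ y) ^ 2 := by ext y; ring
    rw [this]
    exact (hconst.sub (hint.integrableOn.const_mul (2 * φ x))).add hint2.integrableOn
  have hav : φ x - ⨍ y in cell δ k, φ y = ⨍ y in cell δ k, (φ x - φ y) := by
    rw [setAverage_eq, setAverage_eq, integral_sub hconst1 hint.integrableOn]
    rw [setIntegral_const]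
    have hr : volume.real (cell δ k) ≠ 0 := by
      rw [measureReal_def]
      exact (ENNReal.toReal_pos hv0 hvt).ne'
    simp only [smul_eq_mul]
    field_simp
  have hJ : (φ x - ⨍ y in cell δ k, φ y) ^ 2 ≤ ⨍ y in cell δ k, (φ x - φ y) ^ 2 := by
    rw [hav]
    have := (even_two.convexOn_pow (𝕜 := ℝ)).map_set_average_le
      (μ := volume) (t := cell δ k) (f := fun y => φ x - φ y) (by fun_prop) isClosed_univ
      hv0 hvt (by simp) hi1 hi2
    exact this
  refine (ENNReal.ofReal_le_ofReal hJ).trans ?_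
  rw [setAverage_eq, smul_eq_mul, ENNReal.ofReal_mul (by positivity)]
  rw [ofReal_integral_eq_lintegral_ofReal hi2 (Eventually.of_forall fun y => by positivity)]
  have hinv : ENNReal.ofReal (volume.real (cell δ k))⁻¹ = (volume (cell δ k))⁻¹ := by
    rw [ENNReal.ofReal_inv_of_pos, measureReal_def, ENNReal.ofReal_toReal hvt]
    rw [measureReal_def]; exact ENNReal.toReal_pos hv0 hvt
  rw [hinv]
  refine mul_le_mul' le_rfl ?_
  -- change of variables
  rw [← lintegral_indicator (measurableSet_cell δ k), ← lintegral_indicator (measurableSet_box δ)]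
  rw [← lintegral_add_left_eq_self _ x]
  apply lintegral_mono
  intro h
  beta_reduce
  by_cases hh : x + h ∈ cell δ k
  · have hb : h ∈ box δ := by
      rw [mem_box]
      rw [mem_cell] at hx hh
      intro i
      obtain ⟨a1, a2⟩ := hx i
      obtain ⟨a3, a4⟩ := hh i
      simp only [PiLp.add_apply] at a3 a4
      constructor <;> nlinarith
    rw [indicator_of_mem hh, indicator_of_mem hb]
    apply le_of_eq
    congr 1; ring
  · rw [indicator_of_notMem hh]; exact zero_le

/-- index set of the cells meeting the ball of radius `R`. -/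
def idx (n : ℕ) (δ R : ℝ) : Finset (Fin n → ℤ) :=
  Fintype.piFinset fun _ => Finset.Icc (-(⌈R / δ⌉ + 1)) (⌈R / δ⌉ + 1)

theorem floor_mem_idx {δ R : ℝ} (hδ : 0 < δ) {x : EuclideanSpace ℝ (Fin n)} (hx : ‖x‖ ≤ R) :
    (fun i => ⌊x i / δ⌋) ∈ idx n δ R := by
  unfold idx
  rw [Fintype.mem_piFinset]
  intro i
  rw [Finset.mem_Icc]
  have h1 : |x i| ≤ R := (PiLp.norm_apply_le x i).trans hx
  obtain ⟨h2, h3⟩ := abs_le.1 h1
  have h4 : x i / δ ≤ R / δ := by gcongr
  have h5 : -(R / δ) ≤ x i / δ := by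
    rw [← neg_div]; gcongr
  have h6 := Int.le_ceil (R / δ)
  constructor
  · apply Int.le_floor.2
    push_cast
    linarith
  · apply (Int.floor_le_floor (h4.trans h6)).trans
    simp

/-- step function -/
def stepFn (δ R : ℝ) (a : (Fin n → ℤ) → ℝ) (x : EuclideanSpace ℝ (Fin n)) : ℝ :=
  ∑ k ∈ idx n δ R, (cell δ k).indicator (fun _ => a k) x

theorem stepFn_of_mem {δ R : ℝ} (hδ : 0 < δ) (a : (Fin n → ℤ) → ℝ)
    {x : EuclideanSpace ℝ (Fin n)} {k : Fin n → ℤ} (hk : k ∈ idx n δ R) (hx : x ∈ cell δ k) :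
    stepFn δ R a x = a k := by
  unfold stepFn
  rw [Finset.sum_eq_single k]
  · rw [indicator_of_mem hx]
  · intro l _ hl
    rw [indicator_of_notMem]
    intro hxl
    exact hl (cell_disjoint hδ hxl hx)
  · intro h; exact absurd hk h

theorem stepFn_of_notMem {δ R : ℝ} (a : (Fin n → ℤ) → ℝ)
    {x : EuclideanSpace ℝ (Fin n)} (h : ∀ k ∈ idx n δ R, x ∉ cell δ k) :
    stepFn δ R a x = 0 := by
  unfold stepFn
  apply Finset.sum_eq_zero
  intro k hk
  rw [indicator_of_notMem (h k hk)]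

theorem lintegral_sub_stepFn_le {δ R : ℝ} (hδ : 0 < δ)
    {D : Set (EuclideanSpace ℝ (Fin n))} (hD : ∀ x ∈ D, ‖x‖ ≤ R)
    {φ : EuclideanSpace ℝ (Fin n) → ℝ} (hφ : IsTest D φ) :
    ∫⁻ x, ENNReal.ofReal ((φ x - stepFn δ R (fun k => ⨍ y in cell δ k, φ y) x) ^ 2) ≤
      ENNReal.ofReal (2 ^ n * (n * δ ^ 2)) * ∫⁻ x, ENNReal.ofReal (‖fderiv ℝ φ x‖ ^ 2) := by
  have hpt : ∀ x, ENNReal.ofReal
      ((φ x - stepFn δ R (fun k => ⨍ y in cell δ k, φ y) x) ^ 2) ≤
      (ENNReal.ofReal (δ ^ n))⁻¹ *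
        ∫⁻ h in box δ, ENNReal.ofReal ((φ (x + h) - φ x) ^ 2) := by
    intro x
    by_cases hk : (fun i => ⌊x i / δ⌋) ∈ idx n δ R
    · rw [stepFn_of_mem hδ _ hk (mem_cell_floor hδ x)]
      have := sq_sub_average_le hδ hφ.continuous hφ.cpt (mem_cell_floor hδ x)
      rwa [volume_cell hδ] at this
    · have h0 : φ x = 0 := by
        by_contra hne
        exact hk (floor_mem_idx hδ (hD x (hφ.supp (subset_tsupport _ hne))))
      rw [stepFn_of_notMem, h0]
      · simp
      · intro k hk' hx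
        have := cell_disjoint hδ hx (mem_cell_floor hδ x)
        exact hk (this ▸ hk')
  calc _ ≤ ∫⁻ x, (ENNReal.ofReal (δ ^ n))⁻¹ *
        ∫⁻ h in box δ, ENNReal.ofReal ((φ (x + h) - φ x) ^ 2) := lintegral_mono hpt
    _ = (ENNReal.ofReal (δ ^ n))⁻¹ * ∫⁻ x,
        ∫⁻ h in box δ, ENNReal.ofReal ((φ (x + h) - φ x) ^ 2) := by
        rw [lintegral_const_mul']
        simp; positivity
    _ = (ENNReal.ofReal (δ ^ n))⁻¹ * ∫⁻ h in box δ,
        ∫⁻ x, ENNReal.ofReal ((φ (x + h) - φ x) ^ 2) := by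
        congr 1
        apply lintegral_lintegral_swap
        apply Measurable.aemeasurable
        have hc := hφ.continuous
        have : Continuous fun p : EuclideanSpace ℝ (Fin n) × EuclideanSpace ℝ (Fin n) =>
            (φ (p.1 + p.2) - φ p.1) ^ 2 := by fun_prop
        exact ENNReal.measurable_ofReal.comp this.measurable
    _ ≤ (ENNReal.ofReal (δ ^ n))⁻¹ * ∫⁻ _h in (box δ : Set (EuclideanSpace ℝ (Fin n))),
        ENNReal.ofReal (n * δ ^ 2) * ∫⁻ x, ENNReal.ofReal (‖fderiv ℝ φ x‖ ^ 2) := by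
        refine mul_le_mul' le_rfl ?_
        apply setLIntegral_mono (by fun_prop)
        intro h hh
        refine (lintegral_translate_le hφ.smooth h).trans ?_
        refine mul_le_mul' ?_ le_rfl
        exact ENNReal.ofReal_le_ofReal (norm_sq_le_of_mem_box hh)
    _ = _ := by
        rw [setLIntegral_const, volume_box hδ]
        have h1 : ENNReal.ofReal (2 ^ n * (n * δ ^ 2)) =
          (ENNReal.ofReal (δ ^ n))⁻¹ * (ENNReal.ofReal (n * δ ^ 2)) *
            ENNReal.ofReal ((2 * δ) ^ n) := by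
          rw [← ENNReal.ofReal_inv_of_pos (by positivity), ← ENNReal.ofReal_mul (by positivity),
            ← ENNReal.ofReal_mul (by positivity)]
          congr 1
          rw [mul_pow]
          field_simp
        rw [h1]
        ring

/-- Poincaré inequality on bounded sets. -/
theorem poincare {R : ℝ} (hn : 0 < n) (hR : 0 ≤ R)
    {D : Set (EuclideanSpace ℝ (Fin n))} (hD : ∀ x ∈ D, ‖x‖ ≤ R)
    {φ : EuclideanSpace ℝ (Fin n) → ℝ} (hφ : IsTest D φ) :
    2 * ∫ x, (φ x) ^ 2 ≤ (2 * R + 1) ^ 2 * ∫ x, ‖fderiv ℝ φ x‖ ^ 2 := by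
  set h : EuclideanSpace ℝ (Fin n) := EuclideanSpace.single ⟨0, hn⟩ (2 * R + 1) with hh
  have hnorm : ‖h‖ = 2 * R + 1 := by
    rw [hh, PiLp.norm_single, Real.norm_of_nonneg (by linarith)]
  have hz : ∀ x, x ∉ D → φ x = 0 := by
    intro x hx
    by_contra hne
    exact hx (hφ.supp (subset_tsupport _ hne))
  have hpt : ∀ x, (φ (x + h) - φ x) ^ 2 = (φ (x + h)) ^ 2 + (φ x) ^ 2 := by
    intro x
    have : φ (x + h) * φ x = 0 := by
      by_cases h1 : x ∈ D
      · by_cases h2 : x + h ∈ D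
        · exfalso
          have e1 := hD x h1
          have e2 := hD _ h2
          have : ‖h‖ ≤ ‖x + h‖ + ‖x‖ := by
            calc ‖h‖ = ‖(x + h) - x‖ := by congr 1; abel
              _ ≤ _ := norm_sub_le _ _
          linarith
        · rw [hz _ h2]; ring
      · rw [hz _ h1]; ring
    nlinarith
  have h1 := integral_translate_le hφ h
  simp only [hpt] at h1
  have hsh : Integrable (fun x => (φ (x + h)) ^ 2) := hφ.integrable_sq.comp_add_right h
  rw [integral_add hsh hφ.integrable_sq,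
    integral_add_right_eq_self (fun x => (φ x) ^ 2) h, hnorm] at h1
  linarith

theorem stepFn_memLp {δ : ℝ} (hδ : 0 < δ) (R : ℝ) (a : (Fin n → ℤ) → ℝ) :
    MemLp (stepFn δ R a) 2 volume := by
  unfold stepFn
  apply memLp_finsetSum
  intro k _
  apply memLp_indicator_const _ (measurableSet_cell δ k)
  right
  rw [volume_cell hδ]; exact ENNReal.ofReal_ne_top

theorem stepFn_add (δ R : ℝ) (a b : (Fin n → ℤ) → ℝ) :
    stepFn δ R (a + b) = stepFn δ R a + stepFn δ R b := by
  ext x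
  unfold stepFn
  rw [Pi.add_apply, ← Finset.sum_add_distrib]
  apply Finset.sum_congr rfl
  intro k _
  by_cases hx : x ∈ cell δ k
  · simp [indicator_of_mem hx]
  · simp [indicator_of_notMem hx]

theorem stepFn_smul (δ R c : ℝ) (a : (Fin n → ℤ) → ℝ) :
    stepFn δ R (c • a) = c • stepFn δ R a := by
  ext x
  unfold stepFn
  rw [Pi.smul_apply, smul_eq_mul, Finset.mul_sum]
  apply Finset.sum_congr rfl
  intro k _
  by_cases hx : x ∈ cell δ k
  · simp [indicator_of_mem hx]
  · simp [indicator_of_notMem hx]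

/-- extension by zero -/
def extz {δ R : ℝ} (a : idx n δ R → ℝ) (k : Fin n → ℤ) : ℝ :=
  if h : k ∈ idx n δ R then a ⟨k, h⟩ else 0

/-- The step-function map into `L²`. -/
def stepLp (n : ℕ) {δ : ℝ} (hδ : 0 < δ) (R : ℝ) : (idx n δ R → ℝ) →ₗ[ℝ] E2 n where
  toFun a := MemLp.toLp (stepFn δ R (extz a)) (stepFn_memLp hδ R _)
  map_add' a b := by
    rw [← MemLp.toLp_add]
    apply MemLp.toLp_congr
    rw [← stepFn_add]
    have : extz (a + b) = extz a + extz b := by
      ext k; unfold extz; simp only [Pi.add_apply]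
      split_ifs <;> simp
    rw [this]
  map_smul' c a := by
    simp only [RingHom.id_apply]
    rw [← MemLp.toLp_const_smul]
    apply MemLp.toLp_congr
    rw [← stepFn_smul]
    have : extz (c • a) = c • extz a := by
      ext k; unfold extz; simp only [Pi.smul_apply]
      split_ifs <;> simp
    rw [this]

theorem stepFn_congr {δ R : ℝ} {a b : (Fin n → ℤ) → ℝ} (h : ∀ k ∈ idx n δ R, a k = b k) :
    stepFn δ R a = stepFn δ R b := by
  ext x
  unfold stepFn
  apply Finset.sum_congr rfl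
  intro k hk
  rw [h k hk]

theorem stepLp_apply {δ : ℝ} (hδ : 0 < δ) (R : ℝ) (a : (Fin n → ℤ) → ℝ) :
    stepLp n hδ R (fun k => a k.1) = MemLp.toLp (stepFn δ R a) (stepFn_memLp hδ R a) := by
  show MemLp.toLp (stepFn δ R (extz fun k => a k.1)) (stepFn_memLp hδ R _) = _
  have : stepFn δ R (extz fun k : idx n δ R => a k.1) = stepFn δ R a := by
    apply stepFn_congr
    intro k hk
    unfold extz
    simp [hk]
  apply MemLp.toLp_congr
  rw [this]

theorem abs_average_le {δ : ℝ} (hδ : 0 < δ) (k : Fin n → ℤ)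
    {D : Set (EuclideanSpace ℝ (Fin n))}
    {φ : EuclideanSpace ℝ (Fin n) → ℝ} (hφ : IsTest D φ) :
    (⨍ y in cell δ k, φ y) ^ 2 ≤ (δ ^ n)⁻¹ * ∫ y, (φ y) ^ 2 := by
  have hv0 : volume (cell δ k) ≠ 0 := by
    rw [volume_cell hδ]; simp; positivity
  have hvt : volume (cell δ k) ≠ ⊤ := by
    rw [volume_cell hδ]; exact ENNReal.ofReal_ne_top
  have hint : Integrable φ := hφ.continuous.integrable_of_hasCompactSupport hφ.cpt
  have := (even_two.convexOn_pow (𝕜 := ℝ)).map_set_average_le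
      (μ := volume) (t := cell δ k) (f := φ) (by fun_prop) isClosed_univ
      hv0 hvt (by simp) hint.integrableOn hφ.integrable_sq.integrableOn
  refine this.trans ?_
  rw [setAverage_eq, smul_eq_mul, measureReal_def, volume_cell hδ,
    ENNReal.toReal_ofReal (by positivity)]
  exact mul_le_mul_of_nonneg_left (setIntegral_le_integral hφ.integrable_sq
    (Eventually.of_forall fun x => by positivity)) (by positivity)

/-- **Rellich**: the `L²`-components of elements of `H¹₀(D)` with gradient norm `≤ C`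
form a relatively compact set. -/
theorem rellich (hn : 0 < n) {D : Set (EuclideanSpace ℝ (Fin n))} {R : ℝ} (hR : 0 ≤ R)
    (hD : ∀ x ∈ D, ‖x‖ ≤ R) (C : ℝ) :
    ∃ K : Set (E2 n), IsCompact K ∧ ∀ p ∈ HD D, ‖p.2‖ ≤ C → p.1 ∈ K := by
  classical
  set C' : ℝ := |C| + 1 with hC'
  have hC'pos : 0 < C' := by positivity
  set S : Set (E2 n) := {f | ∃ φ : testSub D, f = (J D φ).1 ∧ ‖(J D φ).2‖ ≤ C'} with hS
  have hTB : TotallyBounded S := by
    rw [Metric.totallyBounded_iff]
    intro ε hε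
    -- choose δ
    obtain ⟨δ, hδ, hδε⟩ : ∃ δ : ℝ, 0 < δ ∧ 2 ^ n * (n * δ ^ 2) * C' ^ 2 < (ε / 2) ^ 2 := by
      have hcont : Continuous fun δ : ℝ => 2 ^ n * (n * δ ^ 2) * C' ^ 2 := by fun_prop
      have h0 : Tendsto (fun δ : ℝ => 2 ^ n * (n * δ ^ 2) * C' ^ 2) (𝓝[>] 0) (𝓝 0) := by
        have := hcont.tendsto 0
        simp only [ne_eq, OfNat.ofNat_ne_zero, not_false_eq_true, zero_pow, mul_zero,
          zero_mul] at this
        exact this.mono_left nhdsWithin_le_nhds
      have h1 := (h0.eventually (gt_mem_nhds (show (0:ℝ) < (ε / 2) ^ 2 by positivity))).and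
        self_mem_nhdsWithin
      obtain ⟨δ, h2, h3⟩ := h1.exists
      exact ⟨δ, h3, h2⟩
    -- bound for averages
    set M : ℝ := Real.sqrt ((δ ^ n)⁻¹ * ((2 * R + 1) ^ 2 * C' ^ 2)) with hM
    have hcpt : IsCompact (stepLp n hδ R '' closedBall 0 M) :=
      (isCompact_closedBall _ _).image (LinearMap.continuous_of_finiteDimensional _)
    have hfin := Metric.totallyBounded_iff.1 hcpt.totallyBounded (ε / 2) (by positivity)
    obtain ⟨t, ht, hcov⟩ := hfin
    refine ⟨t, ht, ?_⟩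
    intro f hf
    rw [hS, Set.mem_ofPred_eq] at hf
    obtain ⟨φ, rfl, hφC⟩ := hf
    have hφ := mem_testSub.1 φ.2
    set a : (Fin n → ℤ) → ℝ := fun k => ⨍ y in cell δ k, φ.1 y with ha
    have hE : ∫ x, ‖fderiv ℝ φ.1 x‖ ^ 2 ≤ C' ^ 2 := by
      rw [← norm_J_snd]
      exact pow_le_pow_left₀ (norm_nonneg _) hφC 2
    have hmem : stepLp n hδ R (fun k => a k.1) ∈ stepLp n hδ R '' closedBall 0 M := by
      refine ⟨_, ?_, rfl⟩
      rw [mem_closedBall, dist_zero_right, pi_norm_le_iff_of_nonneg (Real.sqrt_nonneg _)]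
      intro k
      rw [Real.norm_eq_abs]
      apply Real.abs_le_sqrt
      refine (abs_average_le hδ k.1 hφ).trans ?_
      have h1 := poincare hn hR hD hφ
      have h2 : 0 ≤ ∫ x, (φ.1 x) ^ 2 := integral_nonneg fun x => by positivity
      have h3 : ∫ x, (φ.1 x) ^ 2 ≤ (2 * R + 1) ^ 2 * C' ^ 2 := by
        calc ∫ x, (φ.1 x) ^ 2 ≤ 2 * ∫ x, (φ.1 x) ^ 2 := by linarith
          _ ≤ (2 * R + 1) ^ 2 * ∫ x, ‖fderiv ℝ φ.1 x‖ ^ 2 := h1
          _ ≤ _ := by gcongr
      gcongr
    have h1 := hcov hmem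
    simp only [mem_iUnion] at h1 ⊢
    obtain ⟨y, hy, hy2⟩ := h1
    refine ⟨y, hy, ?_⟩
    rw [mem_ball] at hy2 ⊢
    have hdist : dist (J D φ).1 (stepLp n hδ R (fun k => a k.1)) < ε / 2 := by
      rw [dist_eq_norm]
      have hsq : ‖(J D φ).1 - stepLp n hδ R (fun k => a k.1)‖ ^ 2 < (ε / 2) ^ 2 := by
        refine lt_of_le_of_lt ?_ hδε
        rw [stepLp_apply]
        show ‖MemLp.toLp φ.1 hφ.memLp - _‖ ^ 2 ≤ _
        rw [← MemLp.toLp_sub, toLp_norm_sq]
        have hl := lintegral_sub_stepFn_le (R := R) hδ hD hφ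
        have hi : Integrable (fun x => (φ.1 x - stepFn δ R a x) ^ 2) := by
          have := (hφ.memLp.sub (stepFn_memLp hδ R a)).integrable_sq
          exact this
        rw [← ofReal_integral_eq_lintegral_ofReal hi
            (Eventually.of_forall fun x => by positivity),
          ← ofReal_integral_eq_lintegral_ofReal hφ.integrable_energy
            (Eventually.of_forall fun x => by positivity),
          ← ENNReal.ofReal_mul (by positivity)] at hl
        have hE0 : 0 ≤ ∫ x, ‖fderiv ℝ φ.1 x‖ ^ 2 := integral_nonneg fun x => by positivity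
        have hl2 := (ENNReal.ofReal_le_ofReal_iff (by positivity)).1 hl
        calc ∫ x, ‖(φ.1 - stepFn δ R a) x‖ ^ 2 = ∫ x, (φ.1 x - stepFn δ R a x) ^ 2 := by
              simp
          _ ≤ _ := hl2
          _ ≤ _ := by gcongr
      exact lt_of_pow_lt_pow_left₀ 2 (by positivity) hsq
    calc dist (J D φ).1 y ≤ dist (J D φ).1 (stepLp n hδ R (fun k => a k.1)) +
          dist (stepLp n hδ R (fun k => a k.1)) y := dist_triangle _ _ _
      _ < ε / 2 + ε / 2 := by gcongr
      _ = ε := by ring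
  refine ⟨closure S, isCompact_iff_totallyBounded_isComplete.2 ⟨hTB.closure, isClosed_closure.isComplete⟩, ?_⟩
  intro p hp hpC
  obtain ⟨φ, hφ⟩ := exists_seq hp
  have h1 : Tendsto (fun m => (J D (φ m)).1) atTop (𝓝 p.1) := (continuous_fst.tendsto _).comp hφ
  have h2 : Tendsto (fun m => ‖(J D (φ m)).2‖) atTop (𝓝 ‖p.2‖) :=
    ((continuous_snd.tendsto _).comp hφ).norm
  have h3 : ‖p.2‖ < C' := by
    have := le_abs_self C
    rw [hC']; linarith
  have h4 := h2.eventually (gt_mem_nhds h3)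
  apply mem_closure_of_tendsto h1
  filter_upwards [h4] with m hm
  rw [hS, Set.mem_ofPred_eq]
  exact ⟨φ m, rfl, hm.le⟩

end Pool.Agent.H66.EX
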