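import Pool.Agent.H66.EX.Basic

set_option autoImplicit false

open MeasureTheory Set Filter Topology Metric
open scoped ContDiff ENNReal NNReal Pointwise RealInnerProductSpace

noncomputable section

namespace Pool.Agent.H66.EX

variable {n : ℕ}

/-- scalar `L²` -/
abbrev E2 (n : ℕ) := Lp ℝ 2 (volume : Measure (EuclideanSpace ℝ (Fin n)))

/-- vector `L²` -/
abbrev G2 (n : ℕ) := Lp (EuclideanSpace ℝ (Fin n)) 2
  (volume : Measure (EuclideanSpace ℝ (Fin n)))

theorem Lp_norm_sq {α E : Type*} [MeasurableSpace α] {μ : Measure α} [NormedAddCommGroup E]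
    [InnerProductSpace ℝ E] (f : Lp E 2 μ) : ‖f‖ ^ 2 = ∫ x, ‖f x‖ ^ 2 ∂μ := by
  rw [← real_inner_self_eq_norm_sq, L2.inner_def]
  simp only [real_inner_self_eq_norm_sq]

theorem toLp_norm_sq {α E : Type*} [MeasurableSpace α] {μ : Measure α} [NormedAddCommGroup E]
    [InnerProductSpace ℝ E] {f : α → E} (hf : MemLp f 2 μ) :
    ‖hf.toLp f‖ ^ 2 = ∫ x, ‖f x‖ ^ 2 ∂μ := by
  rw [Lp_norm_sq]
  apply integral_congr_ae
  filter_upwards [hf.coeFn_toLp] with x hx
  rw [hx]

/-- Test functions form a submodule. -/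
def testSub (D : Set (EuclideanSpace ℝ (Fin n))) :
    Submodule ℝ (EuclideanSpace ℝ (Fin n) → ℝ) where
  carrier := {φ | IsTest D φ}
  add_mem' := fun {a b} ha hb => by
    rw [Set.mem_ofPred_eq] at ha hb ⊢
    exact ha.add hb
  zero_mem' := by
    rw [Set.mem_ofPred_eq]; exact IsTest.zero
  smul_mem' := fun c a ha => by
    rw [Set.mem_ofPred_eq] at ha ⊢
    exact ha.smul c

theorem mem_testSub {D : Set (EuclideanSpace ℝ (Fin n))} {φ : EuclideanSpace ℝ (Fin n) → ℝ} :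
    φ ∈ testSub D ↔ IsTest D φ := Iff.rfl

theorem gradient_add' {φ ψ : EuclideanSpace ℝ (Fin n) → ℝ} (hφ : Differentiable ℝ φ)
    (hψ : Differentiable ℝ ψ) :
    gradient (φ + ψ) = gradient φ + gradient ψ := by
  ext1 x
  unfold gradient
  simp only [Pi.add_apply]
  rw [fderiv_add (hφ x) (hψ x), map_add]

theorem gradient_smul' {φ : EuclideanSpace ℝ (Fin n) → ℝ} (hφ : Differentiable ℝ φ) (c : ℝ) :
    gradient (c • φ) = c • gradient φ := by
  ext1 x
  unfold gradient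
  simp only [Pi.smul_apply]
  rw [fderiv_const_smul (hφ x)]
  simp

/-- `φ ↦ (φ, ∇φ)`. -/
noncomputable def J (D : Set (EuclideanSpace ℝ (Fin n))) : testSub D →ₗ[ℝ] E2 n × G2 n where
  toFun φ := (MemLp.toLp φ.1 (mem_testSub.1 φ.2).memLp,
    MemLp.toLp (gradient φ.1) (mem_testSub.1 φ.2).memLp_gradient)
  map_add' := fun φ ψ => by
    apply Prod.ext
    · exact MemLp.toLp_add (mem_testSub.1 φ.2).memLp (mem_testSub.1 ψ.2).memLp
    · simp only [Prod.snd_add]
      rw [← MemLp.toLp_add]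
      apply MemLp.toLp_congr
      rw [← gradient_add' (mem_testSub.1 φ.2).differentiable (mem_testSub.1 ψ.2).differentiable]
      exact Eventually.of_forall fun x => rfl
  map_smul' := fun c φ => by
    apply Prod.ext
    · exact MemLp.toLp_const_smul _ (mem_testSub.1 φ.2).memLp
    · simp only [Prod.smul_snd, RingHom.id_apply]
      rw [← MemLp.toLp_const_smul]
      apply MemLp.toLp_congr
      rw [← gradient_smul' (mem_testSub.1 φ.2).differentiable]
      exact Eventually.of_forall fun x => rfl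

/-- `H¹₀(D)` as the closure of the graph of the gradient on test functions. -/
noncomputable def HD (D : Set (EuclideanSpace ℝ (Fin n))) : Submodule ℝ (E2 n × G2 n) :=
  (LinearMap.range (J D)).topologicalClosure

theorem isClosed_HD (D : Set (EuclideanSpace ℝ (Fin n))) :
    IsClosed (HD D : Set (E2 n × G2 n)) :=
  Submodule.isClosed_topologicalClosure _

theorem J_mem {D : Set (EuclideanSpace ℝ (Fin n))} (φ : testSub D) : J D φ ∈ HD D :=
  Submodule.le_topologicalClosure _ ⟨φ, rfl⟩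

theorem exists_seq {D : Set (EuclideanSpace ℝ (Fin n))} {p : E2 n × G2 n} (hp : p ∈ HD D) :
    ∃ φ : ℕ → testSub D, Tendsto (fun m => J D (φ m)) atTop (𝓝 p) := by
  have : p ∈ closure (LinearMap.range (J D) : Set (E2 n × G2 n)) := hp
  rw [mem_closure_iff_seq_limit] at this
  obtain ⟨x, hx, hlim⟩ := this
  choose φ hφ using hx
  refine ⟨φ, ?_⟩
  have : (fun m => J D (φ m)) = x := funext hφ
  rw [this]; exact hlim

theorem J_fst_coe {D : Set (EuclideanSpace ℝ (Fin n))} (φ : testSub D) :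
    ((J D φ).1 : EuclideanSpace ℝ (Fin n) → ℝ) =ᵐ[volume] φ.1 :=
  MemLp.coeFn_toLp (mem_testSub.1 φ.2).memLp

theorem J_snd_coe {D : Set (EuclideanSpace ℝ (Fin n))} (φ : testSub D) :
    ((J D φ).2 : EuclideanSpace ℝ (Fin n) → EuclideanSpace ℝ (Fin n)) =ᵐ[volume]
      gradient φ.1 :=
  MemLp.coeFn_toLp (mem_testSub.1 φ.2).memLp_gradient

theorem norm_J_fst {D : Set (EuclideanSpace ℝ (Fin n))} (φ : testSub D) :
    ‖(J D φ).1‖ ^ 2 = ∫ x, (φ.1 x) ^ 2 := by
  show ‖MemLp.toLp φ.1 (mem_testSub.1 φ.2).memLp‖ ^ 2 = _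
  rw [toLp_norm_sq]
  simp

theorem norm_J_snd {D : Set (EuclideanSpace ℝ (Fin n))} (φ : testSub D) :
    ‖(J D φ).2‖ ^ 2 = ∫ x, ‖fderiv ℝ φ.1 x‖ ^ 2 := by
  show ‖MemLp.toLp (gradient φ.1) (mem_testSub.1 φ.2).memLp_gradient‖ ^ 2 = _
  rw [toLp_norm_sq]
  simp only [IsTest.norm_gradient]

/-- elements of `H¹₀(D)` vanish a.e. outside `D`. -/
theorem HD_ae_zero {D : Set (EuclideanSpace ℝ (Fin n))}
    {p : E2 n × G2 n} (hp : p ∈ HD D) :
    ∀ᵐ x, x ∉ D → (p.1 : EuclideanSpace ℝ (Fin n) → ℝ) x = 0 := by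
  obtain ⟨φ, hφ⟩ := exists_seq hp
  have h1 : Tendsto (fun m => (J D (φ m)).1) atTop (𝓝 p.1) :=
    (continuous_fst.tendsto _).comp hφ
  have h2 := tendstoInMeasure_of_tendsto_Lp h1
  obtain ⟨ns, _, hns⟩ := h2.exists_seq_tendsto_ae
  have h3 : ∀ m, ∀ᵐ x, ((J D (φ m)).1 : EuclideanSpace ℝ (Fin n) → ℝ) x = (φ m).1 x :=
    fun m => J_fst_coe (φ m)
  filter_upwards [hns, ae_all_iff.2 h3] with x hx hx3 hxD
  have h4 : ∀ m, ((J D (φ m)).1 : EuclideanSpace ℝ (Fin n) → ℝ) x = 0 := by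
    intro m
    rw [hx3 m]
    by_contra hne
    exact hxD ((mem_testSub.1 (φ m).2).supp (subset_tsupport _ hne))
  simp only [h4] at hx
  exact (tendsto_nhds_unique hx tendsto_const_nhds)

end Pool.Agent.H66.EX
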