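import Pool.Agent.H66.EX.Mul

set_option autoImplicit false

open MeasureTheory Set Filter Topology Metric
open scoped ContDiff ENNReal NNReal Pointwise RealInnerProductSpace

noncomputable section

namespace Pool.Agent.H66.EX

variable {n : ℕ}

/-- cut-off near zero -/
def cut (t : ℝ) : ℝ := Real.smoothTransition (t ^ 2 - 1)

theorem cut_contDiff : ContDiff ℝ ∞ cut :=
  Real.smoothTransition.contDiff.comp ((contDiff_id.pow 2).sub contDiff_const)

theorem cut_zero {t : ℝ} (ht : |t| ≤ 1) : cut t = 0 := by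
  unfold cut
  apply Real.smoothTransition.zero_of_nonpos
  have := pow_le_pow_left₀ (abs_nonneg t) ht 2
  rw [sq_abs] at this
  linarith

theorem cut_one {t : ℝ} (ht : 2 ≤ |t|) : cut t = 1 := by
  unfold cut
  apply Real.smoothTransition.one_of_one_le
  have := pow_le_pow_left₀ (by norm_num) ht 2
  rw [sq_abs] at this
  linarith

theorem cut_abs_le (t : ℝ) : |cut t| ≤ 1 := by
  unfold cut
  rw [abs_of_nonneg (Real.smoothTransition.nonneg _)]
  exact Real.smoothTransition.le_one _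

theorem cut_deriv_continuous : Continuous (deriv cut) :=
  (contDiff_infty_iff_deriv.1 cut_contDiff).2.continuous

theorem cut_deriv_zero_of_lt {t : ℝ} (ht : |t| < 1) : deriv cut t = 0 := by
  have h1 : cut =ᶠ[𝓝 t] fun _ => 0 := by
    have : {s : ℝ | |s| < 1} ∈ 𝓝 t := (isOpen_lt continuous_abs continuous_const).mem_nhds ht
    filter_upwards [this] with s hs
    exact cut_zero (le_of_lt hs)
  rw [h1.deriv_eq]; simp

theorem cut_deriv_zero_of_gt {t : ℝ} (ht : 2 < |t|) : deriv cut t = 0 := by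
  have h1 : cut =ᶠ[𝓝 t] fun _ => 1 := by
    have : {s : ℝ | 2 < |s|} ∈ 𝓝 t := (isOpen_lt continuous_const continuous_abs).mem_nhds ht
    filter_upwards [this] with s hs
    exact cut_one (le_of_lt hs)
  rw [h1.deriv_eq]; simp

theorem exists_cut_deriv_bound : ∃ C : ℝ, 0 < C ∧ (∀ t, |deriv cut t| ≤ C) ∧
    ∀ t, |t * deriv cut t| ≤ C := by
  obtain ⟨M1, hM1⟩ := (isCompact_Icc (a := (-2 : ℝ)) (b := 2)).exists_bound_of_continuousOn
    cut_deriv_continuous.continuousOn
  refine ⟨2 * |M1| + 1, by positivity, ?_, ?_⟩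
  · intro t
    by_cases ht : |t| ≤ 2
    · have := hM1 t (abs_le.1 ht)
      rw [Real.norm_eq_abs] at this
      have := le_abs_self M1
      have := abs_nonneg M1
      linarith
    · push Not at ht
      rw [cut_deriv_zero_of_gt ht, abs_zero]; positivity
  · intro t
    by_cases ht : |t| ≤ 2
    · have h1 := hM1 t (abs_le.1 ht)
      rw [Real.norm_eq_abs] at h1
      rw [abs_mul]
      have h2 := le_abs_self M1
      have h3 := abs_nonneg M1
      calc |t| * |deriv cut t| ≤ 2 * |M1| := by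
            apply mul_le_mul ht (h1.trans h2) (abs_nonneg _) (by norm_num)
        _ ≤ _ := by linarith
    · push Not at ht
      rw [cut_deriv_zero_of_gt ht, mul_zero, abs_zero]; positivity

/-- the three coefficient functions -/
def sk (k a b : ℝ) : ℝ := Real.sinc (a / k) * cut (k * b)
def A1 (k a b : ℝ) : ℝ := Real.cos (a / k) * cut (k * b)
def B1 (k a b : ℝ) : ℝ := k * Real.sin (a / k) * (k * deriv cut (k * b))

theorem sk_abs_le (k a b : ℝ) : |sk k a b| ≤ 1 := by
  unfold sk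
  rw [abs_mul]
  calc |Real.sinc (a / k)| * |cut (k * b)| ≤ 1 * 1 :=
        mul_le_mul (Real.abs_sinc_le_one _) (cut_abs_le _) (abs_nonneg _) (by norm_num)
    _ = 1 := by norm_num

theorem A1_abs_le (k a b : ℝ) : |A1 k a b| ≤ 1 := by
  unfold A1
  rw [abs_mul]
  calc |Real.cos (a / k)| * |cut (k * b)| ≤ 1 * 1 :=
        mul_le_mul (Real.abs_cos_le_one _) (cut_abs_le _) (abs_nonneg _) (by norm_num)
    _ = 1 := by norm_num

theorem B1_abs_le {C : ℝ} (hC : ∀ t, |deriv cut t| ≤ C) {k : ℝ} (hk : 0 < k) (a b : ℝ) :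
    |B1 k a b| ≤ k * (k * C) := by
  unfold B1
  rw [abs_mul, abs_mul, abs_mul, abs_of_pos hk]
  have h1 := hC (k * b)
  have h2 := Real.abs_sin_le_one (a / k)
  calc k * |Real.sin (a / k)| * (k * |deriv cut (k * b)|) ≤ k * 1 * (k * C) := by
        gcongr
    _ = _ := by ring

theorem continuous_sk (k : ℝ) : Continuous fun p : ℝ × ℝ => sk k p.1 p.2 := by
  unfold sk
  exact (Real.continuous_sinc.comp (continuous_fst.div_const k)).mul
    (cut_contDiff.continuous.comp (continuous_const.mul continuous_snd))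

theorem continuous_A1 (k : ℝ) : Continuous fun p : ℝ × ℝ => A1 k p.1 p.2 := by
  unfold A1
  exact (Real.continuous_cos.comp (continuous_fst.div_const k)).mul
    (cut_contDiff.continuous.comp (continuous_const.mul continuous_snd))

theorem continuous_B1 (k : ℝ) : Continuous fun p : ℝ × ℝ => B1 k p.1 p.2 := by
  unfold B1
  exact (continuous_const.mul (Real.continuous_sin.comp (continuous_fst.div_const k))).mul
    (continuous_const.mul (cut_deriv_continuous.comp (continuous_const.mul continuous_snd)))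

/-- the smooth combination of two test functions -/
def Gk (k : ℝ) (φ ψ : EuclideanSpace ℝ (Fin n) → ℝ) (x : EuclideanSpace ℝ (Fin n)) : ℝ :=
  k * Real.sin (φ x / k) * cut (k * ψ x)

theorem Gk_eq {k : ℝ} (hk : 0 < k) (φ ψ : EuclideanSpace ℝ (Fin n) → ℝ)
    (x : EuclideanSpace ℝ (Fin n)) : Gk k φ ψ x = sk k (φ x) (ψ x) • φ x := by
  unfold Gk sk
  by_cases h : φ x = 0
  · simp [h]
  · rw [Real.sinc_of_ne_zero (div_ne_zero h hk.ne'), smul_eq_mul]
    field_simp

theorem Gk_isTest {D : Set (EuclideanSpace ℝ (Fin n))} {k : ℝ}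
    {φ ψ : EuclideanSpace ℝ (Fin n) → ℝ} (hφ : IsTest D φ) (hψ : IsTest D ψ) :
    IsTest D (Gk k φ ψ) := by
  have h1 : ContDiff ℝ ∞ fun x => k * Real.sin (φ x / k) := by
    exact contDiff_const.mul (Real.contDiff_sin.comp (hφ.smooth.div_const k))
  have hs : Function.support (fun x => k * Real.sin (φ x / k)) ⊆ Function.support φ := by
    intro x hx
    rw [Function.mem_support] at hx ⊢
    intro h0; apply hx; simp [h0]
  have h2 : IsTest D (fun x => k * Real.sin (φ x / k)) :=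
    ⟨h1, hφ.cpt.mono hs, (closure_mono hs).trans hφ.supp⟩
  have h3 : ContDiff ℝ ∞ fun x => cut (k * ψ x) :=
    cut_contDiff.comp (contDiff_const.mul hψ.smooth)
  exact h2.mul_smooth h3

theorem gradient_Gk {D : Set (EuclideanSpace ℝ (Fin n))} {k : ℝ} (hk : 0 < k)
    {φ ψ : EuclideanSpace ℝ (Fin n) → ℝ} (hφ : IsTest D φ) (hψ : IsTest D ψ)
    (x : EuclideanSpace ℝ (Fin n)) :
    gradient (Gk k φ ψ) x =
      A1 k (φ x) (ψ x) • gradient φ x + B1 k (φ x) (ψ x) • gradient ψ x := by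
  have hd1 : HasFDerivAt (fun y => φ y / k) (k⁻¹ • fderiv ℝ φ x) x := by
    have := ((hφ.differentiable x).hasFDerivAt).const_mul k⁻¹
    have e : (fun y => k⁻¹ * φ y) = fun y => φ y / k := by ext y; rw [div_eq_inv_mul]
    rw [e] at this; exact this
  have hd2 : HasFDerivAt (fun y => k * Real.sin (φ y / k))
      (k • (Real.cos (φ x / k) • (k⁻¹ • fderiv ℝ φ x))) x := (hd1.sin).const_mul k
  have hd3 : HasFDerivAt (fun y => k * ψ y) (k • fderiv ℝ ψ x) x :=
    ((hψ.differentiable x).hasFDerivAt).const_mul k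
  have hc : HasDerivAt cut (deriv cut (k * ψ x)) (k * ψ x) :=
    ((cut_contDiff.differentiable (by simp)) _).hasDerivAt
  have hd4 : HasFDerivAt (fun y => cut (k * ψ y))
      (deriv cut (k * ψ x) • (k • fderiv ℝ ψ x)) x := by
    have := HasDerivAt.comp_hasFDerivAt (h₂ := cut) (f := fun y => k * ψ y) x hc hd3
    exact this
  have hd5 : HasFDerivAt (Gk k φ ψ)
      ((k * Real.sin (φ x / k)) • (deriv cut (k * ψ x) • (k • fderiv ℝ ψ x)) +
        cut (k * ψ x) • (k • (Real.cos (φ x / k) • (k⁻¹ • fderiv ℝ φ x)))) x := hd2.mul hd4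
  unfold gradient
  rw [hd5.fderiv]
  unfold A1 B1
  simp only [map_add, map_smul, smul_smul]
  rw [add_comm]
  congr 1
  · congr 1
    field_simp
  · congr 1
    ring

theorem comp_aesm {α : Type*} [MeasurableSpace α] {μ : Measure α} {F : ℝ × ℝ → ℝ}
    (hF : Continuous F) {a b : α → ℝ} (ha : AEStronglyMeasurable a μ)
    (hb : AEStronglyMeasurable b μ) : AEStronglyMeasurable (fun x => F (a x, b x)) μ :=
  hF.comp_aestronglyMeasurable (ha.prodMk hb)

/-- the pair (value, gradient) associated with `G_k(a,b)` -/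
def PG {C k : ℝ} (hC : ∀ t, |deriv cut t| ≤ C) (hk : 0 < k) (p q : E2 n × G2 n) :
    E2 n × G2 n :=
  ((mul_memLp (comp_aesm (continuous_sk k) (Lp.aestronglyMeasurable p.1)
      (Lp.aestronglyMeasurable q.1)) (fun _ => sk_abs_le k _ _) p.1).toLp _,
   (mul_memLp (comp_aesm (continuous_A1 k) (Lp.aestronglyMeasurable p.1)
      (Lp.aestronglyMeasurable q.1)) (fun _ => A1_abs_le k _ _) p.2).toLp _ +
   (mul_memLp (comp_aesm (continuous_B1 k) (Lp.aestronglyMeasurable p.1)
      (Lp.aestronglyMeasurable q.1)) (fun _ => B1_abs_le hC hk _ _) q.2).toLp _)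

theorem PG_J {C k : ℝ} (hC : ∀ t, |deriv cut t| ≤ C) (hk : 0 < k)
    {D : Set (EuclideanSpace ℝ (Fin n))} (φ ψ : testSub D) :
    PG hC hk (J D φ) (J D ψ) = J D ⟨Gk k φ.1 ψ.1,
      mem_testSub.2 (Gk_isTest (mem_testSub.1 φ.2) (mem_testSub.1 ψ.2))⟩ := by
  have hG := Gk_isTest (k := k) (mem_testSub.1 φ.2) (mem_testSub.1 ψ.2)
  unfold PG
  apply Prod.ext
  · show _ = MemLp.toLp (Gk k φ.1 ψ.1) hG.memLp
    simp only
    apply MemLp.toLp_congr
    filter_upwards [J_fst_coe φ, J_fst_coe ψ] with x h1 h2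
    rw [h1, h2, Gk_eq hk]
  · show _ = MemLp.toLp (gradient (Gk k φ.1 ψ.1)) hG.memLp_gradient
    simp only
    rw [← MemLp.toLp_add]
    apply MemLp.toLp_congr
    filter_upwards [J_fst_coe φ, J_fst_coe ψ, J_snd_coe φ, J_snd_coe ψ] with x h1 h2 h3 h4
    simp only [Pi.add_apply]
    rw [h1, h2, h3, h4]
    exact (gradient_Gk hk (mem_testSub.1 φ.2) (mem_testSub.1 ψ.2) x).symm

theorem tendsto_PG {C k : ℝ} (hC : ∀ t, |deriv cut t| ≤ C) (hk : 0 < k)
    {p q : ℕ → E2 n × G2 n} {p' q' : E2 n × G2 n} (hp : Tendsto p atTop (𝓝 p'))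
    (hq : Tendsto q atTop (𝓝 q'))
    (hpae : ∀ᵐ x, Tendsto (fun l => ((p l).1 : EuclideanSpace ℝ (Fin n) → ℝ) x) atTop
      (𝓝 ((p'.1 : EuclideanSpace ℝ (Fin n) → ℝ) x)))
    (hqae : ∀ᵐ x, Tendsto (fun l => ((q l).1 : EuclideanSpace ℝ (Fin n) → ℝ) x) atTop
      (𝓝 ((q'.1 : EuclideanSpace ℝ (Fin n) → ℝ) x))) :
    Tendsto (fun l => PG hC hk (p l) (q l)) atTop (𝓝 (PG hC hk p' q')) := by
  have hp1 : Tendsto (fun l => (p l).1) atTop (𝓝 p'.1) := (continuous_fst.tendsto _).comp hp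
  have hp2 : Tendsto (fun l => (p l).2) atTop (𝓝 p'.2) := (continuous_snd.tendsto _).comp hp
  have hq2 : Tendsto (fun l => (q l).2) atTop (𝓝 q'.2) := (continuous_snd.tendsto _).comp hq
  have hae : ∀ F : ℝ × ℝ → ℝ, Continuous F → ∀ᵐ x, Tendsto
      (fun l => F (((p l).1 : EuclideanSpace ℝ (Fin n) → ℝ) x,
        ((q l).1 : EuclideanSpace ℝ (Fin n) → ℝ) x)) atTop
      (𝓝 (F ((p'.1 : EuclideanSpace ℝ (Fin n) → ℝ) x,
        (q'.1 : EuclideanSpace ℝ (Fin n) → ℝ) x))) := by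
    intro F hF
    filter_upwards [hpae, hqae] with x h1 h2
    exact (hF.tendsto _).comp (h1.prodMk_nhds h2)
  have hm : ∀ F : ℝ × ℝ → ℝ, Continuous F → ∀ (r s : E2 n × G2 n),
      AEStronglyMeasurable (fun x => F ((r.1 : EuclideanSpace ℝ (Fin n) → ℝ) x,
        (s.1 : EuclideanSpace ℝ (Fin n) → ℝ) x)) volume := fun F hF r s =>
    comp_aesm hF (Lp.aestronglyMeasurable r.1) (Lp.aestronglyMeasurable s.1)
  have c1 := tendsto_mulLp (μ := (volume : Measure (EuclideanSpace ℝ (Fin n))))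
    (a := fun l x => sk k (((p l).1 : EuclideanSpace ℝ (Fin n) → ℝ) x)
      (((q l).1 : EuclideanSpace ℝ (Fin n) → ℝ) x))
    (b := fun x => sk k ((p'.1 : EuclideanSpace ℝ (Fin n) → ℝ) x)
      ((q'.1 : EuclideanSpace ℝ (Fin n) → ℝ) x))
    (fun l => hm _ (continuous_sk k) (p l) (q l)) (hm _ (continuous_sk k) p' q')
    (K := 1) (fun l x => sk_abs_le k _ _) (fun x => sk_abs_le k _ _)
    (hae _ (continuous_sk k)) hp1
  have c2 := tendsto_mulLp (μ := (volume : Measure (EuclideanSpace ℝ (Fin n))))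
    (a := fun l x => A1 k (((p l).1 : EuclideanSpace ℝ (Fin n) → ℝ) x)
      (((q l).1 : EuclideanSpace ℝ (Fin n) → ℝ) x))
    (b := fun x => A1 k ((p'.1 : EuclideanSpace ℝ (Fin n) → ℝ) x)
      ((q'.1 : EuclideanSpace ℝ (Fin n) → ℝ) x))
    (fun l => hm _ (continuous_A1 k) (p l) (q l)) (hm _ (continuous_A1 k) p' q')
    (K := 1) (fun l x => A1_abs_le k _ _) (fun x => A1_abs_le k _ _)
    (hae _ (continuous_A1 k)) hp2
  have c3 := tendsto_mulLp (μ := (volume : Measure (EuclideanSpace ℝ (Fin n))))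
    (a := fun l x => B1 k (((p l).1 : EuclideanSpace ℝ (Fin n) → ℝ) x)
      (((q l).1 : EuclideanSpace ℝ (Fin n) → ℝ) x))
    (b := fun x => B1 k ((p'.1 : EuclideanSpace ℝ (Fin n) → ℝ) x)
      ((q'.1 : EuclideanSpace ℝ (Fin n) → ℝ) x))
    (fun l => hm _ (continuous_B1 k) (p l) (q l)) (hm _ (continuous_B1 k) p' q')
    (K := k * (k * C)) (fun l x => B1_abs_le hC hk _ _) (fun x => B1_abs_le hC hk _ _)
    (hae _ (continuous_B1 k)) hq2
  exact c1.prodMk_nhds (c2.add c3)

end Pool.Agent.H66.EX
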