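import Pool.Agent.H66.EX.Rellich

set_option autoImplicit false

open MeasureTheory Set Filter Topology Metric
open scoped ContDiff ENNReal NNReal Pointwise RealInnerProductSpace

noncomputable section

namespace Pool.Agent.H66.EX

/-- A weak limit lemma: closed convex sets, strong convergence of the first component and
convergence of the norms of the second component. -/
theorem exists_weak_limit {E F : Type*} [NormedAddCommGroup E] [NormedSpace ℝ E]
    [NormedAddCommGroup F] [InnerProductSpace ℝ F] [CompleteSpace F] {S : Set (E × F)}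
    (hS : IsClosed S) (hc : Convex ℝ S) (a : ℕ → E × F) (haS : ∀ m, a m ∈ S) {u : E}
    (hu : Tendsto (fun m => (a m).1) atTop (𝓝 u)) {L : ℝ}
    (hL : Tendsto (fun m => ‖(a m).2‖) atTop (𝓝 L)) :
    ∃ g : F, (u, g) ∈ S ∧ ‖g‖ ≤ L := by
  set C : ℕ → Set (E × F) := fun m => convexHull ℝ (a '' Ici m) with hCdef
  have hCanti : Antitone C := by
    intro m l hml
    exact convexHull_mono (image_mono (Ici_subset_Ici.2 hml))
  have haC : ∀ m, a m ∈ C m := fun m => subset_convexHull ℝ _ ⟨m, self_mem_Ici, rfl⟩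
  have hCS : ∀ m, C m ⊆ S := by
    intro m
    apply convexHull_min _ hc
    rintro _ ⟨j, _, rfl⟩
    exact haS j
  set d : ℕ → ℝ := fun m => sInf ((fun q : E × F => ‖q.2‖) '' C m) with hd
  have hbdd : ∀ m, BddBelow ((fun q : E × F => ‖q.2‖) '' C m) := fun m =>
    ⟨0, by rintro _ ⟨q, _, rfl⟩; exact norm_nonneg _⟩
  have hne : ∀ m, ((fun q : E × F => ‖q.2‖) '' C m).Nonempty := fun m => ⟨_, a m, haC m, rfl⟩
  have hd0 : ∀ m, 0 ≤ d m := fun m => le_csInf (hne m) (by rintro _ ⟨q, _, rfl⟩; exact norm_nonneg _)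
  have hdle : ∀ m, ∀ q ∈ C m, d m ≤ ‖q.2‖ := fun m q hq => csInf_le (hbdd m) ⟨q, hq, rfl⟩
  have hdmono : Monotone d := by
    intro m l hml
    apply le_csInf (hne l)
    rintro _ ⟨q, hq, rfl⟩
    exact hdle m q (hCanti hml hq)
  have hdL : ∀ m, d m ≤ L := by
    intro m
    apply ge_of_tendsto hL
    filter_upwards [eventually_ge_atTop m] with l hl
    exact (hdmono hl).trans (hdle l _ (haC l))
  obtain ⟨q, hq⟩ : ∃ q : ℕ → E × F, ∀ m, q m ∈ C m ∧ ‖(q m).2‖ < d m + 1 / ((m : ℝ) + 1) := by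
    have : ∀ m : ℕ, ∃ q, q ∈ C m ∧ ‖q.2‖ < d m + 1 / ((m : ℝ) + 1) := by
      intro m
      have h1 : sInf ((fun q : E × F => ‖q.2‖) '' C m) < d m + 1 / ((m : ℝ) + 1) := by
        have : (0 : ℝ) < 1 / ((m : ℝ) + 1) := by positivity
        show d m < d m + 1 / ((m : ℝ) + 1)
        linarith
      obtain ⟨_, ⟨q, hqC, rfl⟩, hq2⟩ := (csInf_lt_iff (hbdd m) (hne m)).1 h1
      exact ⟨q, hqC, hq2⟩
    choose q hq using this
    exact ⟨q, hq⟩
  -- first components converge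
  have hq1 : Tendsto (fun m => (q m).1) atTop (𝓝 u) := by
    rw [Metric.tendsto_atTop]
    intro ε hε
    obtain ⟨N, hN⟩ := (Metric.tendsto_atTop.1 hu) (ε / 2) (by positivity)
    refine ⟨N, fun m hm => ?_⟩
    have hsub : C m ⊆ (fun p : E × F => p.1) ⁻¹' closedBall u (ε / 2) := by
      apply convexHull_min
      · rintro _ ⟨j, hj, rfl⟩
        exact (hN j (hm.trans hj)).le
      · exact (convex_closedBall u (ε / 2)).linear_preimage (LinearMap.fst ℝ E F)
    have := hsub (hq m).1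
    rw [mem_preimage, mem_closedBall] at this
    linarith
  -- limit of d
  obtain ⟨dl, hdl⟩ : ∃ dl, Tendsto d atTop (𝓝 dl) :=
    ⟨_, tendsto_atTop_ciSup hdmono ⟨L, by rintro _ ⟨m, rfl⟩; exact hdL m⟩⟩
  have hdl_ge : ∀ m, d m ≤ dl := fun m => hdmono.ge_of_tendsto hdl m
  have hdlL : dl ≤ L := le_of_tendsto' hdl hdL
  have hone : Tendsto (fun m : ℕ => 1 / ((m : ℝ) + 1)) atTop (𝓝 0) :=
    tendsto_one_div_add_atTop_nhds_zero_nat
  set b : ℕ → ℝ := fun m => Real.sqrt (2 * (dl + 1 / ((m : ℝ) + 1)) ^ 2 +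
    2 * (dl + 1 / ((m : ℝ) + 1)) ^ 2 - 4 * (d m) ^ 2) with hb
  have hb0 : Tendsto b atTop (𝓝 0) := by
    have h1 : Tendsto (fun m : ℕ => 2 * (dl + 1 / ((m : ℝ) + 1)) ^ 2 +
        2 * (dl + 1 / ((m : ℝ) + 1)) ^ 2 - 4 * (d m) ^ 2) atTop
        (𝓝 (2 * (dl + 0) ^ 2 + 2 * (dl + 0) ^ 2 - 4 * dl ^ 2)) := by
      exact (((hone.const_add dl).pow 2).const_mul 2).add
        (((hone.const_add dl).pow 2).const_mul 2) |>.sub ((hdl.pow 2).const_mul 4)
    have h2 := (Real.continuous_sqrt.tendsto _).comp h1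
    have h3 : (2 * (dl + 0) ^ 2 + 2 * (dl + 0) ^ 2 - 4 * dl ^ 2) = 0 := by ring
    rw [h3, Real.sqrt_zero] at h2
    exact h2
  have hcau : CauchySeq (fun m => (q m).2) := by
    apply cauchySeq_of_le_tendsto_0' b _ hb0
    intro m l hml
    rw [dist_eq_norm]
    apply Real.le_sqrt_of_sq_le
    have hmid : (1 / 2 : ℝ) • q m + (1 / 2 : ℝ) • q l ∈ C m :=
      (convex_convexHull ℝ _) (hq m).1 (hCanti hml (hq l).1) (by norm_num) (by norm_num)
        (by norm_num)
    have h1 := hdle m _ hmid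
    have h2 : ((1 / 2 : ℝ) • q m + (1 / 2 : ℝ) • q l).2 =
        (1 / 2 : ℝ) • ((q m).2 + (q l).2) := by
      simp [smul_add]
    rw [h2, norm_smul, Real.norm_of_nonneg (by norm_num)] at h1
    have h3 := parallelogram_law_with_norm ℝ (q m).2 (q l).2
    have h4 := (hq m).2
    have h5 := (hq l).2
    have h6 : (1 : ℝ) / ((l : ℝ) + 1) ≤ 1 / ((m : ℝ) + 1) := by
      apply one_div_le_one_div_of_le (by positivity)
      have : (m : ℝ) ≤ l := by exact_mod_cast hml
      linarith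
    have h7 : ‖(q m).2‖ ≤ dl + 1 / ((m : ℝ) + 1) := by linarith [hdl_ge m]
    have h8 : ‖(q l).2‖ ≤ dl + 1 / ((m : ℝ) + 1) := by linarith [hdl_ge l]
    have h9 : ‖(q m).2‖ ^ 2 ≤ (dl + 1 / ((m : ℝ) + 1)) ^ 2 :=
      pow_le_pow_left₀ (norm_nonneg _) h7 2
    have h10 : ‖(q l).2‖ ^ 2 ≤ (dl + 1 / ((m : ℝ) + 1)) ^ 2 :=
      pow_le_pow_left₀ (norm_nonneg _) h8 2
    have h11 : 4 * (d m) ^ 2 ≤ ‖(q m).2 + (q l).2‖ ^ 2 := by
      have : 2 * d m ≤ ‖(q m).2 + (q l).2‖ := by linarith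
      have := pow_le_pow_left₀ (by linarith [hd0 m]) this 2
      nlinarith
    nlinarith
  obtain ⟨g, hg⟩ := cauchySeq_tendsto_of_complete hcau
  refine ⟨g, ?_, ?_⟩
  · have hlim : Tendsto q atTop (𝓝 (u, g)) := by
      have := hq1.prodMk_nhds hg
      simpa using this
    exact hS.mem_of_tendsto hlim (Eventually.of_forall fun m => hCS m (hq m).1)
  · have h1 : Tendsto (fun m => ‖(q m).2‖) atTop (𝓝 ‖g‖) := hg.norm
    have h2 : Tendsto (fun m : ℕ => dl + 1 / ((m : ℝ) + 1)) atTop (𝓝 (dl + 0)) :=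
      hone.const_add dl
    have h3 : ‖g‖ ≤ dl + 0 :=
      le_of_tendsto_of_tendsto' h1 h2 (fun m => ((hq m).2.le).trans (by linarith [hdl_ge m]))
    linarith

/-- lower semicontinuity of the measure of the support -/
theorem volume_ne_zero_le {α : Type*} [MeasurableSpace α] {μ : Measure α}
    {f : ℕ → Lp ℝ 2 μ} {g : Lp ℝ 2 μ} (h : Tendsto f atTop (𝓝 g)) {V : ℝ≥0∞}
    (hV : ∀ m, μ {x | (f m : α → ℝ) x ≠ 0} ≤ V) : μ {x | (g : α → ℝ) x ≠ 0} ≤ V := by
  have h2 := tendstoInMeasure_of_tendsto_Lp h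
  obtain ⟨ns, _, hns⟩ := h2.exists_seq_tendsto_ae
  have hms : ∀ u : Lp ℝ 2 μ, MeasurableSet {x | (u : α → ℝ) x ≠ 0} := fun u =>
    (Lp.stronglyMeasurable u).measurable (measurableSet_singleton (0:ℝ)).compl
  calc μ {x | (g : α → ℝ) x ≠ 0}
      = ∫⁻ x, ({x | (g : α → ℝ) x ≠ 0}).indicator 1 x ∂μ := by
        rw [lintegral_indicator_one (hms g)]
    _ ≤ ∫⁻ x, liminf (fun m => ({x | (f (ns m) : α → ℝ) x ≠ 0}).indicator
          (1 : α → ℝ≥0∞) x) atTop ∂μ := by
        apply lintegral_mono_ae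
        filter_upwards [hns] with x hx
        by_cases hgx : (g : α → ℝ) x ≠ 0
        · have h1 : ∀ᶠ m in atTop, (f (ns m) : α → ℝ) x ≠ 0 := hx.eventually_ne hgx
          have h2 : ∀ᶠ m in atTop, (1 : ℝ≥0∞) ≤ ({x | (f (ns m) : α → ℝ) x ≠ 0}).indicator
              (1 : α → ℝ≥0∞) x := by
            filter_upwards [h1] with m hm
            rw [indicator_of_mem (by rw [Set.mem_ofPred_eq]; exact hm)]; simp
          rw [indicator_of_mem (by rw [Set.mem_ofPred_eq]; exact hgx)]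
          exact le_liminf_of_le (by isBoundedDefault) h2
        · rw [indicator_of_notMem (by rw [Set.mem_ofPred_eq]; exact hgx)]
          exact zero_le
    _ ≤ liminf (fun m => ∫⁻ x, ({x | (f (ns m) : α → ℝ) x ≠ 0}).indicator
          (1 : α → ℝ≥0∞) x ∂μ) atTop := by
        apply lintegral_liminf_le
        intro m
        exact measurable_one.indicator (hms _)
    _ ≤ V := by
        have : ∀ m, ∫⁻ x, ({x | (f (ns m) : α → ℝ) x ≠ 0}).indicator
          (1 : α → ℝ≥0∞) x ∂μ ≤ V := by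
          intro m
          rw [lintegral_indicator_one (hms _)]
          exact hV _
        apply liminf_le_of_le
        · isBoundedDefault
        · intro b hb
          obtain ⟨m, hm⟩ := hb.exists
          exact hm.trans (this m)

end Pool.Agent.H66.EX
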